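import Pool.Agent.U570.AH.Simple

/-! Readable forms of the conclusions. -/

set_option autoImplicit false

namespace Pool.Agent.U570.AH

open Finset Filter Pool.Agent.U570.AF

theorem cnt_ncard (a b : ℕ) (c : ℤ) (Z : ℕ) : cnt a b c Z =
    {q : ℕ | (q.Prime ∧ ∃ p : ℕ, p.Prime ∧ (a : ℤ) * p - b * q = c) ∧ q ≤ Z}.ncard := by
  classical
  unfold cnt
  rw [← Set.ncard_coe_finset]
  congr 1
  ext q
  simp only [coe_filter, mem_Icc, Set.mem_ofPred_eq]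
  constructor
  · rintro ⟨⟨_, h2⟩, h3⟩
    exact ⟨h3, h2⟩
  · rintro ⟨h3, h2⟩
    exact ⟨⟨h3.1.one_lt.le, h2⟩, h3⟩

theorem unb (B₀ K : ℕ) : ∀ᶠ Z : ℕ in atTop, (K : ℝ) < (Z : ℝ) / (Real.log Z) ^ B₀ := by
  have h1 := (Real.isLittleO_pow_log_id_atTop (n := B₀)).bound (c := 1 / ((K : ℝ) + 1)) (by positivity)
  have h2 := tendsto_natCast_atTop_atTop.eventually h1
  filter_upwards [h2, eventually_ge_atTop 3] with Z hZ hZ3
  have hZ3' : (3 : ℝ) ≤ Z := by exact_mod_cast hZ3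
  have hlog : 0 < Real.log Z := Real.log_pos (by linarith)
  have hp : 0 < (Real.log Z) ^ B₀ := by positivity
  rw [lt_div_iff₀ hp]
  simp only [id, Real.norm_eq_abs] at hZ
  rw [abs_of_pos hp, abs_of_pos (by linarith : (0 : ℝ) < Z)] at hZ
  have hK : (0 : ℝ) < (K : ℝ) + 1 := by positivity
  have h3 : ((K : ℝ) + 1) * (Real.log Z) ^ B₀ ≤ Z := by
    have := mul_le_mul_of_nonneg_left hZ hK.le
    rw [← mul_assoc, mul_one_div_cancel hK.ne', one_mul] at this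
    exact this
  nlinarith

theorem inf_of (B₀ a b : ℕ) (c : ℤ)
    (h : ∃ᶠ Z : ℕ in atTop, (Z : ℝ) / (Real.log Z) ^ B₀ ≤ (cnt a b c Z : ℝ)) :
    {pq : ℕ × ℕ | pq.1.Prime ∧ pq.2.Prime ∧ (a : ℤ) * pq.1 - b * pq.2 = c}.Infinite := by
  classical
  intro hfin
  obtain ⟨K, hK⟩ : ∃ K : ℕ, K = hfin.toFinset.card := ⟨_, rfl⟩
  obtain ⟨Z, hZ1, hZ2⟩ := (h.and_eventually (unb B₀ K)).exists
  have h1 : K < cnt a b c Z := by exact_mod_cast hZ2.trans_le hZ1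
  have h2 : cnt a b c Z ≤ K := by
    rw [hK]
    unfold cnt
    have h3 : ((Icc 1 Z).filter (fun q : ℕ => q.Prime ∧ ∃ p : ℕ, p.Prime ∧ (a : ℤ) * p - b * q = c)) ⊆
        hfin.toFinset.image Prod.snd := by
      intro q hq
      rw [mem_filter] at hq
      obtain ⟨-, hq, p, hp, hpq⟩ := hq
      rw [mem_image]
      exact ⟨(p, q), by rw [Set.Finite.mem_toFinset]; exact ⟨hp, hq, hpq⟩, rfl⟩
    exact (card_le_card h3).trans card_image_le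
  omega

/-- for arbitrarily large `Z` all elements of a large subset are good -/
theorem lg_conv (B₀ : ℕ) (ε : ℝ) (X Y a b : ℕ) (c : ℕ → ℤ)
    (h : Lg ε X Y (fun x Z => GoodZ B₀ a b (c x) Z)) :
    ∃ E ⊆ Ico X (X + Y), (1 - ε) * (Y : ℝ) ≤ (E.card : ℝ) ∧
      (∀ x ∈ E, AdmE a b (c x) ∧
        {pq : ℕ × ℕ | pq.1.Prime ∧ pq.2.Prime ∧ (a : ℤ) * pq.1 - b * pq.2 = c x}.Infinite) ∧
      ∃ᶠ Z : ℕ in atTop, ∀ x ∈ E, (Z : ℝ) / (Real.log Z) ^ B₀ ≤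
        ({q : ℕ | (q.Prime ∧ ∃ p : ℕ, p.Prime ∧ (a : ℤ) * p - b * q = c x) ∧ q ≤ Z}.ncard : ℝ) := by
  obtain ⟨E, hE, hc, hf⟩ := h
  refine ⟨E, hE, hc, fun x hx => ?_, hf.mono fun Z hZ x hx => ?_⟩
  · obtain ⟨Z, hZ⟩ := hf.exists
    have hadm := (hZ x hx).1
    exact ⟨hadm, inf_of B₀ a b (c x) (hf.mono fun Z hZ => (hZ x hx).2)⟩
  · rw [← cnt_ncard]
    exact (hZ x hx).2

end Pool.Agent.U570.AH
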