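import Pool.Agent.U570.AH.Fix

/-! A positive proportion of all triples, with one exponent for all triples and all intervals. -/

set_option autoImplicit false

namespace Pool.Agent.U570.AH

open Finset Filter Pool.Agent.U570.AF

open Classical in
/-- the good triples of the box, for a given exponent -/
noncomputable def PTJ (B₀ α W H M X L Z : ℕ) (ε : ℝ) : Finset ((ℕ × ℕ) × ℤ) :=
  ((Icc 1 W ×ˢ Icc 1 W) ×ˢ Icc (-(H : ℤ)) H).filter (fun t =>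
    (1 - ε) * (L : ℝ) ≤ (((Ico X (X + L)).filter (fun x : ℕ =>
      GoodZ B₀ t.1.1 t.1.2 (t.2 + t.1.1 * ((M : ℤ) ^ α * (x : ℤ))) Z)).card : ℝ))

/-- **a positive proportion of all triples**, with the exponent determined by the class -/
theorem triples_j : ∃ B₀ : ℕ, ∀ ε : ℝ, 0 < ε → ε ≤ 1 → ∃ (T C : ℕ) (δ : ℝ), 0 < δ ∧
    ∀ W : ℕ, C ≤ W → ∀ H : ℕ, W ^ 2 ≤ H → ∀ M : ℕ, 1 ≤ M → (∀ m : ℕ, 1 ≤ m → m ≤ W → m ∣ M) →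
    ∃ Γ : ℕ, 1 ≤ Γ ∧ ∀ L X : ℕ → ℕ, Γ ≤ L 0 → (∀ i, 1 ≤ i → Γ * (L (i - 1) + X (i - 1)) ≤ L i) →
    ∀ Z : ℕ, Γ * (L T + X T) ≤ Z → ∃ j, 1 ≤ j ∧ j ≤ T ∧
      δ * ((W : ℝ) ^ 2 * H) ≤ ((PTJ B₀ (2 * (T - j) + 1) W H M (X j) (L j) Z ε).card : ℝ) := by
  classical
  obtain ⟨B₀, hmain⟩ := main_g
  refine ⟨B₀, fun ε hε hε1 => ?_⟩
  obtain ⟨T, R, hT, hR, hm⟩ := hmain ε hε hε1
  obtain ⟨K, hK⟩ : ∃ K : ℕ, K = 2 * R * (T + 1) := ⟨_, rfl⟩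
  obtain ⟨P, C₁, δ₁, hP1, hP6, hC₁, hδ₁, hch⟩ := choose_sig (T + 1) K (by omega)
  obtain ⟨Q, hQ⟩ : ∃ Q : ℕ, Q = 2 ^ (K + 1) * P := ⟨_, rfl⟩
  have hQ1 : 1 ≤ Q := by rw [hQ]; exact Nat.mul_pos (by positivity) hP1
  have hQ0 : (0 : ℝ) < Q := by exact_mod_cast hQ1
  have hP0 : (0 : ℝ) < P := by exact_mod_cast hP1
  refine ⟨T, 2 * T + 1 + Q * C₁ + 6, δ₁ / (((T : ℝ) + 1) * ((2 * Q) ^ 3 * (2 * P))), by positivity, ?_⟩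
  intro W hW H hH M hM1 hMW
  have hWQ : Q * C₁ ≤ W := by omega
  have hWQ1 : Q ≤ W := (Nat.le_mul_of_pos_right _ hC₁).trans hWQ
  have hW1 : 1 ≤ W := by omega
  have hW0 : (0 : ℝ) < W := by exact_mod_cast hW1
  obtain ⟨Y₁, hY₁⟩ : ∃ Y₁ : ℕ, Y₁ = W / Q := ⟨_, rfl⟩
  obtain ⟨U₁, hU₁⟩ : ∃ U₁ : ℕ, U₁ = H / (W * P) := ⟨_, rfl⟩
  have hYC : C₁ ≤ Y₁ := by
    rw [hY₁, Nat.le_div_iff_mul_le hQ1, mul_comm]
    exact hWQ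
  have hY1 : 1 ≤ Y₁ := hC₁.trans hYC
  have hPQ : P ≤ Q := by rw [hQ]; exact Nat.le_mul_of_pos_left _ (by positivity)
  have hYU : Y₁ ≤ U₁ := by
    rw [hY₁, hU₁, ← Nat.div_div_eq_div_mul]
    have h1 : W ≤ H / W := by
      rw [Nat.le_div_iff_mul_le hW1, ← pow_two]
      exact hH
    calc W / Q ≤ W / P := Nat.div_le_div_left hPQ hP1
      _ ≤ H / W / P := Nat.div_le_div_right h1
  have hsm : ∀ y, y < Y₁ + Y₁ → (1 + P * y) * 2 ^ K ≤ W := by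
    intro y hy
    have h1 : 1 + P * y ≤ 2 * (P * Y₁) := by
      have h2 : P * y ≤ P * (2 * Y₁ - 1) := Nat.mul_le_mul_left _ (by omega)
      have h3 : P * (2 * Y₁ - 1) + P * 1 = 2 * (P * Y₁) := by
        rw [← Nat.mul_add]
        have : 2 * Y₁ - 1 + 1 = 2 * Y₁ := by omega
        rw [this]
        ring
      omega
    calc (1 + P * y) * 2 ^ K ≤ (2 * (P * Y₁)) * 2 ^ K := Nat.mul_le_mul_right _ h1
      _ = Q * Y₁ := by rw [hQ]; ring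
      _ ≤ W := by rw [hY₁]; exact Nat.mul_div_le _ _
  have hsm2 : ∀ u, u < U₁ → W * (1 + P * u) ≤ H := by
    intro u hu
    have h1 : 1 + P * u ≤ P * U₁ := by
      have h2 : P * u ≤ P * (U₁ - 1) := Nat.mul_le_mul_left _ (by omega)
      have h3 : P * (U₁ - 1) + P * 1 = P * U₁ := by
        rw [← Nat.mul_add]
        congr 1
        omega
      omega
    calc W * (1 + P * u) ≤ W * (P * U₁) := Nat.mul_le_mul_left _ h1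
      _ = (W * P) * U₁ := by ring
      _ ≤ H := by rw [hU₁]; exact Nat.mul_div_le _ _
  -- the constants
  obtain ⟨ex, hex⟩ : ∃ ex : (Fin (T + 1) → ℕ × ℕ) → ℕ → ℕ × ℕ, ∀ g i (hi : i < T + 1), ex g i = g ⟨i, hi⟩ := by
    refine ⟨fun g i => if hi : i < T + 1 then g ⟨i, hi⟩ else (0, 0), fun g i hi => ?_⟩
    simp only [hi, dite_true]
  obtain ⟨Cond, hCond⟩ : ∃ Cond : (Fin (T + 1) → ℕ × ℕ) → Prop, Cond = fun g =>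
    (∀ i, Y₁ ≤ (g i).1 ∧ (g i).1 < Y₁ + Y₁ ∧ (g i).2 < U₁) ∧
      (∀ i, Nat.Coprime (1 + P * (g i).1) (1 + P * (g i).2)) ∧
      ∀ i j, i < j → Nat.Coprime (1 + P * (g i).1) (1 + P * (g j).1) := ⟨_, rfl⟩
  have hGam : ∀ g : Fin (T + 1) → ℕ × ℕ, ∃ Γ : ℕ, 1 ≤ Γ ∧ (Cond g → ∀ L X : ℕ → ℕ, Γ ≤ L 0 →
      (∀ i, 1 ≤ i → Γ * (L (i - 1) + X (i - 1)) ≤ L i) → ∀ Z : ℕ, Γ * (L T + X T) ≤ Z →
      ∃ i j k : ℕ, ∃ (hi : i < T + 1) (hj : j < T + 1), i < j ∧ k ≤ K ∧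
        (1 - ε) * (L j : ℝ) ≤ (((Ico (X j) (X j + L j)).filter (fun x : ℕ =>
          GoodZ B₀ (tr P (2 * R * (j - i)) k (g ⟨i, hi⟩) (g ⟨j, hj⟩)).1.1
            (tr P (2 * R * (j - i)) k (g ⟨i, hi⟩) (g ⟨j, hj⟩)).1.2
            ((tr P (2 * R * (j - i)) k (g ⟨i, hi⟩) (g ⟨j, hj⟩)).2 +
              (tr P (2 * R * (j - i)) k (g ⟨i, hi⟩) (g ⟨j, hj⟩)).1.1 *
              ((M : ℤ) ^ (2 * (T - j) + 1) * (x : ℤ))) Z)).card : ℝ)) := by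
    intro g
    by_cases hg : Cond g
    · have hg' := hg
      rw [hCond] at hg'
      obtain ⟨g1, g2, g3⟩ := hg'
      have D := da_tr T R P hP6 hP1 M W hM1 (by omega) hMW (ex g)
        (fun i hi => by rw [hex g i (by omega)]; exact hY1.trans (g1 _).1)
        (fun i hi => by rw [hex g i (by omega), ← hK]; exact hsm _ (g1 _).2.1)
        (fun i hi => by rw [hex g i (by omega)]; exact g2 _)
        (fun i j hij hj => by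
          rw [hex g i (by omega), hex g j (by omega)]
          exact g3 _ _ hij)
      obtain ⟨Γ, hΓ1, hΓ⟩ := hm M _ _ _ _ _ D
      refine ⟨Γ, hΓ1, fun _ L X hL0 hLX Z hZ => ?_⟩
      obtain ⟨i, j, v, w, hij, hj, hv, hw, h1⟩ := hΓ L X hL0 hLX Z hZ
      refine ⟨i, j, 2 * R * (j - i) + w - v, by omega, by omega, hij, ?_, ?_⟩
      · rw [hK]; exact expoK hij hj hv hw
      · rw [hex g i (by omega), hex g j (by omega)] at h1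
        exact h1
    · exact ⟨1, le_rfl, fun h => absurd h hg⟩
  choose Γf hΓf1 hΓf using hGam
  obtain ⟨F, hF⟩ : ∃ F : Finset (Fin (T + 1) → ℕ × ℕ), F =
    Fintype.piFinset (fun _ : Fin (T + 1) => Ico Y₁ (Y₁ + Y₁) ×ˢ range U₁) := ⟨_, rfl⟩
  refine ⟨1 + ∑ g ∈ F, Γf g, by omega, ?_⟩
  intro L X hL0 hLX Z hZ
  by_contra hcon
  push Not at hcon
  obtain ⟨S, hS⟩ : ∃ S : Finset ((ℕ × ℕ) × ℤ), S =
    (Icc 1 T).biUnion (fun j => PTJ B₀ (2 * (T - j) + 1) W H M (X j) (L j) Z ε) := ⟨_, rfl⟩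
  have hScard : (S.card : ℝ) ≤ δ₁ * ((Y₁ : ℝ) ^ 3 * U₁) := by
    have h1 : (S.card : ℝ) ≤ ∑ j ∈ Icc 1 T,
        ((PTJ B₀ (2 * (T - j) + 1) W H M (X j) (L j) Z ε).card : ℝ) := by
      rw [hS]
      exact_mod_cast card_biUnion_le
    have h2 : ∑ j ∈ Icc 1 T,
        ((PTJ B₀ (2 * (T - j) + 1) W H M (X j) (L j) Z ε).card : ℝ) ≤
        ∑ _j ∈ Icc 1 T, (δ₁ / (((T : ℝ) + 1) * ((2 * Q) ^ 3 * (2 * P))) * ((W : ℝ) ^ 2 * H)) :=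
      sum_le_sum fun j hj => (hcon j (mem_Icc.1 hj).1 (mem_Icc.1 hj).2).le
    rw [sum_const, Nat.card_Icc, Nat.add_sub_cancel, nsmul_eq_mul] at h2
    have h3 : (W : ℝ) / (2 * Q) ≤ Y₁ := by rw [hY₁]; exact half W Q hQ1 hWQ1
    have h4 : (H : ℝ) / (2 * ((W * P : ℕ) : ℝ)) ≤ U₁ := by
      rw [hU₁]
      refine half H (W * P) (Nat.mul_pos hW1 hP1) ?_
      refine le_trans ?_ hH
      rw [pow_two]
      exact Nat.mul_le_mul_left _ (hPQ.trans hWQ1)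
    refine h1.trans (h2.trans ?_)
    have h2' : ((T : ℕ) : ℝ) * (δ₁ / (((T : ℝ) + 1) * ((2 * Q) ^ 3 * (2 * P))) * ((W : ℝ) ^ 2 * H)) ≤
        ((T + 1 : ℕ) : ℝ) * (δ₁ / (((T : ℝ) + 1) * ((2 * Q) ^ 3 * (2 * P))) * ((W : ℝ) ^ 2 * H)) := by
      apply mul_le_mul_of_nonneg_right _ (by positivity)
      exact_mod_cast Nat.le_succ T
    refine h2'.trans ?_
    have h5 : ((T + 1 : ℕ) : ℝ) * (δ₁ / (((T : ℝ) + 1) * ((2 * Q) ^ 3 * (2 * P))) * ((W : ℝ) ^ 2 * H)) =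
        δ₁ * (((W : ℝ) / (2 * Q)) ^ 3 * ((H : ℝ) / (2 * ((W * P : ℕ) : ℝ)))) := by
      push_cast
      field_simp
    rw [h5]
    gcongr
  obtain ⟨g, g1, g2, g3⟩ := hch Y₁ U₁ hYC hYU S hScard
  have hCg : Cond g := by
    rw [hCond]
    exact ⟨g1, g2, fun i j hij => (g3 i j hij).1⟩
  have hgF : g ∈ F := by
    rw [hF, Fintype.mem_piFinset]
    intro i
    rw [mem_product, mem_Ico, mem_range]
    exact ⟨⟨(g1 i).1, (g1 i).2.1⟩, (g1 i).2.2⟩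
  have hΓle : Γf g ≤ 1 + ∑ g ∈ F, Γf g := by
    have := single_le_sum (f := Γf) (fun _ _ => Nat.zero_le _) hgF
    omega
  obtain ⟨i, j, k, hi, hj, hij, hk, h1⟩ := hΓf g hCg L X (hΓle.trans hL0)
    (fun i hi => (Nat.mul_le_mul_right _ hΓle).trans (hLX i hi)) Z
    ((Nat.mul_le_mul_right _ hΓle).trans hZ)
  have hDK : 2 * R * (j - i) ≤ K := by rw [hK]; exact Nat.mul_le_mul_left _ (by omega)
  have hnot := (g3 ⟨i, hi⟩ ⟨j, hj⟩ (by rw [Fin.lt_def]; exact hij)).2 (2 * R * (j - i)) k hDK hk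
  apply hnot
  rw [hS, mem_biUnion]
  refine ⟨j, mem_Icc.2 ⟨by omega, by omega⟩, ?_⟩
  unfold PTJ
  rw [mem_filter, mem_product, mem_product, mem_Icc, mem_Icc, mem_Icc]
  have hA : (1 + P * (g ⟨i, hi⟩).1) * 2 ^ (2 * R * (j - i) - k) ≤ W :=
    le_trans (Nat.mul_le_mul_left _ (Nat.pow_le_pow_right (by norm_num) (by omega)))
      (hsm _ (g1 ⟨i, hi⟩).2.1)
  have hB : (1 + P * (g ⟨j, hj⟩).1) * 2 ^ (k - 2 * R * (j - i)) ≤ W :=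
    le_trans (Nat.mul_le_mul_left _ (Nat.pow_le_pow_right (by norm_num) (by omega)))
      (hsm _ (g1 ⟨j, hj⟩).2.1)
  have hA1 : 1 ≤ (1 + P * (g ⟨i, hi⟩).1) * 2 ^ (2 * R * (j - i) - k) :=
    Nat.mul_pos (by omega) (by positivity)
  have hB1 : 1 ≤ (1 + P * (g ⟨j, hj⟩).1) * 2 ^ (k - 2 * R * (j - i)) :=
    Nat.mul_pos (by omega) (by positivity)
  have hAh : (1 + P * (g ⟨i, hi⟩).1) * 2 ^ (2 * R * (j - i) - k) * (1 + P * (g ⟨j, hj⟩).2) ≤ H :=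
    (Nat.mul_le_mul_right _ hA).trans (hsm2 _ (g1 ⟨j, hj⟩).2.2)
  have hBh : (1 + P * (g ⟨j, hj⟩).1) * 2 ^ (k - 2 * R * (j - i)) * (1 + P * (g ⟨i, hi⟩).2) ≤ H :=
    (Nat.mul_le_mul_right _ hB).trans (hsm2 _ (g1 ⟨i, hi⟩).2.2)
  refine ⟨⟨⟨⟨hA1, hA⟩, hB1, hB⟩, ?_⟩, h1⟩
  unfold tr
  simp only
  have e1 : (((1 + P * (g ⟨i, hi⟩).1) * 2 ^ (2 * R * (j - i) - k) * (1 + P * (g ⟨j, hj⟩).2) : ℕ) : ℤ) ≤ H := by
    exact_mod_cast hAh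
  have e2 : (((1 + P * (g ⟨j, hj⟩).1) * 2 ^ (k - 2 * R * (j - i)) * (1 + P * (g ⟨i, hi⟩).2) : ℕ) : ℤ) ≤ H := by
    exact_mod_cast hBh
  rw [Nat.cast_mul] at e1 e2
  have e3 : (0 : ℤ) ≤ (((1 + P * (g ⟨i, hi⟩).1) * 2 ^ (2 * R * (j - i) - k) : ℕ) : ℤ) *
      ((1 + P * (g ⟨j, hj⟩).2 : ℕ) : ℤ) := by positivity
  have e4 : (0 : ℤ) ≤ (((1 + P * (g ⟨j, hj⟩).1) * 2 ^ (k - 2 * R * (j - i)) : ℕ) : ℤ) *
      ((1 + P * (g ⟨i, hi⟩).2 : ℕ) : ℤ) := by positivity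
  constructor <;> linarith

open Classical in
/-- **a positive proportion of all triples, for long intervals, with one exponent** -/
theorem triples_simple_j : ∃ B₀ : ℕ, ∀ ε : ℝ, 0 < ε → ∃ (C : ℕ) (δ : ℝ), 0 < δ ∧
    ∀ W : ℕ, C ≤ W → ∀ H : ℕ, W ^ 2 ≤ H → ∀ M : ℕ, 1 ≤ M → (∀ m : ℕ, 1 ≤ m → m ≤ W → m ∣ M) →
    ∃ α : ℕ, 1 ≤ α ∧ α ≤ C ∧ ∃ Y₀ : ℕ, ∀ Y : ℕ, Y₀ ≤ Y → ∀ X : ℕ,
      δ * ((W : ℝ) ^ 2 * H) ≤ ((((Icc 1 W ×ˢ Icc 1 W) ×ˢ Icc (-(H : ℤ)) H).filter (fun t =>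
        Lg ε X Y (fun x Z =>
          GoodZ B₀ t.1.1 t.1.2 (t.2 + t.1.1 * ((M : ℤ) ^ α * (x : ℤ))) Z))).card : ℝ) := by
  obtain ⟨B₀, hmain⟩ := triples_j
  refine ⟨B₀, fun ε hε => ?_⟩
  obtain ⟨ε', hε'0, hε'1, hε'⟩ : ∃ ε' : ℝ, 0 < ε' ∧ ε' ≤ 1 ∧ ε' ≤ ε :=
    ⟨min ε 1, by positivity, min_le_right _ _, min_le_left _ _⟩
  obtain ⟨T, C, δ, hδ, hm⟩ := hmain ε' hε'0 hε'1
  refine ⟨C + (2 * T + 1), δ, hδ, fun W hW H hH M hM1 hMW => ?_⟩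
  obtain ⟨Γ, _, hΓ⟩ := hm W (by omega) H hH M hM1 hMW
  by_contra hcon
  push Not at hcon
  have hcon' : ∀ j Y₀ : ℕ, ∃ Y, Y₀ ≤ Y ∧ ∃ X, (1 ≤ j → j ≤ T →
      ((((Icc 1 W ×ˢ Icc 1 W) ×ˢ Icc (-(H : ℤ)) H).filter (fun t => Lg ε X Y (fun x Z =>
          GoodZ B₀ t.1.1 t.1.2 (t.2 + t.1.1 * ((M : ℤ) ^ (2 * (T - j) + 1) * (x : ℤ))) Z))).card : ℝ) <
        δ * ((W : ℝ) ^ 2 * H)) := by
    intro j Y₀
    by_cases hj : 1 ≤ j ∧ j ≤ T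
    · obtain ⟨Y, hY, X, hX⟩ := hcon (2 * (T - j) + 1) (by omega) (by omega) Y₀
      exact ⟨Y, hY, X, fun _ _ => hX⟩
    · exact ⟨Y₀, le_rfl, 0, fun h1 h2 => absurd ⟨h1, h2⟩ hj⟩
  obtain ⟨L, X, hL0, hLX, hbad⟩ := chain_j _ Γ hcon'
  have h1 : ∀ q ∈ range (T + 1) ×ˢ ((Icc 1 W ×ˢ Icc 1 W) ×ˢ Icc (-(H : ℤ)) H),
      ∀ᶠ Z : ℕ in atTop, (¬ Lg ε (X q.1) (L q.1) (fun x Z =>
          GoodZ B₀ q.2.1.1 q.2.1.2 (q.2.2 + q.2.1.1 * ((M : ℤ) ^ (2 * (T - q.1) + 1) * (x : ℤ))) Z) →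
        ¬ ((1 - ε') * (L q.1 : ℝ) ≤ (((Ico (X q.1) (X q.1 + L q.1)).filter (fun x : ℕ =>
          GoodZ B₀ q.2.1.1 q.2.1.2
            (q.2.2 + q.2.1.1 * ((M : ℤ) ^ (2 * (T - q.1) + 1) * (x : ℤ))) Z)).card : ℝ))) := by
    intro q _
    by_cases hq : ¬ Lg ε (X q.1) (L q.1) (fun x Z =>
          GoodZ B₀ q.2.1.1 q.2.1.2 (q.2.2 + q.2.1.1 * ((M : ℤ) ^ (2 * (T - q.1) + 1) * (x : ℤ))) Z)
    · filter_upwards [not_lg _ _ _ _ hq] with Z hZ _ hcon2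
      apply hZ
      refine le_trans ?_ hcon2
      exact mul_le_mul_of_nonneg_right (by linarith) (Nat.cast_nonneg _)
    · exact Eventually.of_forall fun Z h => absurd h hq
  have h2 := (Filter.eventually_all_finset _).2 h1
  obtain ⟨Z, hZ1, hZ2⟩ := (h2.and (eventually_ge_atTop (Γ * (L T + X T)))).exists
  obtain ⟨j, hj1, hj, h3⟩ := hΓ L X hL0 hLX Z hZ2
  have h4 := hbad j hj1 hj
  refine absurd (h3.trans ?_) (not_le.2 h4)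
  rw [Nat.cast_le]
  refine card_le_card fun t ht => ?_
  unfold PTJ at ht
  rw [mem_filter] at ht ⊢
  obtain ⟨ht1, h5⟩ := ht
  refine ⟨ht1, ?_⟩
  by_contra h6
  exact hZ1 (j, t) (by
    rw [mem_product, mem_range]
    exact ⟨show j < T + 1 by omega, ht1⟩) h6 h5

end Pool.Agent.U570.AH
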