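import Pool.Agent.U570.AF.Samp

/-! A tuple all of whose pairs avoid a sparse set. -/

set_option autoImplicit false

namespace Pool.Agent.U570.AH

open Finset Pool.Agent.U570.AF

open Classical in
theorem avoid {α : Type} (Ω : Finset α) (n : ℕ) (Z : α → α → Prop) (hΩ : 0 < Ω.card)
    (h : (n : ℝ) ^ 2 * (((Ω ×ˢ Ω).filter (fun x => Z x.1 x.2)).card : ℝ) < (Ω.card : ℝ) ^ 2) :
    ∃ f : Fin n → α, (∀ i, f i ∈ Ω) ∧ ∀ i j, i < j → ¬ Z (f i) (f j) := by
  by_contra hcon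
  push Not at hcon
  have hΩ0 : (0 : ℝ) < Ω.card := by exact_mod_cast hΩ
  obtain ⟨ζ, hζ⟩ : ∃ ζ : ℝ, ζ = (((Ω ×ˢ Ω).filter (fun x => Z x.1 x.2)).card : ℝ) / (Ω.card : ℝ) ^ 2 :=
    ⟨_, rfl⟩
  have hζ0 : 0 ≤ ζ := by rw [hζ]; positivity
  have hζ1 : (n : ℝ) ^ 2 * ζ < 1 := by
    rw [hζ, ← mul_div_assoc, div_lt_one (by positivity)]
    exact h
  obtain ⟨Q, hQ⟩ : ∃ Q : α → α → Prop, ∀ x y, ¬ Z x y ↔ Q x y := ⟨fun x y => ¬ Z x y, fun _ _ => Iff.rfl⟩
  have hsplit' : (((Ω ×ˢ Ω).filter (fun x => Z x.1 x.2)).card : ℝ) +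
      (((Ω ×ˢ Ω).filter (fun x => Q x.1 x.2)).card : ℝ) = (Ω.card : ℝ) * Ω.card := by
    have e : ((Ω ×ˢ Ω).filter (fun x => Q x.1 x.2)) = (Ω ×ˢ Ω).filter (fun x => ¬ Z x.1 x.2) :=
      filter_congr fun x _ => (hQ x.1 x.2).symm
    rw [e]
    have h1 := Finset.card_filter_add_card_filter_not (s := Ω ×ˢ Ω) (fun x => Z x.1 x.2)
    rw [card_product] at h1
    exact_mod_cast h1
  have hpair : ∀ i j : Fin n, i < j →
      (((Fintype.piFinset (fun _ : Fin n => Ω)).filter (fun v => Z (v i) (v j))).card : ℝ) ≤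
        ζ * (Ω.card : ℝ) ^ n := by
    intro i j hij
    have h1 := marg2 (fun _ : Fin n => Ω) (fun _ => hΩ) i j hij.ne Q (1 - ζ) (by
      have h2 : ζ * ((Ω.card : ℝ) * Ω.card) = (((Ω ×ˢ Ω).filter (fun x => Z x.1 x.2)).card : ℝ) := by
        rw [hζ]
        field_simp
      linarith)
    have h3 : (((Fintype.piFinset (fun _ : Fin n => Ω)).filter (fun v => Z (v i) (v j))).card : ℝ) +
        (((Fintype.piFinset (fun _ : Fin n => Ω)).filter (fun v => Q (v i) (v j))).card : ℝ) =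
        ∏ _i : Fin n, (Ω.card : ℝ) := by
      have e : ((Fintype.piFinset (fun _ : Fin n => Ω)).filter (fun v => Q (v i) (v j))) =
          (Fintype.piFinset (fun _ : Fin n => Ω)).filter (fun v => ¬ Z (v i) (v j)) :=
        filter_congr fun v _ => (hQ (v i) (v j)).symm
      rw [e]
      have h2 := Finset.card_filter_add_card_filter_not (s := Fintype.piFinset (fun _ : Fin n => Ω))
        (fun v => Z (v i) (v j))
      rw [Fintype.card_piFinset] at h2
      exact_mod_cast h2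
    have h4 : ∏ _i : Fin n, (Ω.card : ℝ) = (Ω.card : ℝ) ^ n := by simp
    rw [h4] at h3 h1
    linarith
  have hcover : Fintype.piFinset (fun _ : Fin n => Ω) ⊆
      ((univ : Finset (Fin n × Fin n)).filter (fun x => x.1 < x.2)).biUnion
        (fun x => (Fintype.piFinset (fun _ : Fin n => Ω)).filter (fun v => Z (v x.1) (v x.2))) := by
    intro v hv
    obtain ⟨i, j, hij, hZ⟩ := hcon v (fun i => Fintype.mem_piFinset.1 hv i)
    rw [mem_biUnion]
    exact ⟨(i, j), mem_filter.2 ⟨mem_univ _, hij⟩, mem_filter.2 ⟨hv, hZ⟩⟩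
  have h1 := (card_le_card hcover).trans card_biUnion_le
  rw [Fintype.card_piFinset] at h1
  have h2 : (Ω.card : ℝ) ^ n ≤ ∑ x ∈ (univ : Finset (Fin n × Fin n)).filter (fun x => x.1 < x.2),
      (((Fintype.piFinset (fun _ : Fin n => Ω)).filter (fun v => Z (v x.1) (v x.2))).card : ℝ) := by
    have h3 : ∏ _i : Fin n, Ω.card = Ω.card ^ n := by simp
    rw [h3] at h1
    exact_mod_cast h1
  have h3 : ∑ x ∈ (univ : Finset (Fin n × Fin n)).filter (fun x => x.1 < x.2),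
      (((Fintype.piFinset (fun _ : Fin n => Ω)).filter (fun v => Z (v x.1) (v x.2))).card : ℝ) ≤
      ∑ _x : Fin n × Fin n, ζ * (Ω.card : ℝ) ^ n := by
    refine (sum_le_sum fun x hx => hpair x.1 x.2 (mem_filter.1 hx).2).trans ?_
    exact sum_le_sum_of_subset_of_nonneg (filter_subset _ _) fun _ _ _ => by positivity
  rw [sum_const, card_univ, Fintype.card_prod, Fintype.card_fin, nsmul_eq_mul] at h3
  push_cast at h3
  have h4 : (0 : ℝ) < (Ω.card : ℝ) ^ n := by positivity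
  have h5 : (n : ℝ) * n * (ζ * (Ω.card : ℝ) ^ n) = ((n : ℝ) ^ 2 * ζ) * (Ω.card : ℝ) ^ n := by ring
  rw [h5] at h3
  have h6 : ((n : ℝ) ^ 2 * ζ) * (Ω.card : ℝ) ^ n < 1 * (Ω.card : ℝ) ^ n := mul_lt_mul_of_pos_right hζ1 h4
  linarith

/-- elements of an interval in a residue class -/
theorem cnt_dvd (P d a n : ℕ) (hd : 1 ≤ d) (hcop : Nat.Coprime d P) :
    ((Ico a (a + n)).filter (fun y => d ∣ 1 + P * y)).card ≤ n / d + 1 := by
  have h := card_le_card_of_injOn (s := (Ico a (a + n)).filter (fun y => d ∣ 1 + P * y))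
    (t := range (n / d + 1)) (fun y => (y - a) / d) ?_ ?_
  · rwa [card_range] at h
  · intro y hy
    rw [mem_coe, mem_filter, mem_Ico] at hy
    rw [mem_coe, mem_range]
    have : (y - a) / d ≤ n / d := Nat.div_le_div_right (by omega)
    beta_reduce
    omega
  · intro y hy y' hy' hyy
    rw [mem_coe, mem_filter, mem_Ico] at hy hy'
    simp only at hyy
    have key : ∀ y y' : ℕ, a ≤ y → y ≤ y' → (y - a) / d = (y' - a) / d → d ∣ 1 + P * y → d ∣ 1 + P * y' →
        y = y' := by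
      intro y y' h1 h2 h3 h4 h5
      have h6 : d ∣ P * (y' - y) := by
        have := (Nat.dvd_sub h5 h4)
        have e : 1 + P * y' - (1 + P * y) = P * (y' - y) := by
          rw [Nat.mul_sub]; omega
        rwa [e] at this
      have h7 : d ∣ y' - y := hcop.dvd_of_dvd_mul_left h6
      have h8 : y' - y < d := by
        have e1 := Nat.div_add_mod (y - a) d
        have e2 := Nat.div_add_mod (y' - a) d
        have e3 := Nat.mod_lt (y' - a) hd
        rw [← h3] at e2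
        omega
      have h9 := Nat.eq_zero_of_dvd_of_lt h7 h8
      omega
    rcases le_total y y' with h1 | h1
    · exact key y y' hy.1.1 h1 hyy hy.2 hy'.2
    · exact (key y' y hy'.1.1 h1 hyy.symm hy'.2 hy.2).symm

open Classical in
/-- few pairs are not coprime -/
theorem copr (P z a n a' n' : ℕ) (hz : 1 ≤ z) (hP : ∀ p : ℕ, p.Prime → p ≤ z → p ∣ P) (hP1 : 1 ≤ P)
    (han : a ≤ n) (hn : 1 ≤ n) (hnn : n ≤ n') :
    (((Ico a (a + n) ×ˢ Ico a' (a' + n')).filter (fun y => ¬ Nat.Coprime (1 + P * y.1) (1 + P * y.2))).card : ℝ) ≤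
      (n : ℝ) * n' * (4 / z + 6 * P / n) := by
  have hn0 : (0 : ℝ) < n := by exact_mod_cast hn
  have hn1 : (1 : ℝ) ≤ n := by exact_mod_cast hn
  have hz0 : (0 : ℝ) < z := by exact_mod_cast hz
  have hnn' : (n : ℝ) ≤ n' := by exact_mod_cast hnn
  have hn'0 : (0 : ℝ) < n' := by linarith
  obtain ⟨D₁, hD₁⟩ : ∃ D₁ : ℕ, D₁ = 3 * P * n := ⟨_, rfl⟩
  have hcover : (Ico a (a + n) ×ˢ Ico a' (a' + n')).filter
        (fun y => ¬ Nat.Coprime (1 + P * y.1) (1 + P * y.2)) ⊆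
      ((Ioc z D₁).filter (fun d => Nat.Coprime d P)).biUnion (fun d =>
        ((Ico a (a + n)).filter (fun y => d ∣ 1 + P * y)) ×ˢ
          ((Ico a' (a' + n')).filter (fun y => d ∣ 1 + P * y))) := by
    intro y hy
    rw [mem_filter, mem_product] at hy
    obtain ⟨⟨hy1, hy2⟩, hy3⟩ := hy
    obtain ⟨p, hp, hp1, hp2⟩ := Nat.Prime.not_coprime_iff_dvd.1 hy3
    have hpP : Nat.Coprime p P := by
      rw [Nat.Prime.coprime_iff_not_dvd hp]
      intro h1
      have h2 : p ∣ 1 := by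
        have := (Nat.dvd_sub hp1 (Dvd.dvd.mul_right h1 y.1))
        rwa [Nat.add_sub_cancel] at this
      exact hp.one_lt.ne' (Nat.dvd_one.1 h2)
    have hpz : z < p := by
      by_contra hcon
      have h1 := hP p hp (not_lt.1 hcon)
      rw [Nat.Prime.coprime_iff_not_dvd hp] at hpP
      exact hpP h1
    have hpD : p ≤ D₁ := by
      refine (Nat.le_of_dvd (by omega) hp1).trans ?_
      rw [mem_Ico] at hy1
      have h1 : P * y.1 ≤ P * (2 * n - 1) := Nat.mul_le_mul_left _ (by omega)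
      have h2 : P * (2 * n - 1) + 1 * 1 ≤ P * (2 * n - 1) + P * n :=
        Nat.add_le_add_left (Nat.mul_le_mul hP1 hn) _
      have h3 : P * (2 * n - 1) + P * n ≤ 3 * P * n := by
        have : 2 * n - 1 ≤ 2 * n := Nat.sub_le _ _
        have h4 := Nat.mul_le_mul_left P this
        nlinarith
      rw [hD₁]
      omega
    rw [mem_biUnion]
    exact ⟨p, mem_filter.2 ⟨mem_Ioc.2 ⟨hpz, hpD⟩, hpP⟩,
      mem_product.2 ⟨mem_filter.2 ⟨hy1, hp1⟩, mem_filter.2 ⟨hy2, hp2⟩⟩⟩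
  have h1 := (card_le_card hcover).trans card_biUnion_le
  have h2 : (((Ico a (a + n) ×ˢ Ico a' (a' + n')).filter
      (fun y => ¬ Nat.Coprime (1 + P * y.1) (1 + P * y.2))).card : ℝ) ≤
      ∑ d ∈ (Ioc z D₁).filter (fun d => Nat.Coprime d P), (4 * n * n' * (((d : ℝ) ^ 2)⁻¹) + 2 * n' / n) := by
    refine le_trans (Nat.cast_le.2 h1) ?_
    rw [Nat.cast_sum]
    refine sum_le_sum fun d hd => ?_
    rw [mem_filter, mem_Ioc] at hd
    have hd1 : 1 ≤ d := by omega
    have hd0 : (0 : ℝ) < d := by exact_mod_cast hd1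
    have c1 := cnt_dvd P d a n hd1 hd.2
    have c2 := cnt_dvd P d a' n' hd1 hd.2
    rw [card_product]
    have e1 : ((n / d : ℕ) : ℝ) ≤ (n : ℝ) / d := Nat.cast_div_le
    have e2 : ((n' / d : ℕ) : ℝ) ≤ (n' : ℝ) / d := Nat.cast_div_le
    have c3 : ((((Ico a (a + n)).filter (fun y => d ∣ 1 + P * y)).card *
        ((Ico a' (a' + n')).filter (fun y => d ∣ 1 + P * y)).card : ℕ) : ℝ) ≤
        ((n / d + 1 : ℕ) : ℝ) * ((n' / d + 1 : ℕ) : ℝ) := by
      exact_mod_cast Nat.mul_le_mul c1 c2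
    refine c3.trans ?_
    by_cases hdn : d ≤ n
    · have f1 : ((n / d + 1 : ℕ) : ℝ) ≤ 2 * n / d := by
        push_cast
        have : (1 : ℝ) ≤ (n : ℝ) / d := by
          rw [le_div_iff₀ hd0, one_mul]
          exact_mod_cast hdn
        have e3 : 2 * (n : ℝ) / d = (n : ℝ) / d + (n : ℝ) / d := by ring
        rw [e3]
        linarith
      have f2 : ((n' / d + 1 : ℕ) : ℝ) ≤ 2 * n' / d := by
        push_cast
        have : (1 : ℝ) ≤ (n' : ℝ) / d := by
          rw [le_div_iff₀ hd0, one_mul]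
          exact_mod_cast hdn.trans hnn
        have e3 : 2 * (n' : ℝ) / d = (n' : ℝ) / d + (n' : ℝ) / d := by ring
        rw [e3]
        linarith
      calc ((n / d + 1 : ℕ) : ℝ) * ((n' / d + 1 : ℕ) : ℝ) ≤ (2 * n / d) * (2 * n' / d) :=
            mul_le_mul f1 f2 (Nat.cast_nonneg _) (by positivity)
        _ = 4 * n * n' * (((d : ℝ) ^ 2)⁻¹) := by field_simp; ring
        _ ≤ _ := le_add_of_nonneg_right (by positivity)
    · have hdn' : n < d := not_le.1 hdn
      have f1 : n / d = 0 := Nat.div_eq_of_lt hdn'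
      have f2 : ((n' / d + 1 : ℕ) : ℝ) ≤ 2 * n' / n := by
        push_cast
        have g1 : (n' : ℝ) / d ≤ (n' : ℝ) / n := by
          apply div_le_div_of_nonneg_left hn'0.le hn0
          exact_mod_cast hdn'.le
        have g2 : (1 : ℝ) ≤ (n' : ℝ) / n := by
          rw [le_div_iff₀ hn0, one_mul]
          exact hnn'
        have e3 : 2 * (n' : ℝ) / n = (n' : ℝ) / n + (n' : ℝ) / n := by ring
        rw [e3]
        linarith
      rw [f1]
      calc ((0 + 1 : ℕ) : ℝ) * ((n' / d + 1 : ℕ) : ℝ) = ((n' / d + 1 : ℕ) : ℝ) := by norm_num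
        _ ≤ 2 * n' / n := f2
        _ ≤ _ := le_add_of_nonneg_left (by positivity)
  refine h2.trans ?_
  have h3 : ∑ d ∈ (Ioc z D₁).filter (fun d => Nat.Coprime d P),
      (4 * (n : ℝ) * n' * (((d : ℝ) ^ 2)⁻¹) + 2 * n' / n) ≤
      ∑ d ∈ Ioc z D₁, (4 * (n : ℝ) * n' * (((d : ℝ) ^ 2)⁻¹) + 2 * n' / n) :=
    sum_le_sum_of_subset_of_nonneg (filter_subset _ _) fun _ _ _ => by positivity
  refine h3.trans ?_
  rw [sum_add_distrib, ← mul_sum, sum_const, Nat.card_Ioc, nsmul_eq_mul]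
  have h4 : ∑ d ∈ Ioc z D₁, (((d : ℝ) ^ 2)⁻¹) ≤ 1 / z := by
    rcases le_or_gt z D₁ with h5 | h5
    · have h6 := sum_Ioc_inv_sq_le_sub (α := ℝ) (by omega : z ≠ 0) h5
      have h7 : (0 : ℝ) ≤ (D₁ : ℝ)⁻¹ := by positivity
      rw [one_div]
      linarith
    · rw [Ioc_eq_empty (by omega), sum_empty]
      positivity
  have h5 : (((D₁ - z : ℕ)) : ℝ) ≤ 3 * P * n := by
    have : D₁ - z ≤ 3 * P * n := by rw [hD₁]; exact Nat.sub_le _ _
    exact_mod_cast this
  calc 4 * (n : ℝ) * n' * ∑ d ∈ Ioc z D₁, (((d : ℝ) ^ 2)⁻¹) + ((D₁ - z : ℕ) : ℝ) * (2 * n' / n) ≤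
      4 * n * n' * (1 / z) + (3 * P * n) * (2 * n' / n) := by
        refine add_le_add (mul_le_mul_of_nonneg_left h4 (by positivity)) ?_
        exact mul_le_mul_of_nonneg_right h5 (by positivity)
    _ = _ := by field_simp; ring

end Pool.Agent.U570.AH
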