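import Pool.Agent.U570.AH.Avoid

/-! A choice of vertices all of whose triples avoid a sparse set. -/

set_option autoImplicit false

namespace Pool.Agent.U570.AH

open Finset Pool.Agent.U570.AF

/-- the triple of two vertices -/
def tr (P D k : ℕ) (x y : ℕ × ℕ) : (ℕ × ℕ) × ℤ :=
  (((1 + P * x.1) * 2 ^ (D - k), (1 + P * y.1) * 2 ^ (k - D)),
    (((1 + P * x.1) * 2 ^ (D - k) : ℕ) : ℤ) * ((1 + P * y.2 : ℕ) : ℤ) -
      (((1 + P * y.1) * 2 ^ (k - D) : ℕ) : ℤ) * ((1 + P * x.2 : ℕ) : ℤ))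

theorem odd_of {P : ℕ} (hP : 2 ∣ P) (y : ℕ) : Odd (1 + P * y) := by
  obtain ⟨q, rfl⟩ := hP
  exact ⟨q * y, by ring⟩

theorem cop2 (a b D k : ℕ) (h : Nat.Coprime a b) (ha : Odd a) (hb : Odd b) :
    Nat.Coprime (a * 2 ^ (D - k)) (b * 2 ^ (k - D)) := by
  rcases le_total D k with h1 | h1
  · have e : D - k = 0 := by omega
    rw [e, pow_zero, mul_one]
    refine Nat.Coprime.mul_right h ?_
    exact Nat.Coprime.pow_right _ (Nat.coprime_two_right.2 ha)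
  · have e : k - D = 0 := by omega
    rw [e, pow_zero, mul_one]
    refine Nat.Coprime.mul_left h ?_
    exact Nat.Coprime.pow_left _ (Nat.coprime_two_left.2 hb)

theorem fib (P Y₁ U₁ D k : ℕ) (hP : 2 ∣ P) (hP1 : 1 ≤ P) (τ : (ℕ × ℕ) × ℤ) :
    ((((Ico Y₁ (Y₁ + Y₁) ×ˢ Ico 0 (0 + U₁)) ×ˢ (Ico Y₁ (Y₁ + Y₁) ×ˢ Ico 0 (0 + U₁))).filter
      (fun z => Nat.Coprime (1 + P * z.1.1) (1 + P * z.2.1))).filter
        (fun z => tr P D k z.1 z.2 = τ)).card ≤ U₁ / Y₁ + 1 := by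
  have h := card_le_card_of_injOn (s := (((Ico Y₁ (Y₁ + Y₁) ×ˢ Ico 0 (0 + U₁)) ×ˢ
      (Ico Y₁ (Y₁ + Y₁) ×ˢ Ico 0 (0 + U₁))).filter
      (fun z => Nat.Coprime (1 + P * z.1.1) (1 + P * z.2.1))).filter
        (fun z => tr P D k z.1 z.2 = τ))
    (t := range (U₁ / Y₁ + 1)) (fun z => z.1.2 / τ.1.1) ?_ ?_
  · rwa [card_range] at h
  · intro z hz
    rw [mem_coe, mem_filter, mem_filter, mem_product, mem_product, mem_product, mem_Ico, mem_Ico, mem_Ico,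
      mem_Ico] at hz
    obtain ⟨⟨⟨⟨h1, h2⟩, h3, h4⟩, h5⟩, h6⟩ := hz
    rw [mem_coe, mem_range]
    beta_reduce
    have h7 : τ.1.1 = (1 + P * z.1.1) * 2 ^ (D - k) := by rw [← h6]; rfl
    have h8 : Y₁ ≤ τ.1.1 := by
      rw [h7]
      calc Y₁ ≤ z.1.1 := h1.1
        _ ≤ P * z.1.1 := Nat.le_mul_of_pos_left _ hP1
        _ ≤ 1 + P * z.1.1 := by omega
        _ ≤ _ := Nat.le_mul_of_pos_right _ (by positivity)
    rcases Nat.eq_zero_or_pos Y₁ with h0 | h0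
    · omega
    · have h9 : z.1.2 / τ.1.1 ≤ U₁ / Y₁ := by
        calc z.1.2 / τ.1.1 ≤ U₁ / τ.1.1 := Nat.div_le_div_right (by omega)
          _ ≤ U₁ / Y₁ := Nat.div_le_div_left h8 h0
      omega
  · rintro ⟨⟨x1, x2⟩, ⟨y1, y2⟩⟩ hz ⟨⟨x1', x2'⟩, ⟨y1', y2'⟩⟩ hz' hzz
    rw [mem_coe, mem_filter, mem_filter] at hz hz'
    simp only at hz hz' hzz
    have h6 := hz.2.trans hz'.2.symm
    have hτ := hz.2
    have hcop := hz.1.2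
    unfold tr at h6 hτ
    simp only [Prod.mk.injEq] at h6
    obtain ⟨⟨e1, e2⟩, e3⟩ := h6
    have k1 : 1 + P * x1 = 1 + P * x1' := Nat.eq_of_mul_eq_mul_right (by positivity) e1
    have k2 : 1 + P * y1 = 1 + P * y1' := Nat.eq_of_mul_eq_mul_right (by positivity) e2
    have k3 : x1 = x1' := Nat.eq_of_mul_eq_mul_left hP1 (by omega)
    have k4 : y1 = y1' := Nat.eq_of_mul_eq_mul_left hP1 (by omega)
    subst k3 k4
    obtain ⟨a, ha⟩ : ∃ a : ℕ, a = (1 + P * x1) * 2 ^ (D - k) := ⟨_, rfl⟩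
    obtain ⟨b, hb⟩ : ∃ b : ℕ, b = (1 + P * y1) * 2 ^ (k - D) := ⟨_, rfl⟩
    rw [← ha, ← hb] at e3
    have hτa : τ.1.1 = a := by rw [← hτ, ha]
    rw [hτa] at hzz
    have hab : Nat.Coprime a b := by
      rw [ha, hb]
      exact cop2 _ _ D k hcop (odd_of hP _) (odd_of hP _)
    have habz : IsCoprime (a : ℤ) b := Nat.isCoprime_iff_coprime.2 hab
    have ha0 : 0 < a := by rw [ha]; positivity
    have hPz : (P : ℤ) ≠ 0 := by exact_mod_cast (by omega : P ≠ 0)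
    have e4 : (a : ℤ) * ((y2 : ℤ) - y2') = (b : ℤ) * ((x2 : ℤ) - x2') := by
      push_cast at e3
      have : (P : ℤ) * ((a : ℤ) * ((y2 : ℤ) - y2')) = P * ((b : ℤ) * ((x2 : ℤ) - x2')) := by linarith
      exact mul_left_cancel₀ hPz this
    have e5 : (a : ℤ) ∣ (x2 : ℤ) - x2' := by
      refine habz.dvd_of_dvd_mul_left ⟨(y2 : ℤ) - y2', e4.symm⟩
    have e6 : x2 = x2' := by
      have d1 := Nat.div_add_mod x2 a
      have d2 := Nat.div_add_mod x2' a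
      have d3 := Nat.mod_lt x2 ha0
      have d4 := Nat.mod_lt x2' ha0
      rw [hzz] at d1
      have d5 : |(x2 : ℤ) - x2'| < a := by
        rw [abs_lt]
        constructor <;> omega
      have d6 := Int.eq_zero_of_abs_lt_dvd e5 d5
      omega
    subst e6
    rw [sub_self, mul_zero, mul_eq_zero] at e4
    rcases e4 with e4 | e4
    · exact absurd e4 (by exact_mod_cast ha0.ne')
    · have e7 : y2 = y2' := by omega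
      rw [e7]

theorem cntP (P Y₁ U₁ D k : ℕ) (hP : 2 ∣ P) (hP1 : 1 ≤ P) (S : Finset ((ℕ × ℕ) × ℤ)) :
    (((Ico Y₁ (Y₁ + Y₁) ×ˢ Ico 0 (0 + U₁)) ×ˢ (Ico Y₁ (Y₁ + Y₁) ×ˢ Ico 0 (0 + U₁))).filter
      (fun z => Nat.Coprime (1 + P * z.1.1) (1 + P * z.2.1) ∧ tr P D k z.1 z.2 ∈ S)).card ≤
        (U₁ / Y₁ + 1) * S.card := by
  classical
  obtain ⟨E, hE⟩ : ∃ E, E = ((Ico Y₁ (Y₁ + Y₁) ×ˢ Ico 0 (0 + U₁)) ×ˢ
    (Ico Y₁ (Y₁ + Y₁) ×ˢ Ico 0 (0 + U₁))).filter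
      (fun z => Nat.Coprime (1 + P * z.1.1) (1 + P * z.2.1) ∧ tr P D k z.1 z.2 ∈ S) := ⟨_, rfl⟩
  have h1 := card_le_mul_card_image (f := fun z : (ℕ × ℕ) × (ℕ × ℕ) => tr P D k z.1 z.2) E (U₁ / Y₁ + 1) (by
    intro τ _
    refine le_trans (card_le_card ?_) (fib P Y₁ U₁ D k hP hP1 τ)
    intro z hz
    rw [mem_filter, hE, mem_filter] at hz
    rw [mem_filter, mem_filter]
    exact ⟨⟨hz.1.1, hz.1.2.1⟩, hz.2⟩)
  rw [← hE]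
  refine h1.trans (Nat.mul_le_mul_left _ (card_le_card ?_))
  intro τ hτ
  obtain ⟨z, hz, rfl⟩ := mem_image.1 hτ
  rw [hE, mem_filter] at hz
  exact hz.2.2

open Classical in
/-- **choice of the vertices** -/
theorem choose_sig (n K : ℕ) (hn : 2 ≤ n) : ∃ (P C : ℕ) (δ : ℝ), 1 ≤ P ∧ 6 ∣ P ∧ 1 ≤ C ∧ 0 < δ ∧
    ∀ Y₁ U₁ : ℕ, C ≤ Y₁ → Y₁ ≤ U₁ → ∀ S : Finset ((ℕ × ℕ) × ℤ),
      (S.card : ℝ) ≤ δ * ((Y₁ : ℝ) ^ 3 * U₁) →
    ∃ f : Fin n → ℕ × ℕ, (∀ i, Y₁ ≤ (f i).1 ∧ (f i).1 < Y₁ + Y₁ ∧ (f i).2 < U₁) ∧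
      (∀ i, Nat.Coprime (1 + P * (f i).1) (1 + P * (f i).2)) ∧
      ∀ i j, i < j → Nat.Coprime (1 + P * (f i).1) (1 + P * (f j).1) ∧
        ∀ D k, D ≤ K → k ≤ K → tr P D k (f i) (f j) ∉ S := by
  obtain ⟨z, hz⟩ : ∃ z : ℕ, z = 96 * n ^ 2 := ⟨_, rfl⟩
  have hn1 : 1 ≤ n ^ 2 := Nat.one_le_pow _ _ (by omega)
  have hz1 : 1 ≤ z := by omega
  obtain ⟨P, hPd⟩ : ∃ P : ℕ, P = 6 * z.factorial := ⟨_, rfl⟩
  have hP1 : 1 ≤ P := by have := Nat.factorial_pos z; omega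
  have hP6 : 6 ∣ P := ⟨_, hPd⟩
  have hP2 : 2 ∣ P := (by norm_num : 2 ∣ 6).trans hP6
  have hPz : ∀ p : ℕ, p.Prime → p ≤ z → p ∣ P := fun p hp hpz => by
    rw [hPd]
    exact Dvd.dvd.mul_left (Nat.dvd_factorial hp.pos hpz) _
  have hn0 : (0 : ℝ) < n := by exact_mod_cast (by omega : 0 < n)
  have hK0 : (0 : ℝ) < (K : ℝ) + 1 := by positivity
  refine ⟨P, 144 * P * n ^ 2, 1 / (8 * (n : ℝ) ^ 2 * ((K : ℝ) + 1) ^ 2), hP1, hP6,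
    Nat.mul_pos (by omega) hn1, by positivity, ?_⟩
  intro Y₁ U₁ hY hYU S hS
  have hY1 : 1 ≤ Y₁ := by
    have h1 : 0 < 144 * P * n ^ 2 := Nat.mul_pos (by omega) hn1
    omega
  have hU1 : 1 ≤ U₁ := hY1.trans hYU
  have hY0 : (0 : ℝ) < Y₁ := by exact_mod_cast hY1
  have hU0 : (0 : ℝ) < U₁ := by exact_mod_cast hU1
  obtain ⟨η, hη⟩ : ∃ η : ℝ, η = 4 / z + 6 * P / Y₁ := ⟨_, rfl⟩
  have hη1 : (n : ℝ) ^ 2 * (3 * η) ≤ 1 / 4 := by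
    have h1 : (4 : ℝ) / z = 1 / (24 * (n : ℝ) ^ 2) := by
      rw [hz]; push_cast; field_simp; norm_num
    have h2 : 6 * (P : ℝ) / Y₁ ≤ 1 / (24 * (n : ℝ) ^ 2) := by
      rw [div_le_div_iff₀ hY0 (by positivity)]
      have : ((144 * P * n ^ 2 : ℕ) : ℝ) ≤ Y₁ := by exact_mod_cast hY
      push_cast at this
      linarith
    have h3 : η ≤ 1 / (12 * (n : ℝ) ^ 2) := by
      rw [hη, h1]
      have : 1 / (12 * (n : ℝ) ^ 2) = 1 / (24 * (n : ℝ) ^ 2) + 1 / (24 * (n : ℝ) ^ 2) := by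
        field_simp; norm_num
      rw [this]
      linarith
    calc (n : ℝ) ^ 2 * (3 * η) ≤ (n : ℝ) ^ 2 * (3 * (1 / (12 * (n : ℝ) ^ 2))) := by gcongr
      _ = 1 / 4 := by field_simp; norm_num
  obtain ⟨Ω, hΩ⟩ : ∃ Ω : Finset (ℕ × ℕ), Ω = Ico Y₁ (Y₁ + Y₁) ×ˢ Ico 0 (0 + U₁) := ⟨_, rfl⟩
  have hΩc : Ω.card = Y₁ * U₁ := by
    rw [hΩ, card_product, Nat.card_Ico, Nat.card_Ico, Nat.add_sub_cancel_left, Nat.add_sub_cancel_left]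
  obtain ⟨Z, hZ⟩ : ∃ Z : ℕ × ℕ → ℕ × ℕ → Prop, Z = fun x y =>
    ¬ Nat.Coprime (1 + P * x.1) (1 + P * x.2) ∨ ¬ Nat.Coprime (1 + P * y.1) (1 + P * y.2) ∨
      ¬ Nat.Coprime (1 + P * x.1) (1 + P * y.1) ∨
      ∃ D k, D ≤ K ∧ k ≤ K ∧ Nat.Coprime (1 + P * x.1) (1 + P * y.1) ∧ tr P D k x y ∈ S := ⟨_, rfl⟩
  obtain ⟨B1, hB1⟩ : ∃ B1 : Finset (ℕ × ℕ), B1 = Ω.filter
    (fun x => ¬ Nat.Coprime (1 + P * x.1) (1 + P * x.2)) := ⟨_, rfl⟩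
  have c1 : (B1.card : ℝ) ≤ Y₁ * U₁ * η := by
    rw [hB1, hΩ, hη]
    exact copr P z Y₁ Y₁ 0 U₁ hz1 hPz hP1 le_rfl hY1 hYU
  obtain ⟨B2, hB2⟩ : ∃ B2 : Finset (ℕ × ℕ), B2 = (Ico Y₁ (Y₁ + Y₁) ×ˢ Ico Y₁ (Y₁ + Y₁)).filter
    (fun x => ¬ Nat.Coprime (1 + P * x.1) (1 + P * x.2)) := ⟨_, rfl⟩
  have c2 : (B2.card : ℝ) ≤ Y₁ * Y₁ * η := by
    rw [hB2, hη]
    exact copr P z Y₁ Y₁ Y₁ Y₁ hz1 hPz hP1 le_rfl hY1 le_rfl
  obtain ⟨E3, hE3⟩ : ∃ E3 : Finset ((ℕ × ℕ) × (ℕ × ℕ)), E3 = (B2 ×ˢ (Ico 0 (0 + U₁) ×ˢ Ico 0 (0 + U₁))).image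
        (fun q => ((q.1.1, q.2.1), (q.1.2, q.2.2))) := ⟨_, rfl⟩
  obtain ⟨E4, hE4⟩ : ∃ E4 : Finset ((ℕ × ℕ) × (ℕ × ℕ)), E4 =
      (range (K + 1) ×ˢ range (K + 1)).biUnion (fun q =>
          (Ω ×ˢ Ω).filter (fun z => Nat.Coprime (1 + P * z.1.1) (1 + P * z.2.1) ∧
            tr P q.1 q.2 z.1 z.2 ∈ S)) := ⟨_, rfl⟩
  have hcover : (Ω ×ˢ Ω).filter (fun x => Z x.1 x.2) ⊆ (B1 ×ˢ Ω) ∪ ((Ω ×ˢ B1) ∪ (E3 ∪ E4)) := by
    intro x hx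
    rw [mem_filter, mem_product] at hx
    obtain ⟨⟨hx1, hx2⟩, hx3⟩ := hx
    rw [hZ] at hx3
    rw [mem_union, mem_union, mem_union]
    rcases hx3 with h1 | h1 | h1 | ⟨D, k, h1, h2, h3⟩
    · exact Or.inl (mem_product.2 ⟨by rw [hB1]; exact mem_filter.2 ⟨hx1, h1⟩, hx2⟩)
    · exact Or.inr (Or.inl (mem_product.2 ⟨hx1, by rw [hB1]; exact mem_filter.2 ⟨hx2, h1⟩⟩))
    · refine Or.inr (Or.inr (Or.inl ?_))
      rw [hΩ, mem_product] at hx1 hx2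
      rw [hE3, mem_image]
      refine ⟨((x.1.1, x.2.1), (x.1.2, x.2.2)), ?_, rfl⟩
      rw [mem_product, hB2, mem_filter, mem_product, mem_product]
      exact ⟨⟨⟨hx1.1, hx2.1⟩, h1⟩, hx1.2, hx2.2⟩
    · refine Or.inr (Or.inr (Or.inr ?_))
      rw [hE4, mem_biUnion]
      exact ⟨(D, k), mem_product.2 ⟨mem_range.2 (by omega), mem_range.2 (by omega)⟩,
        mem_filter.2 ⟨mem_product.2 ⟨hx1, hx2⟩, h3⟩⟩
  have hcard : (((Ω ×ˢ Ω).filter (fun x => Z x.1 x.2)).card : ℝ) ≤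
      3 * η * ((Y₁ : ℝ) * U₁) ^ 2 + ((K : ℝ) + 1) ^ 2 * ((2 * U₁ / Y₁) * S.card) := by
    have h1 := (card_le_card hcover).trans ((card_union_le _ _).trans (Nat.add_le_add_left
      ((card_union_le _ _).trans (Nat.add_le_add_left (card_union_le _ _) _)) _))
    have h2 : E3.card ≤ B2.card * (U₁ * U₁) := by
      rw [hE3]
      refine card_image_le.trans (le_of_eq ?_)
      rw [card_product, card_product, Nat.card_Ico, Nat.add_sub_cancel_left]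
    have h3 : E4.card ≤ ((K + 1) * (K + 1)) * ((U₁ / Y₁ + 1) * S.card) := by
      rw [hE4]
      refine card_biUnion_le.trans ?_
      refine (sum_le_card_nsmul _ _ ((U₁ / Y₁ + 1) * S.card) fun q _ => ?_).trans ?_
      · rw [hΩ]
        exact cntP P Y₁ U₁ q.1 q.2 hP2 hP1 S
      · rw [card_product, card_range, smul_eq_mul]
    have h4 : (((Ω ×ˢ Ω).filter (fun x => Z x.1 x.2)).card : ℝ) ≤
        (B1.card : ℝ) * Ω.card + (Ω.card * B1.card + (B2.card * (U₁ * U₁) +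
          ((K + 1) * (K + 1)) * (((U₁ / Y₁ : ℕ) + 1) * S.card))) := by
      have h5 := h1.trans (Nat.add_le_add_left (Nat.add_le_add_left (Nat.add_le_add h2 h3) _) _)
      rw [card_product, card_product] at h5
      exact_mod_cast h5
    refine h4.trans ?_
    rw [hΩc]
    push_cast
    have h6 : ((U₁ / Y₁ : ℕ) : ℝ) + 1 ≤ 2 * U₁ / Y₁ := by
      have g1 : ((U₁ / Y₁ : ℕ) : ℝ) ≤ (U₁ : ℝ) / Y₁ := Nat.cast_div_le
      have g2 : (1 : ℝ) ≤ (U₁ : ℝ) / Y₁ := by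
        rw [le_div_iff₀ hY0, one_mul]
        exact_mod_cast hYU
      have e3 : 2 * (U₁ : ℝ) / Y₁ = (U₁ : ℝ) / Y₁ + (U₁ : ℝ) / Y₁ := by ring
      rw [e3]
      linarith
    have h7 : (B1.card : ℝ) * (Y₁ * U₁) ≤ (Y₁ * U₁ * η) * (Y₁ * U₁) :=
      mul_le_mul_of_nonneg_right c1 (by positivity)
    have h8 : (B2.card : ℝ) * (U₁ * U₁) ≤ (Y₁ * Y₁ * η) * (U₁ * U₁) :=
      mul_le_mul_of_nonneg_right c2 (by positivity)
    have h9 : (((K : ℝ) + 1) * (K + 1)) * ((((U₁ / Y₁ : ℕ) : ℝ) + 1) * S.card) ≤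
        ((K : ℝ) + 1) ^ 2 * ((2 * U₁ / Y₁) * S.card) := by
      rw [pow_two]
      gcongr
    nlinarith
  have hfin : (n : ℝ) ^ 2 * (((Ω ×ˢ Ω).filter (fun x => Z x.1 x.2)).card : ℝ) < (Ω.card : ℝ) ^ 2 := by
    rw [hΩc]
    push_cast
    have hYU0 : (0 : ℝ) < ((Y₁ : ℝ) * U₁) ^ 2 := by positivity
    calc (n : ℝ) ^ 2 * (((Ω ×ˢ Ω).filter (fun x => Z x.1 x.2)).card : ℝ) ≤
        (n : ℝ) ^ 2 * (3 * η * ((Y₁ : ℝ) * U₁) ^ 2 + ((K : ℝ) + 1) ^ 2 * ((2 * U₁ / Y₁) * S.card)) := by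
          gcongr
      _ = ((n : ℝ) ^ 2 * (3 * η)) * ((Y₁ : ℝ) * U₁) ^ 2 +
          ((n : ℝ) ^ 2 * ((K : ℝ) + 1) ^ 2 * (2 * U₁ / Y₁)) * S.card := by ring
      _ ≤ (1 / 4) * ((Y₁ : ℝ) * U₁) ^ 2 + ((n : ℝ) ^ 2 * ((K : ℝ) + 1) ^ 2 * (2 * U₁ / Y₁)) *
          (1 / (8 * (n : ℝ) ^ 2 * ((K : ℝ) + 1) ^ 2) * ((Y₁ : ℝ) ^ 3 * U₁)) := by
          gcongr
      _ = (1 / 2) * ((Y₁ : ℝ) * U₁) ^ 2 := by field_simp; ring
      _ < _ := by linarith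
  obtain ⟨f, hf1, hf2⟩ := avoid Ω n Z (by rw [hΩc]; exact Nat.mul_pos hY1 hU1) hfin
  have hf3 : ∀ i j, i < j → Nat.Coprime (1 + P * (f i).1) (1 + P * (f i).2) ∧
      Nat.Coprime (1 + P * (f j).1) (1 + P * (f j).2) ∧
      Nat.Coprime (1 + P * (f i).1) (1 + P * (f j).1) ∧
        ∀ D k, D ≤ K → k ≤ K → tr P D k (f i) (f j) ∉ S := by
    intro i j hij
    have h1 := hf2 i j hij
    rw [hZ] at h1
    push Not at h1
    obtain ⟨g1, g2, g3, g4⟩ := h1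
    exact ⟨g1, g2, g3, fun D k hD hk => g4 D k hD hk g3⟩
  refine ⟨f, fun i => ?_, fun i => ?_, fun i j hij => (hf3 i j hij).2.2⟩
  · have h1 := hf1 i
    rw [hΩ, mem_product, mem_Ico, mem_Ico] at h1
    exact ⟨h1.1.1, h1.1.2, by omega⟩
  · by_cases hi : (i : ℕ) = 0
    · have h1 : i < (⟨1, by omega⟩ : Fin n) := by
        rw [Fin.lt_def]; simp only; omega
      exact (hf3 _ _ h1).1
    · have h1 : (⟨0, by omega⟩ : Fin n) < i := by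
        rw [Fin.lt_def]; simp only; omega
      exact (hf3 _ _ h1).2.1

end Pool.Agent.U570.AH
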