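import Pool.Agent.U570.AH.Simple

/-! The versions for single long intervals, with a fixed class. -/

set_option autoImplicit false

namespace Pool.Agent.U570.AH

open Finset Filter Pool.Agent.U570.AF

/-- a rapidly growing sequence of bad intervals, the property depends on the index -/
theorem chain_j (Bad : ℕ → ℕ → ℕ → Prop) (Γ : ℕ) (h : ∀ j Y₀ : ℕ, ∃ Y, Y₀ ≤ Y ∧ ∃ X, Bad j X Y) :
    ∃ L X : ℕ → ℕ, Γ ≤ L 0 ∧ (∀ i, 1 ≤ i → Γ * (L (i - 1) + X (i - 1)) ≤ L i) ∧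
      ∀ i, Bad i (X i) (L i) := by
  choose fY hfY fX hX using h
  obtain ⟨τ, hτ0, hτ⟩ : ∃ τ : ℕ → ℕ, τ 0 = Γ ∧ ∀ j, τ (j + 1) = Γ * (fY j (τ j) + fX j (τ j)) :=
    ⟨fun j => Nat.rec Γ (fun j t => Γ * (fY j t + fX j t)) j, rfl, fun j => rfl⟩
  refine ⟨fun i => fY i (τ i), fun i => fX i (τ i), ?_, ?_, fun i => hX _ _⟩
  · have := hfY 0 (τ 0)
    beta_reduce
    rw [hτ0] at this ⊢
    exact this
  · intro i hi
    obtain ⟨i', rfl⟩ : ∃ i', i = i' + 1 := ⟨i - 1, by omega⟩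
    rw [Nat.add_sub_cancel]
    have := hfY (i' + 1) (τ (i' + 1))
    rw [hτ] at this
    beta_reduce
    rw [hτ]
    exact this

/-- **the general theorem for long intervals, with a fixed class** -/
theorem simple_j : ∃ B₀ : ℕ, ∀ ε : ℝ, 0 < ε → ε ≤ 1 → ∃ T R : ℕ, 1 ≤ T ∧ 1 ≤ R ∧
    ∀ (M : ℕ) (s : ℕ → ℕ → ℕ) (h : ℕ → ℕ → ℤ) (A B : ℕ → ℕ → ℕ → ℕ) (G : ℕ → ℕ → ℕ → ℤ),
      Da T R M s h A B G →
    ∃ j : ℕ, 1 ≤ j ∧ j ≤ T ∧ ∃ Y₀ : ℕ, ∀ Y : ℕ, Y₀ ≤ Y → ∀ X : ℕ, ∃ i v w : ℕ, i < j ∧ v < R ∧ w < R ∧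
      Lg ε X Y (fun x Z => GoodZ B₀ (A i j (2 * R * (j - i) + w - v)) (B i j (2 * R * (j - i) + w - v))
          (G i j (2 * R * (j - i) + w - v) + A i j (2 * R * (j - i) + w - v) *
            ((M : ℤ) ^ (2 * (T - j) + 1) * (x : ℤ))) Z) := by
  classical
  obtain ⟨B₀, hmain⟩ := main_g
  refine ⟨B₀, fun ε hε hε1 => ?_⟩
  obtain ⟨T, R, hT, hR, hm⟩ := hmain ε hε hε1
  refine ⟨T, R, hT, hR, fun M s h A B G D => ?_⟩
  obtain ⟨Γ, _, hΓ⟩ := hm M s h A B G D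
  by_contra hcon
  push Not at hcon
  have hcon' : ∀ j Y₀ : ℕ, ∃ Y, Y₀ ≤ Y ∧ ∃ X, (1 ≤ j → j ≤ T → ∀ i v w : ℕ, i < j → v < R → w < R →
      ¬ Lg ε X Y (fun x Z => GoodZ B₀ (A i j (2 * R * (j - i) + w - v)) (B i j (2 * R * (j - i) + w - v))
          (G i j (2 * R * (j - i) + w - v) + A i j (2 * R * (j - i) + w - v) *
            ((M : ℤ) ^ (2 * (T - j) + 1) * (x : ℤ))) Z)) := by
    intro j Y₀
    by_cases hj : 1 ≤ j ∧ j ≤ T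
    · obtain ⟨Y, hY, X, hX⟩ := hcon j hj.1 hj.2 Y₀
      exact ⟨Y, hY, X, fun _ _ => hX⟩
    · exact ⟨Y₀, le_rfl, 0, fun h1 h2 => absurd ⟨h1, h2⟩ hj⟩
  obtain ⟨L, X, hL0, hLX, hbad⟩ := chain_j _ Γ hcon'
  have h1 : ∀ q ∈ (range (T + 1) ×ˢ range (T + 1)) ×ˢ (range R ×ˢ range R), ∀ᶠ Z : ℕ in atTop,
      (q.1.1 < q.1.2 → ¬ ((1 - ε) * (L q.1.2 : ℝ) ≤
        (((Ico (X q.1.2) (X q.1.2 + L q.1.2)).filter (fun x : ℕ =>
          GoodZ B₀ (A q.1.1 q.1.2 (2 * R * (q.1.2 - q.1.1) + q.2.2 - q.2.1))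
          (B q.1.1 q.1.2 (2 * R * (q.1.2 - q.1.1) + q.2.2 - q.2.1))
          (G q.1.1 q.1.2 (2 * R * (q.1.2 - q.1.1) + q.2.2 - q.2.1) +
            A q.1.1 q.1.2 (2 * R * (q.1.2 - q.1.1) + q.2.2 - q.2.1) *
            ((M : ℤ) ^ (2 * (T - q.1.2) + 1) * (x : ℤ))) Z)).card : ℝ))) := by
    intro q hq
    rw [mem_product, mem_product, mem_product, mem_range, mem_range, mem_range, mem_range] at hq
    by_cases hij : q.1.1 < q.1.2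
    · have h2 := not_lg _ _ _ _ (hbad q.1.2 (by omega) (by omega) q.1.1 q.2.1 q.2.2 hij hq.2.1 hq.2.2)
      filter_upwards [h2] with Z hZ _
      exact hZ
    · exact Eventually.of_forall fun Z h => absurd h hij
  have h2 := (Filter.eventually_all_finset _).2 h1
  obtain ⟨Z, hZ1, hZ2⟩ := (h2.and (eventually_ge_atTop (Γ * (L T + X T)))).exists
  obtain ⟨i, j, v, w, hij, hj, hv, hw, h3⟩ := hΓ L X hL0 hLX Z hZ2
  exact hZ1 ((i, j), (v, w)) (by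
    rw [mem_product, mem_product, mem_product, mem_range, mem_range, mem_range, mem_range]
    exact ⟨⟨show i < T + 1 by omega, show j < T + 1 by omega⟩, hv, hw⟩) hij h3

end Pool.Agent.U570.AH
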