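import Pool.Agent.U570.AH.Pair

/-! Evaluation of the sum of the products of the averaged kernels. -/

set_option autoImplicit false
set_option linter.unusedSectionVars false

namespace Pool.Agent.U570.AH

open Finset Pool.Agent.U570.AF Pool.Agent.U570.AG

noncomputable section

/-- the lengths -/
def Lm (L X : ℕ → ℕ) (i : ℕ) : ℕ := L i + X i

/-- the hypotheses about the scales and the multipliers -/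
structure Hy (L X : ℕ → ℕ) (ν : ℕ → ℕ → ℕ → ℕ) (M Γ T K Q : ℕ) (κ : ℝ) : Prop where
  M1 : 1 ≤ M
  κ0 : 0 < κ
  Γ1 : 1 ≤ Γ
  g1 : 2 * (M : ℝ) ^ (2 * T + 2) ≤ κ * Γ
  g2 : 2 * (Q : ℝ) ≤ κ * Γ
  L0 : 1 ≤ Lm L X 0
  L1 : ∀ i, 1 ≤ i → Γ ^ 5 * Lm L X (i - 1) ≤ Lm L X i
  dv : ∀ i j k, i < j → j ≤ T → k ≤ K → M ^ (2 * (j - i) - 1) ∣ ν i j k
  le : ∀ i j k, i < j → j ≤ T → k ≤ K → ν i j k ≤ Q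

theorem sum_mn {P : ℕ} [NeZero P] (f : ZMod P → ℝ) :
    ∑ x ∈ range P, f ((x : ℕ) : ZMod P) = P * mn f := by
  unfold mn
  rw [sum_zmod, mul_inv_cancel_left₀ Pr.ne']

variable {L X : ℕ → ℕ} [∀ j, NeZero (L j)] {ν : ℕ → ℕ → ℕ → ℕ} {M Γ T K Q : ℕ} {κ : ℝ}

theorem Hy.sc (h : Hy L X ν M Γ T K Q κ) (j : ℕ) (hj : j ≤ T) :
    Sc j (fP M j) (fM M j) (lm Γ (Lm L X)) (lo Γ (Lm L X)) (lp Γ (Lm L X)) κ :=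
  sc_of M T Γ h.M1 κ h.κ0 h.Γ1 h.g1 (Lm L X) h.L0 h.L1 j hj

/-- the averaged kernel of two nodes (class, exponent) -/
def kk (Bd : ℕ → ℕ → ℕ → ℕ → Prop) (L X : ℕ → ℕ) (ν : ℕ → ℕ → ℕ → ℕ) (M Γ R : ℕ) (v w : ℕ × ℕ) (x y : ℕ) : ℝ :=
  kaG Bd L X ν (fM M w.1 v.1) (lm Γ (Lm L X) v.1) R v.1 w.1 (v.2, x) (w.2, y)

/-- the smoothed indicator function at the class of `w` seen from `v` -/
def gg (Bd : ℕ → ℕ → ℕ → ℕ → Prop) (L X : ℕ → ℕ) (M Γ R : ℕ) (v w : ℕ × ℕ) : ZMod (L w.1) → ℝ :=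
  sv (fP M w.1 v.1) (lo Γ (Lm L X) v.1) (bj (Bd v.1) L X w.1 (2 * R * (w.1 - v.1) + w.2 - v.2))

/-- exponents are in the range -/
theorem expo {R T K : ℕ} (hK : 2 * R * (T + 1) ≤ K) {v w : ℕ × ℕ} (hvw : v.1 < w.1) (hw : w.1 ≤ T)
    (hv2 : v.2 < R) (hw2 : w.2 < R) :
    1 ≤ 2 * R * (w.1 - v.1) + w.2 - v.2 ∧ 2 * R * (w.1 - v.1) + w.2 - v.2 ≤ K := by
  have h1 : 2 * R * 1 ≤ 2 * R * (w.1 - v.1) := Nat.mul_le_mul_left _ (by omega)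
  have h2 : 2 * R * (w.1 - v.1) ≤ 2 * R * T := Nat.mul_le_mul_left _ (by omega)
  have h3 : 2 * R * (T + 1) = 2 * R * T + 2 * R := by ring
  omega

theorem Hy.form (h : Hy L X ν M Γ T K Q κ) (Bd : ℕ → ℕ → ℕ → ℕ → Prop) (R : ℕ) (hK : 2 * R * (T + 1) ≤ K)
    (v w : ℕ × ℕ) (hvw : v.1 < w.1) (hw : w.1 ≤ T) (hv2 : v.2 < R) (hw2 : w.2 < R) (x : ℕ)
    (hx : x < L v.1) :
    ∃ t : ℕ, 2 * (t : ℝ) ≤ κ * lo Γ (Lm L X) v.1 ∧ ∀ y : ℕ,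
      kk Bd L X ν M Γ R v w x y =
        av (fM M w.1 v.1) (lm Γ (Lm L X) v.1) (bj (Bd v.1) L X w.1 (2 * R * (w.1 - v.1) + w.2 - v.2))
          ((y : ZMod (L w.1)) - ((fP M w.1 v.1 * t : ℕ) : ZMod (L w.1))) := by
  have hk := (expo hK hvw hw hv2 hw2).2
  obtain ⟨n, hn⟩ := h.dv v.1 w.1 (2 * R * (w.1 - v.1) + w.2 - v.2) hvw hw hk
  refine ⟨n * (X v.1 + x), ?_, ?_⟩
  · have h1 : n ≤ Q := by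
      refine le_trans ?_ (h.le v.1 w.1 (2 * R * (w.1 - v.1) + w.2 - v.2) hvw hw hk)
      rw [hn]
      exact Nat.le_mul_of_pos_left _ (pow_pos h.M1 _)
    have h2 : n * (X v.1 + x) ≤ Q * Lm L X v.1 := Nat.mul_le_mul h1 (by unfold Lm; omega)
    have h3 : ((n * (X v.1 + x) : ℕ) : ℝ) ≤ Q * (Lm L X v.1 : ℕ) := by exact_mod_cast h2
    calc 2 * ((n * (X v.1 + x) : ℕ) : ℝ) ≤ 2 * (Q * (Lm L X v.1 : ℕ)) := by linarith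
      _ = (2 * Q) * (Lm L X v.1 : ℕ) := by ring
      _ ≤ (κ * Γ) * (Lm L X v.1 : ℕ) := mul_le_mul_of_nonneg_right h.g2 (Nat.cast_nonneg _)
      _ = _ := by unfold lo; push_cast; ring
  · intro y
    have h1 : ν v.1 w.1 (2 * R * (w.1 - v.1) + w.2 - v.2) * (X v.1 + x) =
        fP M w.1 v.1 * (n * (X v.1 + x)) := by
      rw [hn]; unfold fP; ring
    have h2 := kaG_eq Bd L X ν (fM M w.1 v.1) (lm Γ (Lm L X) v.1) R v.1 w.1 (v.2, x) (w.2, y)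
    simp only at h2
    unfold kk
    rw [h2, h1]

/-- the three main terms -/
def P4 (Bd : ℕ → ℕ → ℕ → ℕ → Prop) (L X : ℕ → ℕ) [∀ j, NeZero (L j)] (M Γ R : ℕ) (v0 v1 v2 v3 : ℕ × ℕ) : ℝ :=
  mn (fun x => gg Bd L X M Γ R v0 v3 x * (gg Bd L X M Γ R v1 v3 x * gg Bd L X M Γ R v2 v3 x))

def P3 (Bd : ℕ → ℕ → ℕ → ℕ → Prop) (L X : ℕ → ℕ) [∀ j, NeZero (L j)] (M Γ R : ℕ) (v0 v1 v2 : ℕ × ℕ) : ℝ :=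
  mn (fun x => gg Bd L X M Γ R v0 v2 x * gg Bd L X M Γ R v1 v2 x)

def P2 (Bd : ℕ → ℕ → ℕ → ℕ → Prop) (L X : ℕ → ℕ) [∀ j, NeZero (L j)] (M Γ R : ℕ) (v0 v1 : ℕ × ℕ) : ℝ :=
  mn (gg Bd L X M Γ R v0 v1)

/-- the jumps -/
def J3 (Bd : ℕ → ℕ → ℕ → ℕ → Prop) (L X : ℕ → ℕ) [∀ j, NeZero (L j)] (M Γ R : ℕ) (v0 w : ℕ × ℕ) (i : ℕ) : ℝ :=
  Jp (fP M w.1) (lp Γ (Lm L X)) i (gg Bd L X M Γ R v0 w)

def J4 (Bd : ℕ → ℕ → ℕ → ℕ → Prop) (L X : ℕ → ℕ) [∀ j, NeZero (L j)] (M Γ R : ℕ) (v0 v1 w : ℕ × ℕ) (i : ℕ) : ℝ :=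
  Jp (fP M w.1) (lp Γ (Lm L X)) i (fun x => gg Bd L X M Γ R v0 w x * gg Bd L X M Γ R v1 w x)

theorem gg_nonneg (Bd : ℕ → ℕ → ℕ → ℕ → Prop) (R : ℕ) (v w : ℕ × ℕ) (x : ZMod (L w.1)) :
    0 ≤ gg Bd L X M Γ R v w x := sv_nonneg _ _ _ (bj_nonneg _ _ _ _ _) _

theorem gg_U1 (Bd : ℕ → ℕ → ℕ → ℕ → Prop) (R : ℕ) (v w : ℕ × ℕ) : U1 (gg Bd L X M Γ R v w) :=
  abs_sv_le _ _ _ (bj_U1 _ _ _ _ _)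

theorem gg_le (Bd : ℕ → ℕ → ℕ → ℕ → Prop) (R : ℕ) (v w : ℕ × ℕ) (x : ZMod (L w.1)) :
    gg Bd L X M Γ R v w x ≤ 1 := (abs_le.1 (gg_U1 Bd R v w x)).2

theorem P4_nonneg (Bd : ℕ → ℕ → ℕ → ℕ → Prop) (R : ℕ) (v0 v1 v2 v3 : ℕ × ℕ) :
    0 ≤ P4 Bd L X M Γ R v0 v1 v2 v3 :=
  mn_nonneg fun x => mul_nonneg (gg_nonneg _ _ _ _ _) (mul_nonneg (gg_nonneg _ _ _ _ _) (gg_nonneg _ _ _ _ _))

theorem P4_le (Bd : ℕ → ℕ → ℕ → ℕ → Prop) (R : ℕ) (v0 v1 v2 v3 : ℕ × ℕ) :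
    P4 Bd L X M Γ R v0 v1 v2 v3 ≤ 1 := by
  rw [← mn_const (P := L v3.1) 1]
  refine mn_mono fun x => mul_le_one₀ (gg_le _ _ _ _ _) (mul_nonneg (gg_nonneg _ _ _ _ _) (gg_nonneg _ _ _ _ _)) ?_
  exact mul_le_one₀ (gg_le _ _ _ _ _) (gg_nonneg _ _ _ _ _) (gg_le _ _ _ _ _)

theorem P3_nonneg (Bd : ℕ → ℕ → ℕ → ℕ → Prop) (R : ℕ) (v0 v1 v2 : ℕ × ℕ) :
    0 ≤ P3 Bd L X M Γ R v0 v1 v2 :=
  mn_nonneg fun x => mul_nonneg (gg_nonneg _ _ _ _ _) (gg_nonneg _ _ _ _ _)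

theorem P2_nonneg (Bd : ℕ → ℕ → ℕ → ℕ → Prop) (R : ℕ) (v0 v1 : ℕ × ℕ) :
    0 ≤ P2 Bd L X M Γ R v0 v1 :=
  mn_nonneg fun x => gg_nonneg _ _ _ _ _

theorem J3_nonneg (Bd : ℕ → ℕ → ℕ → ℕ → Prop) (R : ℕ) (v0 w : ℕ × ℕ) (i : ℕ) :
    0 ≤ J3 Bd L X M Γ R v0 w i := Jp_nonneg _ _

theorem J4_nonneg (Bd : ℕ → ℕ → ℕ → ℕ → Prop) (R : ℕ) (v0 v1 w : ℕ × ℕ) (i : ℕ) :
    0 ≤ J4 Bd L X M Γ R v0 v1 w i := Jp_nonneg _ _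

theorem Hy.inner4 (h : Hy L X ν M Γ T K Q κ) (Bd : ℕ → ℕ → ℕ → ℕ → Prop) (R : ℕ) (hK : 2 * R * (T + 1) ≤ K)
    (v0 v1 v2 v3 : ℕ × ℕ) (h0 : 1 ≤ v0.1) (h01 : v0.1 < v1.1) (h12 : v1.1 < v2.1) (h23 : v2.1 < v3.1)
    (h3 : v3.1 ≤ T) (s0 : v0.2 < R) (s1 : v1.2 < R) (s2 : v2.2 < R) (s3 : v3.2 < R)
    (x0 x1 x2 : ℕ) (hx0 : x0 < L v0.1) (hx1 : x1 < L v1.1) (hx2 : x2 < L v2.1) :
    (L v3.1 : ℝ) * (P4 Bd L X M Γ R v0 v1 v2 v3 -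
        (34 * κ + 2 * J3 Bd L X M Γ R v0 v3 v1.1 + 2 * J4 Bd L X M Γ R v0 v1 v3 v2.1)) ≤
      ∑ x3 ∈ range (L v3.1), kk Bd L X ν M Γ R v0 v3 x0 x3 *
        (kk Bd L X ν M Γ R v1 v3 x1 x3 * kk Bd L X ν M Γ R v2 v3 x2 x3) := by
  obtain ⟨t0, ht0, e0⟩ := h.form Bd R hK v0 v3 (by omega) h3 s0 s3 x0 hx0
  obtain ⟨t1, ht1, e1⟩ := h.form Bd R hK v1 v3 (by omega) h3 s1 s3 x1 hx1
  obtain ⟨t2, ht2, e2⟩ := h.form Bd R hK v2 v3 (by omega) h3 s2 s3 x2 hx2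
  have key := (h.sc v3.1 h3).three (P := L v3.1) h0 h01 h12 h23
    (bj (Bd v0.1) L X v3.1 (2 * R * (v3.1 - v0.1) + v3.2 - v0.2))
    (bj (Bd v1.1) L X v3.1 (2 * R * (v3.1 - v1.1) + v3.2 - v1.2))
    (bj (Bd v2.1) L X v3.1 (2 * R * (v3.1 - v2.1) + v3.2 - v2.2))
    (bj_U1 _ _ _ _ _) (bj_U1 _ _ _ _ _) (bj_U1 _ _ _ _ _) t0 t1 t2 ht0 ht1 ht2
  simp_rw [e0, e1, e2]
  rw [sum_mn (fun y : ZMod (L v3.1) =>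
    av (fM M v3.1 v0.1) (lm Γ (Lm L X) v0.1) (bj (Bd v0.1) L X v3.1 (2 * R * (v3.1 - v0.1) + v3.2 - v0.2))
      (y - ((fP M v3.1 v0.1 * t0 : ℕ) : ZMod (L v3.1))) *
    (av (fM M v3.1 v1.1) (lm Γ (Lm L X) v1.1) (bj (Bd v1.1) L X v3.1 (2 * R * (v3.1 - v1.1) + v3.2 - v1.2))
      (y - ((fP M v3.1 v1.1 * t1 : ℕ) : ZMod (L v3.1))) *
    av (fM M v3.1 v2.1) (lm Γ (Lm L X) v2.1) (bj (Bd v2.1) L X v3.1 (2 * R * (v3.1 - v2.1) + v3.2 - v2.2))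
      (y - ((fP M v3.1 v2.1 * t2 : ℕ) : ZMod (L v3.1)))))]
  refine mul_le_mul_of_nonneg_left ?_ (Nat.cast_nonneg _)
  have k1 := (abs_le.1 key).1
  unfold P4 J3 J4 gg
  linarith

theorem Hy.inner3 (h : Hy L X ν M Γ T K Q κ) (Bd : ℕ → ℕ → ℕ → ℕ → Prop) (R : ℕ) (hK : 2 * R * (T + 1) ≤ K)
    (v0 v1 v2 : ℕ × ℕ) (h0 : 1 ≤ v0.1) (h01 : v0.1 < v1.1) (h12 : v1.1 < v2.1)
    (h2 : v2.1 ≤ T) (s0 : v0.2 < R) (s1 : v1.2 < R) (s2 : v2.2 < R)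
    (x0 x1 : ℕ) (hx0 : x0 < L v0.1) (hx1 : x1 < L v1.1) :
    (L v2.1 : ℝ) * (P3 Bd L X M Γ R v0 v1 v2 -
        (20 * κ + 2 * J3 Bd L X M Γ R v0 v2 v1.1)) ≤
      ∑ x2 ∈ range (L v2.1), kk Bd L X ν M Γ R v0 v2 x0 x2 * kk Bd L X ν M Γ R v1 v2 x1 x2 := by
  obtain ⟨t0, ht0, e0⟩ := h.form Bd R hK v0 v2 (by omega) h2 s0 s2 x0 hx0
  obtain ⟨t1, ht1, e1⟩ := h.form Bd R hK v1 v2 (by omega) h2 s1 s2 x1 hx1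
  have key := (h.sc v2.1 h2).two (P := L v2.1) h0 h01 h12
    (bj (Bd v0.1) L X v2.1 (2 * R * (v2.1 - v0.1) + v2.2 - v0.2))
    (bj (Bd v1.1) L X v2.1 (2 * R * (v2.1 - v1.1) + v2.2 - v1.2))
    (bj_U1 _ _ _ _ _) (bj_U1 _ _ _ _ _) t0 t1 ht0 ht1
  simp_rw [e0, e1]
  rw [sum_mn (fun y : ZMod (L v2.1) =>
    av (fM M v2.1 v0.1) (lm Γ (Lm L X) v0.1) (bj (Bd v0.1) L X v2.1 (2 * R * (v2.1 - v0.1) + v2.2 - v0.2))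
      (y - ((fP M v2.1 v0.1 * t0 : ℕ) : ZMod (L v2.1))) *
    av (fM M v2.1 v1.1) (lm Γ (Lm L X) v1.1) (bj (Bd v1.1) L X v2.1 (2 * R * (v2.1 - v1.1) + v2.2 - v1.2))
      (y - ((fP M v2.1 v1.1 * t1 : ℕ) : ZMod (L v2.1))))]
  refine mul_le_mul_of_nonneg_left ?_ (Nat.cast_nonneg _)
  have k1 := (abs_le.1 key).1
  unfold P3 J3 gg
  linarith

theorem Hy.mn_gg (h : Hy L X ν M Γ T K Q κ) (Bd : ℕ → ℕ → ℕ → ℕ → Prop) (R : ℕ) (v w : ℕ × ℕ) (hw : w.1 ≤ T) :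
    mn (gg Bd L X M Γ R v w) = mn (bj (Bd v.1) L X w.1 (2 * R * (w.1 - v.1) + w.2 - v.2)) :=
  mn_sv _ _ ((h.sc w.1 hw).o1 v.1) _

theorem Hy.inner2 (h : Hy L X ν M Γ T K Q κ) (Bd : ℕ → ℕ → ℕ → ℕ → Prop) (R : ℕ) (hK : 2 * R * (T + 1) ≤ K)
    (v0 v1 : ℕ × ℕ) (h01 : v0.1 < v1.1) (h1 : v1.1 ≤ T) (s0 : v0.2 < R) (s1 : v1.2 < R)
    (x0 : ℕ) (hx0 : x0 < L v0.1) :
    (L v1.1 : ℝ) * P2 Bd L X M Γ R v0 v1 ≤ ∑ x1 ∈ range (L v1.1), kk Bd L X ν M Γ R v0 v1 x0 x1 := by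
  obtain ⟨t0, _, e0⟩ := h.form Bd R hK v0 v1 h01 h1 s0 s1 x0 hx0
  simp_rw [e0]
  rw [sum_mn (fun y : ZMod (L v1.1) =>
    av (fM M v1.1 v0.1) (lm Γ (Lm L X) v0.1) (bj (Bd v0.1) L X v1.1 (2 * R * (v1.1 - v0.1) + v1.2 - v0.2))
      (y - ((fP M v1.1 v0.1 * t0 : ℕ) : ZMod (L v1.1))))]
  refine mul_le_mul_of_nonneg_left ?_ (Nat.cast_nonneg _)
  rw [mn_shift (av (fM M v1.1 v0.1) (lm Γ (Lm L X) v0.1)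
    (bj (Bd v0.1) L X v1.1 (2 * R * (v1.1 - v0.1) + v1.2 - v0.2))), mn_av _ _ ((h.sc v1.1 h1).m1 v0.1)]
  unfold P2
  rw [h.mn_gg Bd R v0 v1 h1]

/-- the error terms -/
def EE (Bd : ℕ → ℕ → ℕ → ℕ → Prop) (L X : ℕ → ℕ) [∀ j, NeZero (L j)] (M Γ R : ℕ) (κ : ℝ) (v0 v1 v2 v3 : ℕ × ℕ) : ℝ :=
  (20 * κ + 2 * J3 Bd L X M Γ R v0 v2 v1.1) +
    (34 * κ + 2 * J3 Bd L X M Γ R v0 v3 v1.1 + 2 * J4 Bd L X M Γ R v0 v1 v3 v2.1)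

/-- the main term -/
def PP (Bd : ℕ → ℕ → ℕ → ℕ → Prop) (L X : ℕ → ℕ) [∀ j, NeZero (L j)] (M Γ R : ℕ) (v0 v1 v2 v3 : ℕ × ℕ) : ℝ :=
  P4 Bd L X M Γ R v0 v1 v2 v3 * (P3 Bd L X M Γ R v0 v1 v2 * P2 Bd L X M Γ R v0 v1)

theorem kk_01 (Bd : ℕ → ℕ → ℕ → ℕ → Prop) (ν : ℕ → ℕ → ℕ → ℕ) (R : ℕ) (v w : ℕ × ℕ) (x y : ℕ) :
    0 ≤ kk Bd L X ν M Γ R v w x y ∧ kk Bd L X ν M Γ R v w x y ≤ 1 := kaG_01 _ _ _ _ _ _ _ _ _ _ _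

theorem Hy.lowG (h : Hy L X ν M Γ T K Q κ) (Bd : ℕ → ℕ → ℕ → ℕ → Prop) (R : ℕ) (hK : 2 * R * (T + 1) ≤ K)
    (v0 v1 v2 v3 : ℕ × ℕ) (h0 : 1 ≤ v0.1) (h01 : v0.1 < v1.1) (h12 : v1.1 < v2.1) (h23 : v2.1 < v3.1)
    (h3 : v3.1 ≤ T) (s0 : v0.2 < R) (s1 : v1.2 < R) (s2 : v2.2 < R) (s3 : v3.2 < R) :
    ((L v0.1 : ℝ) * L v1.1 * L v2.1 * L v3.1) *
        (PP Bd L X M Γ R v0 v1 v2 v3 - EE Bd L X M Γ R κ v0 v1 v2 v3) ≤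
      ∑ x0 ∈ range (L v0.1), ∑ x1 ∈ range (L v1.1), ∑ x2 ∈ range (L v2.1), ∑ x3 ∈ range (L v3.1),
        (kk Bd L X ν M Γ R v0 v1 x0 x1 * kk Bd L X ν M Γ R v0 v2 x0 x2 * kk Bd L X ν M Γ R v0 v3 x0 x3 *
          kk Bd L X ν M Γ R v1 v2 x1 x2 * kk Bd L X ν M Γ R v1 v3 x1 x3 *
          kk Bd L X ν M Γ R v2 v3 x2 x3) := by
  have hκ := h.κ0.le
  have key := lowS (range (L v0.1)) (range (L v1.1)) (range (L v2.1)) (range (L v3.1))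
    (kk Bd L X ν M Γ R v0 v1) (kk Bd L X ν M Γ R v0 v2) (kk Bd L X ν M Γ R v0 v3)
    (kk Bd L X ν M Γ R v1 v2) (kk Bd L X ν M Γ R v1 v3) (kk Bd L X ν M Γ R v2 v3)
    (fun x y => kk_01 _ _ _ _ _ _ _) (fun x y => kk_01 _ _ _ _ _ _ _) (fun x y => kk_01 _ _ _ _ _ _ _)
    (P4 Bd L X M Γ R v0 v1 v2 v3) (P3 Bd L X M Γ R v0 v1 v2) (P2 Bd L X M Γ R v0 v1)
    (34 * κ + 2 * J3 Bd L X M Γ R v0 v3 v1.1 + 2 * J4 Bd L X M Γ R v0 v1 v3 v2.1)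
    (20 * κ + 2 * J3 Bd L X M Γ R v0 v2 v1.1)
    (P4_nonneg _ _ _ _ _ _) (P4_le _ _ _ _ _ _) (P3_nonneg _ _ _ _ _)
    (by
      have := J3_nonneg (L := L) (X := X) (M := M) (Γ := Γ) Bd R v0 v3 v1.1
      have := J4_nonneg (L := L) (X := X) (M := M) (Γ := Γ) Bd R v0 v1 v3 v2.1
      positivity)
    (by
      have := J3_nonneg (L := L) (X := X) (M := M) (Γ := Γ) Bd R v0 v2 v1.1
      positivity)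
    (fun x0 hx0 x1 hx1 x2 hx2 => by
      rw [card_range]
      exact h.inner4 Bd R hK v0 v1 v2 v3 h0 h01 h12 h23 h3 s0 s1 s2 s3 x0 x1 x2 (mem_range.1 hx0)
        (mem_range.1 hx1) (mem_range.1 hx2))
    (fun x0 hx0 x1 hx1 => by
      rw [card_range]
      exact h.inner3 Bd R hK v0 v1 v2 h0 h01 h12 (by omega) s0 s1 s2 x0 x1 (mem_range.1 hx0)
        (mem_range.1 hx1))
    (fun x0 hx0 => by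
      rw [card_range]
      exact h.inner2 Bd R hK v0 v1 h01 (by omega) s0 s1 x0 (mem_range.1 hx0))
  simp only [card_range] at key
  refine le_trans (le_of_eq ?_) key
  unfold PP EE
  ring

end

end Pool.Agent.U570.AH
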