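import Pool.Agent.U570.AH.NTb

/-! The general theorem for chains of intervals. -/

set_option autoImplicit false

namespace Pool.Agent.U570.AH

open Finset Filter Pool.Agent.U570.AF

open Classical in
/-- the complement of a large set -/
theorem compl_card (ε : ℝ) (L X : ℕ) (P : ℕ → Prop)
    (h : (((Ico X (X + L)).filter P).card : ℝ) < (1 - ε) * (L : ℝ)) :
    ε * (L : ℝ) ≤ (((range L).filter (fun z => ¬ P (X + z))).card : ℝ) := by
  have h3 := Finset.card_filter_add_card_filter_not (s := Ico X (X + L)) P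
  rw [Nat.card_Ico, Nat.add_sub_cancel_left] at h3
  have h4 : (((Ico X (X + L)).filter P).card : ℝ) +
      (((Ico X (X + L)).filter (fun x => ¬ P x)).card : ℝ) = L := by exact_mod_cast h3
  have h5 : ((Ico X (X + L)).filter (fun x => ¬ P x)).card ≤
      ((range L).filter (fun z => ¬ P (X + z))).card := by
    refine card_le_card_of_injOn (fun x => x - X) ?_ ?_
    · intro x hx
      rw [mem_coe, mem_filter, mem_Ico] at hx
      rw [mem_coe, mem_filter, mem_range]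
      beta_reduce
      have h7 : X + (x - X) = x := by omega
      rw [h7]
      exact ⟨by omega, hx.2⟩
    · intro x hx x' hx' hxx
      rw [mem_coe, mem_filter, mem_Ico] at hx hx'
      simp only at hxx
      omega
  have h6 : (((Ico X (X + L)).filter (fun x => ¬ P x)).card : ℝ) ≤
      (((range L).filter (fun z => ¬ P (X + z))).card : ℝ) := by exact_mod_cast h5
  linarith

open Classical in
/-- **the general theorem** -/
theorem main_g : ∃ B₀ : ℕ, ∀ ε : ℝ, 0 < ε → ε ≤ 1 → ∃ T R : ℕ, 1 ≤ T ∧ 1 ≤ R ∧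
    ∀ (M : ℕ) (s : ℕ → ℕ → ℕ) (h : ℕ → ℕ → ℤ) (A B : ℕ → ℕ → ℕ → ℕ) (G : ℕ → ℕ → ℕ → ℤ),
      Da T R M s h A B G →
    ∃ Γ : ℕ, 1 ≤ Γ ∧ ∀ L X : ℕ → ℕ, Γ ≤ L 0 → (∀ i, 1 ≤ i → Γ * (L (i - 1) + X (i - 1)) ≤ L i) →
    ∀ Z : ℕ, Γ * (L T + X T) ≤ Z →
    ∃ i j v w : ℕ, i < j ∧ j ≤ T ∧ v < R ∧ w < R ∧
      (1 - ε) * (L j : ℝ) ≤ (((Ico (X j) (X j + L j)).filter (fun x : ℕ =>
        GoodZ B₀ (A i j (2 * R * (j - i) + w - v)) (B i j (2 * R * (j - i) + w - v))
          (G i j (2 * R * (j - i) + w - v) + A i j (2 * R * (j - i) + w - v) *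
            ((M : ℤ) ^ (2 * (T - j) + 1) * (x : ℤ))) Z)).card : ℝ) := by
  obtain ⟨B₀, C, δ, hC, hδ, hnt⟩ := nt_g
  refine ⟨B₀, fun ε hε hε1 => ?_⟩
  obtain ⟨T, R, hT, hR, c, hc, hcore⟩ := core ε hε hε1
  refine ⟨T, R, hT, hR, fun M s h A B G D => ?_⟩
  obtain ⟨N, hN1, hN⟩ : ∃ N : ℕ, 1 ≤ N ∧ C * (N : ℝ) ^ (-δ) < c := by
    have h1 : Tendsto (fun N : ℕ => C * (N : ℝ) ^ (-δ)) atTop (nhds (C * 0)) :=
      ((tendsto_rpow_neg_atTop hδ).comp tendsto_natCast_atTop_atTop).const_mul C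
    rw [mul_zero] at h1
    have h2 := (h1.eventually (gt_mem_nhds hc)).and (eventually_ge_atTop 1)
    obtain ⟨N, h3, h4⟩ := h2.exists
    exact ⟨N, h4, h3⟩
  obtain ⟨Q, hQ⟩ : ∃ Q : ℕ, ∀ i j k, i < j → j ≤ T → k ≤ 2 * R * (T + 1) → nu M A B i j k ≤ Q := by
    refine ⟨∑ i ∈ range (T + 1), ∑ j ∈ range (T + 1), ∑ k ∈ range (2 * R * (T + 1) + 1),
      nu M A B i j k, fun i j k hij hj hk => ?_⟩
    have h1 : nu M A B i j k ≤ ∑ k ∈ range (2 * R * (T + 1) + 1), nu M A B i j k :=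
      single_le_sum (f := fun k => nu M A B i j k) (fun _ _ => Nat.zero_le _) (mem_range.2 (by omega))
    have h2 : ∑ k ∈ range (2 * R * (T + 1) + 1), nu M A B i j k ≤
        ∑ j ∈ range (T + 1), ∑ k ∈ range (2 * R * (T + 1) + 1), nu M A B i j k :=
      single_le_sum (f := fun j => ∑ k ∈ range (2 * R * (T + 1) + 1), nu M A B i j k)
        (fun _ _ => Nat.zero_le _) (mem_range.2 (by omega))
    have h3 : ∑ j ∈ range (T + 1), ∑ k ∈ range (2 * R * (T + 1) + 1), nu M A B i j k ≤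
        ∑ i ∈ range (T + 1), ∑ j ∈ range (T + 1), ∑ k ∈ range (2 * R * (T + 1) + 1), nu M A B i j k :=
      single_le_sum (f := fun i => ∑ j ∈ range (T + 1), ∑ k ∈ range (2 * R * (T + 1) + 1),
        nu M A B i j k) (fun _ _ => Nat.zero_le _) (mem_range.2 (by omega))
    exact h1.trans (h2.trans h3)
  obtain ⟨Γc, hΓc, hfin⟩ := hcore M Q D.M1 (nu M A B)
    (fun i j k k' hij hj hk hk' hkk => by
      have h1 := D.dif i j k k' hij hj hk hk' hkk
      have h2 : ((nu M A B i j k : ℤ) - nu M A B i j k') = (M : ℤ) ^ (2 * (j - i) - 1) *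
          (((B i j k * (M / A i j k) : ℕ) : ℤ) - ((B i j k' * (M / A i j k') : ℕ) : ℤ)) := by
        unfold nu
        push_cast
        ring
      have h3 : ((M ^ (2 * (j - i) + 1) : ℕ) : ℤ) = (M : ℤ) ^ (2 * (j - i) - 1) * (M : ℤ) ^ 2 := by
        push_cast
        rw [← pow_add]
        congr 1
        omega
      rw [h2, h3]
      exact mul_dvd_mul_left _ h1)
    (fun i j k _ _ _ => Dvd.intro _ rfl) hQ
  obtain ⟨Γ₀, hΓ₀⟩ := hnt T R M s h A B G hR D
  refine ⟨Γc ^ 5 + Γ₀ + N, by have := Nat.one_le_pow 5 _ hΓc; omega, ?_⟩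
  intro L X hL0 hLX Z hZ
  by_contra hcon
  push Not at hcon
  have hstep : ∀ i, L i + X i ≤ L (i + 1) := fun i => by
    have h1 := hLX (i + 1) (by omega)
    rw [Nat.add_sub_cancel] at h1
    refine le_trans (Nat.le_mul_of_pos_left _ ?_) h1
    have := Nat.one_le_pow 5 _ hΓc
    omega
  have hmono : Monotone L := monotone_nat_of_le_succ fun i => (Nat.le_add_right _ _).trans (hstep i)
  have hLN : ∀ i, N ≤ L i := fun i => by
    have := hmono (Nat.zero_le i)
    omega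
  have hL1 : ∀ i, 1 ≤ L i := fun i => by have := hLN i; omega
  have hmax : ∀ i, i ≤ T → L i + X i ≤ L T + X T := by
    intro i hi
    rcases Nat.eq_or_lt_of_le hi with h1 | h1
    · rw [h1]
    · have h2 := hstep i
      have h3 : L (i + 1) ≤ L T := hmono h1
      omega
  obtain ⟨Bd, hBd⟩ : ∃ Bd : ℕ → ℕ → ℕ → ℕ → Prop, Bd = fun (i j k x : ℕ) =>
    (∃ v w : ℕ, v < R ∧ w < R ∧ k = 2 * R * (j - i) + w - v) → ¬ GoodZ B₀ (A i j k) (B i j k)
      (G i j k + A i j k * ((M : ℤ) ^ (2 * (T - j) + 1) * (x : ℤ))) Z := ⟨_, rfl⟩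
  obtain ⟨i, hi, hiT, hcount⟩ := hfin L X hL1 (fun i hi => by
      refine le_trans ?_ (hLX i hi)
      exact Nat.mul_le_mul_right _ (by omega)) Bd (by
    intro i j k hij hj hk1 hk2
    by_cases hwin : ∃ v w : ℕ, v < R ∧ w < R ∧ k = 2 * R * (j - i) + w - v
    · obtain ⟨v, w, hv, hw, hk⟩ := hwin
      have h1 := hcon i j v w hij hj hv hw
      rw [← hk] at h1
      refine (compl_card ε (L j) (X j) _ h1).trans ?_
      rw [Nat.cast_le]
      refine card_le_card fun z hz => ?_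
      rw [mem_filter] at hz ⊢
      rw [hBd]
      exact ⟨hz.1, fun _ => hz.2⟩
    · have h2 : ((range (L j)).filter (fun z => Bd i j k (X j + z))) = range (L j) := by
        refine filter_true_of_mem fun z _ => ?_
        rw [hBd]
        exact fun h => absurd h hwin
      rw [h2, card_range]
      exact mul_le_of_le_one_left (Nat.cast_nonneg _) hε1)
  have h1 := hΓ₀ N hN1 L X hLN hmax Z (by
    refine le_trans ?_ hZ
    exact Nat.mul_le_mul_right _ (by omega)) i hi hiT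
  have h2 : 0 < ∏ c, (((range R ×ˢ range (L (i c))).card : ℕ) : ℝ) := by
    refine prod_pos fun c _ => ?_
    rw [card_product, card_range, card_range]
    have h3 : 0 < R * L (i c) := Nat.mul_pos hR (by have := hL1 (i c); omega)
    exact_mod_cast h3
  have h3 : c * ∏ c, (((range R ×ˢ range (L (i c))).card : ℕ) : ℝ) ≤
      C * (N : ℝ) ^ (-δ) * ∏ c, (((range R ×ˢ range (L (i c))).card : ℕ) : ℝ) := by
    refine hcount.trans (le_trans ?_ h1)
    rw [Nat.cast_le]
    refine card_le_card fun w hw => ?_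
    rw [mem_filter] at hw ⊢
    refine ⟨hw.1, fun a b hab => ?_⟩
    obtain ⟨z, hz1, hz2⟩ := hw.2 a b hab
    have hwa := mem_range.1 (mem_product.1 (Fintype.mem_piFinset.1 hw.1 a)).1
    have hwb := mem_range.1 (mem_product.1 (Fintype.mem_piFinset.1 hw.1 b)).1
    rw [hBd] at hz2
    exact ⟨z, hz1, hz2 ⟨(w a).1, (w b).1, hwa, hwb, rfl⟩⟩
  have h4 := le_of_mul_le_mul_right h3 h2
  linarith

end Pool.Agent.U570.AH
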