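import Pool.Agent.U570.AH.Simple
import Pool.Agent.U570.AG.NT

/-! The equations near the iterated equations of every triple. -/

set_option autoImplicit false

namespace Pool.Agent.U570.AH

open Finset Filter Pool.Agent.U570.AF
open Pool.Agent.U570.AG (slope_inj)

/-- the right-hand side of the iterated equation -/
def rhs (a b : ℕ) (c : ℤ) (k : ℕ) : ℤ := c * ∑ i ∈ range k, (a : ℤ) ^ i * (b : ℤ) ^ (k - 1 - i)

theorem rhs_mul (a b : ℕ) (c : ℤ) (k : ℕ) :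
    ((a : ℤ) - b) * rhs a b c k = c * ((a : ℤ) ^ k - (b : ℤ) ^ k) := by
  have h := geom_sum₂_mul (a : ℤ) (b : ℤ) k
  unfold rhs
  rw [← h]
  ring

/-- the part of `6` prime to `a b` -/
def q6 (a b : ℕ) : ℤ := (if 2 ∣ a * b then 1 else 2) * (if 3 ∣ a * b then 1 else 3)

theorem six_dvd (a b : ℤ) : (6 : ℤ) ∣ a * b * (a ^ 6 - b ^ 6) := by
  have h : ∀ x y : ZMod 6, x * y * (x ^ 6 - y ^ 6) = 0 := by decide
  have h1 := h (a : ZMod 6) (b : ZMod 6)
  refine (ZMod.intCast_zmod_eq_zero_iff_dvd _ 6).1 ?_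
  push_cast
  exact h1

theorem q6_dvd (a b : ℕ) : ((a : ℤ) - b) * q6 a b ∣ (a : ℤ) ^ 6 - (b : ℤ) ^ 6 := by
  obtain ⟨s, hs⟩ : ∃ s : ℤ, s = ((a : ℤ) + b) * (a ^ 2 + a * b + b ^ 2) * (a ^ 2 - a * b + b ^ 2) := ⟨_, rfl⟩
  have e : (a : ℤ) ^ 6 - (b : ℤ) ^ 6 = ((a : ℤ) - b) * s := by rw [hs]; ring
  rw [e]
  refine mul_dvd_mul_left _ ?_
  have h2 : ¬ 2 ∣ a * b → (2 : ℤ) ∣ s := by
    intro h
    have h0 : ∀ x y : ZMod 2, x * y ≠ 0 →
      (x + y) * (x ^ 2 + x * y + y ^ 2) * (x ^ 2 - x * y + y ^ 2) = 0 := by decide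
    have h1 := h0 (a : ZMod 2) (b : ZMod 2) (by
      intro h3
      apply h
      rw [← ZMod.natCast_eq_zero_iff]
      push_cast
      exact h3)
    have h4 : ((s : ℤ) : ZMod 2) = 0 := by rw [hs]; push_cast; exact h1
    exact (ZMod.intCast_zmod_eq_zero_iff_dvd s 2).1 h4
  have h3 : ¬ 3 ∣ a * b → (3 : ℤ) ∣ s := by
    intro h
    have h0 : ∀ x y : ZMod 3, x * y ≠ 0 →
      (x + y) * (x ^ 2 + x * y + y ^ 2) * (x ^ 2 - x * y + y ^ 2) = 0 := by decide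
    have h1 := h0 (a : ZMod 3) (b : ZMod 3) (by
      intro h3
      apply h
      rw [← ZMod.natCast_eq_zero_iff]
      push_cast
      exact h3)
    have h4 : ((s : ℤ) : ZMod 3) = 0 := by rw [hs]; push_cast; exact h1
    exact (ZMod.intCast_zmod_eq_zero_iff_dvd s 3).1 h4
  unfold q6
  refine IsCoprime.mul_dvd ?_ ?_ ?_
  · split_ifs
    · exact isCoprime_one_left
    · exact isCoprime_one_left
    · exact isCoprime_one_right
    · rw [Int.isCoprime_iff_gcd_eq_one]; norm_num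
  · split_ifs with h
    · exact one_dvd _
    · exact h2 h
  · split_ifs with h
    · exact one_dvd _
    · exact h3 h

theorem q6_cop (a b : ℕ) : IsCoprime (q6 a b) ((a : ℤ) * b) := by
  have h2 : ¬ 2 ∣ a * b → IsCoprime (2 : ℤ) ((a : ℤ) * b) := by
    intro h
    have h1 := (Nat.Prime.coprime_iff_not_dvd Nat.prime_two).2 h
    have := Nat.isCoprime_iff_coprime.2 h1
    push_cast at this
    exact this
  have h3 : ¬ 3 ∣ a * b → IsCoprime (3 : ℤ) ((a : ℤ) * b) := by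
    intro h
    have h1 := (Nat.Prime.coprime_iff_not_dvd Nat.prime_three).2 h
    have := Nat.isCoprime_iff_coprime.2 h1
    push_cast at this
    exact this
  unfold q6
  refine IsCoprime.mul_left ?_ ?_
  · split_ifs with h
    · exact isCoprime_one_left
    · exact h2 h
  · split_ifs with h
    · exact isCoprime_one_left
    · exact h3 h

theorem six_dvd_q6 (a b : ℕ) : (6 : ℤ) ∣ q6 a b * ((a : ℤ) * b) := by
  have e : (6 : ℤ) = 2 * 3 := by norm_num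
  rw [e]
  refine IsCoprime.mul_dvd (by rw [Int.isCoprime_iff_gcd_eq_one]; norm_num) ?_ ?_
  · by_cases h : 2 ∣ a * b
    · have h' : (2 : ℤ) ∣ (a : ℤ) * b := by exact_mod_cast h
      exact h'.mul_left _
    · unfold q6
      rw [if_neg h]
      exact Dvd.dvd.mul_right (Dvd.intro _ rfl) _
  · by_cases h : 3 ∣ a * b
    · have h' : (3 : ℤ) ∣ (a : ℤ) * b := by exact_mod_cast h
      exact h'.mul_left _
    · unfold q6
      rw [if_neg h]
      exact Dvd.dvd.mul_right (Dvd.intro_left _ rfl) _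

/-- the residues of the vertices -/
theorem resid (a b : ℕ) (c : ℤ) (hab : IsCoprime (a : ℤ) b) (hac : IsCoprime (a : ℤ) c)
    (hbc : IsCoprime (b : ℤ) c) (j K : ℕ) :
    ∃ (ρ : ℤ) (h : ℕ → ℤ), ∀ E, E ≤ K → ((a : ℤ) - b) * h E =
      c + ρ * (((a : ℤ) ^ (6 * (j + 1))) ^ (K + 1 - E) * ((b : ℤ) ^ (6 * (j + 1))) ^ (E + 1)) ∧
      IsCoprime (h E) (6 * ((a : ℤ) * b)) ∨ (a : ℤ) - b = 0 := by
  by_cases hne : (a : ℤ) - b = 0
  · exact ⟨0, fun _ => 0, fun _ _ => Or.inr hne⟩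
  obtain ⟨A, hA⟩ : ∃ A : ℤ, A = (a : ℤ) ^ (6 * (j + 1)) := ⟨_, rfl⟩
  obtain ⟨B, hB⟩ : ∃ B : ℤ, B = (b : ℤ) ^ (6 * (j + 1)) := ⟨_, rfl⟩
  obtain ⟨D, hD⟩ : ∃ D : ℤ, D = ((a : ℤ) - b) * q6 a b := ⟨_, rfl⟩
  have hDAB : D ∣ A - B := by
    rw [hD, hA, hB, pow_mul, pow_mul]
    exact (q6_dvd a b).trans (sub_dvd_pow_sub_pow _ _ _)
  have haD : IsCoprime (a : ℤ) D := by
    rw [hD]
    refine IsCoprime.mul_right ?_ ?_
    · have h1 := hab.neg_right.add_mul_left_right 1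
      have e : -(b : ℤ) + a * 1 = (a : ℤ) - b := by ring
      rw [e] at h1
      exact h1
    · exact (IsCoprime.of_mul_right_left (q6_cop a b)).symm
  have hAD : IsCoprime (A ^ (K + 2)) D := by
    rw [hA]
    exact haD.pow_left.pow_left
  obtain ⟨u, w, huw⟩ := hAD
  obtain ⟨ρ, hρ⟩ : ∃ ρ : ℤ, ρ = ((a : ℤ) - b - c) * u := ⟨_, rfl⟩
  have hy : ∀ E, ∃ y : ℤ, E ≤ K → c + ρ * (A ^ (K + 1 - E) * B ^ (E + 1)) = ((a : ℤ) - b) + D * y := by
    intro E
    by_cases hE : E ≤ K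
    · have h1 : D ∣ A ^ (E + 1) - B ^ (E + 1) := hDAB.trans (sub_dvd_pow_sub_pow _ _ _)
      obtain ⟨z, hz⟩ := h1
      refine ⟨-(ρ * A ^ (K + 1 - E) * z) - ((a : ℤ) - b - c) * w, fun _ => ?_⟩
      have e1 : A ^ (K + 2) = A ^ (K + 1 - E) * A ^ (E + 1) := by
        rw [← pow_add]; congr 1; omega
      have e2 : B ^ (E + 1) = A ^ (E + 1) - D * z := by linarith
      rw [e2]
      rw [e1] at huw
      rw [hρ]
      linear_combination ((a : ℤ) - b - c) * huw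
    · exact ⟨0, fun h => absurd h hE⟩
  choose y hy using hy
  refine ⟨ρ, fun E => 1 + q6 a b * y E, fun E hE => Or.inl ?_⟩
  have h1 := hy E hE
  have e1 : ((a : ℤ) - b) * (1 + q6 a b * y E) = c + ρ * (A ^ (K + 1 - E) * B ^ (E + 1)) := by
    rw [h1, hD]; ring
  rw [← hA, ← hB]
  refine ⟨e1, ?_⟩
  have c1 : IsCoprime (1 + q6 a b * y E) (a : ℤ) := by
    obtain ⟨A', hA'⟩ : (a : ℤ) ∣ A ^ (K + 1 - E) := by
      rw [hA, ← pow_mul]
      refine dvd_pow_self _ (Nat.mul_ne_zero (by omega) (by omega))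
    have h2 : IsCoprime (a : ℤ) (c + (a : ℤ) * (ρ * (A' * B ^ (E + 1)))) := hac.add_mul_left_right _
    have h3 : c + (a : ℤ) * (ρ * (A' * B ^ (E + 1))) = ((a : ℤ) - b) * (1 + q6 a b * y E) := by
      rw [e1, hA']; ring
    rw [h3] at h2
    exact (IsCoprime.of_mul_right_right h2).symm
  have c2 : IsCoprime (1 + q6 a b * y E) (b : ℤ) := by
    obtain ⟨B', hB'⟩ : (b : ℤ) ∣ B ^ (E + 1) := by
      rw [hB, ← pow_mul]
      refine dvd_pow_self _ (Nat.mul_ne_zero (by omega) (by omega))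
    have h2 : IsCoprime (b : ℤ) (c + (b : ℤ) * (ρ * (A ^ (K + 1 - E) * B'))) := hbc.add_mul_left_right _
    have h3 : c + (b : ℤ) * (ρ * (A ^ (K + 1 - E) * B')) = ((a : ℤ) - b) * (1 + q6 a b * y E) := by
      rw [e1, hB']; ring
    rw [h3] at h2
    exact (IsCoprime.of_mul_right_right h2).symm
  have c3 : IsCoprime (1 + q6 a b * y E) (q6 a b) := by
    have h2 := (isCoprime_one_left (x := q6 a b)).add_mul_left_left (y E)
    exact h2
  have c4 := c1.mul_right c2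
  have c5 := (c3.mul_right c4).of_isCoprime_of_dvd_right (six_dvd_q6 a b)
  exact c5.mul_right c4

end Pool.Agent.U570.AH
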