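import Pool.Agent.U570.AH.Maps
import Pool.Agent.U570.AH.Conv

/-! The equations near the iterated equations of every triple: the data. -/

set_option autoImplicit false

namespace Pool.Agent.U570.AH

open Finset Filter Pool.Agent.U570.AF
open Pool.Agent.U570.AG (slope_inj)

theorem slope_inj' (a b : ℕ) (ha : 1 ≤ a) (hb : 1 ≤ b) (hab : a.Coprime b) (h1 : 1 < a * b) (K e e' : ℕ)
    (he : e ≤ K) (he' : e' ≤ K) (h : a ^ (K - e) * b ^ e = a ^ (K - e') * b ^ e') : e = e' := by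
  rcases lt_trichotomy e e' with h2 | h2 | h2
  · exact absurd h (slope_inj a b ha hb hab h1 K e e' h2 he')
  · exact h2
  · exact absurd h.symm (slope_inj a b ha hb hab h1 K e' e h2 he)

theorem dif_lt (a b M k k' : ℕ) (ha : 1 ≤ a) (hkk : k < k') (hak : a ^ k' ∣ M)
    (hM : (b : ℤ) ^ k * ((a : ℤ) ^ (k' - k) - (b : ℤ) ^ (k' - k)) ∣ (M : ℤ)) :
    (((b ^ k * (M / a ^ k) : ℕ) : ℤ) - ((b ^ k' * (M / a ^ k') : ℕ) : ℤ)) ∣ (M : ℤ) ^ 2 := by
  obtain ⟨h, rfl⟩ : ∃ h, k' = k + h := ⟨k' - k, by omega⟩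
  rw [Nat.add_sub_cancel_left] at hM
  obtain ⟨μ, hμ⟩ := hak
  have ha' : 0 < a ^ (k + h) := pow_pos ha _
  have e1 : M / a ^ (k + h) = μ := by rw [hμ]; exact Nat.mul_div_cancel_left _ ha'
  have e2 : M / a ^ k = a ^ h * μ := by
    rw [hμ, pow_add, mul_assoc]
    exact Nat.mul_div_cancel_left _ (pow_pos ha _)
  have e3 : (((b ^ k * (M / a ^ k) : ℕ) : ℤ) - ((b ^ (k + h) * (M / a ^ (k + h)) : ℕ) : ℤ)) =
      ((b : ℤ) ^ k * ((a : ℤ) ^ h - (b : ℤ) ^ h)) * μ := by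
    rw [e1, e2]
    push_cast
    rw [pow_add]
    ring
  rw [e3, pow_two]
  refine mul_dvd_mul hM ?_
  exact ⟨(a : ℤ) ^ (k + h), by rw [hμ]; push_cast; ring⟩

theorem dif_ne (a b M k k' : ℕ) (ha : 1 ≤ a) (hkk : k ≠ k') (hak : a ^ k ∣ M) (hak' : a ^ k' ∣ M)
    (hM : ∀ l h : ℕ, 1 ≤ h → l + h ≤ max k k' → (b : ℤ) ^ l * ((a : ℤ) ^ h - (b : ℤ) ^ h) ∣ (M : ℤ)) :
    (((b ^ k * (M / a ^ k) : ℕ) : ℤ) - ((b ^ k' * (M / a ^ k') : ℕ) : ℤ)) ∣ (M : ℤ) ^ 2 := by
  rcases lt_or_gt_of_ne hkk with h | h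
  · exact dif_lt a b M k k' ha h hak' (hM k (k' - k) (by omega) (by omega))
  · rw [← neg_sub]
    exact (neg_dvd).2 (dif_lt a b M k' k ha h hak (hM k' (k - k') (by omega) (by omega)))

/-- the data of the iterated equations -/
theorem da_maps (a b : ℕ) (c : ℤ) (ha : 1 ≤ a) (hb : 1 ≤ b) (hab : a.Coprime b) (h1 : 1 < a * b)
    (hac : IsCoprime (a : ℤ) c) (hbc : IsCoprime (b : ℤ) c) (T R M N j : ℕ) (_hT : 1 ≤ T) (hR : 1 ≤ R)
    (hN : 6 * (j + 1) * (2 * R * (T + 1)) ≤ N) (hM1 : 1 ≤ M)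
    (hM : ∀ h : ℕ, 1 ≤ h → h ≤ N → ((a * b : ℕ) : ℤ) ^ N * ((a : ℤ) ^ h - (b : ℤ) ^ h) ∣ (M : ℤ)) :
    ∃ h : ℕ → ℕ → ℤ, Da T R M
      (fun i v => (a ^ (6 * (j + 1))) ^ (2 * R * (T + 1) - (2 * R * i + v)) *
        (b ^ (6 * (j + 1))) ^ (2 * R * i + v)) h
      (fun _ _ k => (a ^ (6 * (j + 1))) ^ k) (fun _ _ k => (b ^ (6 * (j + 1))) ^ k)
      (fun _ _ k => rhs a b c (6 * (j + 1) * k)) := by
  obtain ⟨K, hK⟩ : ∃ K : ℕ, K = 2 * R * (T + 1) := ⟨_, rfl⟩
  obtain ⟨J, hJ⟩ : ∃ J : ℕ, J = 6 * (j + 1) := ⟨_, rfl⟩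
  have habz : IsCoprime (a : ℤ) b := Nat.isCoprime_iff_coprime.2 hab
  have hne : (a : ℤ) - b ≠ 0 := by
    intro h
    have h2 : a = b := by omega
    rw [h2] at hab
    rw [Nat.coprime_self] at hab
    rw [h2, hab] at h1
    omega
  obtain ⟨ρ, η, hη⟩ := resid a b c habz hac hbc j K
  rw [← hJ] at hη
  rw [← hK, ← hJ] at hN
  rw [← hK, ← hJ]
  have hη' : ∀ E, E ≤ K → ((a : ℤ) - b) * η E =
      c + ρ * (((a : ℤ) ^ J) ^ (K + 1 - E) * ((b : ℤ) ^ J) ^ (E + 1)) ∧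
      IsCoprime (η E) (6 * ((a : ℤ) * b)) := fun E hE => (hη E hE).resolve_right hne
  have hJ1 : 1 ≤ J := by omega
  have hK1 : 1 ≤ K := by
    rw [hK]
    exact Nat.mul_pos (by omega) (by omega)
  have hE : ∀ i v, i ≤ T → v < R → 2 * R * i + v ≤ K := by
    intro i v hi hv
    rw [hK]
    have : 2 * R * i ≤ 2 * R * T := Nat.mul_le_mul_left _ hi
    have e : 2 * R * (T + 1) = 2 * R * T + 2 * R := by ring
    omega
  have hJK : J * K ≤ N := hN
  have hpM : ∀ s t : ℕ, s ≤ J * K → t ≤ J * K → a ^ s * b ^ t ∣ M := by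
    intro s t hs ht
    have h2 := hM 1 le_rfl (le_trans (Nat.mul_pos hJ1 hK1) hJK)
    have h3 : ((a : ℤ) ^ s * (b : ℤ) ^ t) ∣ M := by
      refine dvd_trans ?_ (dvd_of_mul_right_dvd h2)
      push_cast
      rw [mul_pow]
      exact mul_dvd_mul (pow_dvd_pow _ (hs.trans hJK)) (pow_dvd_pow _ (ht.trans hJK))
    exact_mod_cast h3
  have hJl : ∀ l, l ≤ K → J * l ≤ J * K := fun l hl => Nat.mul_le_mul_left J hl
  have hAB1 : 1 < a ^ J * b ^ J := by
    rw [← mul_pow]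
    exact Nat.one_lt_pow (by omega) h1
  have hcopAB : (a ^ J).Coprime (b ^ J) := Nat.Coprime.pow _ _ hab
  have ha1 : 1 ≤ a ^ J := Nat.one_le_pow _ _ ha
  have hb1 : 1 ≤ b ^ J := Nat.one_le_pow _ _ hb
  have hE2 : ∀ i l v w, i < l → v < R → w < R →
      2 * R * (l - i) + w - v + (2 * R * i + v) = 2 * R * l + w := by
    intro i l v w hil hv hw
    obtain ⟨d, rfl⟩ : ∃ d, l = i + (d + 1) := ⟨l - i - 1, by omega⟩
    have e1 : i + (d + 1) - i = d + 1 := by omega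
    rw [e1]
    have e2 : 2 * R * (d + 1) = 2 * R * d + 2 * R := by ring
    have e3 : 2 * R * (i + (d + 1)) = 2 * R * i + (2 * R * d + 2 * R) := by ring
    omega
  refine ⟨fun i v => η (2 * R * i + v), ?_⟩
  refine
    { M1 := hM1
      six := ?_
      s1 := ?_
      sM := ?_
      inj := ?_
      cop := ?_
      A1 := ?_
      AM := ?_
      cAB := ?_
      slope := ?_
      const := ?_
      ne := ?_
      dif := ?_ }
  · have h6 : 6 ≤ N := by
      refine le_trans ?_ hJK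
      rw [hJ]
      nlinarith
    have h2 := hM 6 (by omega) h6
    have h3 : (6 : ℤ) ∣ (M : ℤ) := by
      refine dvd_trans (dvd_trans (six_dvd (a : ℤ) b) ?_) h2
      refine mul_dvd_mul_right ?_ _
      push_cast
      exact dvd_pow_self _ (by omega)
    exact_mod_cast h3
  · intro i v hi hv
    exact Nat.mul_pos (Nat.pow_pos ha1) (Nat.pow_pos hb1)
  · intro i v hi hv
    rw [← pow_mul, ← pow_mul]
    exact hpM _ _ (hJl _ (Nat.sub_le _ _)) (hJl _ (hE i v hi hv))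
  · intro i v w hi hv hw h
    have := slope_inj' (a ^ J) (b ^ J) ha1 hb1 hcopAB hAB1 K _ _ (hE i v hi hv) (hE i w hi hw) h
    omega
  · intro i v hi hv
    have h2 := (hη' _ (hE i v hi hv)).2
    have h3 := IsCoprime.of_mul_right_left h2
    have h4 := IsCoprime.of_mul_right_right h2
    refine h3.mul_right ?_
    push_cast
    exact (((IsCoprime.of_mul_right_left h4).pow_right).pow_right).mul_right
      (((IsCoprime.of_mul_right_right h4).pow_right).pow_right)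
  · intro i l k _ _ _
    exact Nat.pow_pos ha1
  · intro i l k _ _ hk
    rw [← pow_mul]
    rw [← hK] at hk
    have := hpM (J * k) 0 (hJl _ hk) (Nat.zero_le _)
    rwa [pow_zero, mul_one] at this
  · intro i l k _ _ _
    exact Nat.Coprime.pow _ _ hcopAB
  · intro i l v w hil hl hv hw
    have e1 := hE2 i l v w hil hv hw
    have e2 := hE l w hl hw
    obtain ⟨k, hk⟩ : ∃ k, k = 2 * R * (l - i) + w - v := ⟨_, rfl⟩
    rw [← hk] at e1 ⊢
    have e3 : K - (2 * R * i + v) = k + (K - (2 * R * l + w)) := by omega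
    rw [e3, ← e1, pow_add, pow_add]
    ring
  · intro i l v w hil hl hv hw
    have e1 := hE2 i l v w hil hv hw
    have e2 := hE l w hl hw
    have e2' := hE i v (by omega) hv
    obtain ⟨k, hk⟩ : ∃ k, k = 2 * R * (l - i) + w - v := ⟨_, rfl⟩
    rw [← hk] at e1 ⊢
    have h2 := (hη' _ e2).1
    have h3 := (hη' _ e2').1
    have h4 := rhs_mul a b c (J * k)
    apply mul_left_cancel₀ hne
    rw [h4]
    have e3 : K + 1 - (2 * R * i + v) = k + (K + 1 - (2 * R * l + w)) := by omega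
    have e4 : ((b : ℤ) ^ J) ^ (2 * R * l + w + 1) = ((b : ℤ) ^ J) ^ k * ((b : ℤ) ^ J) ^ (2 * R * i + v + 1) := by
      rw [← pow_add]; congr 1; omega
    rw [e3, pow_add] at h3
    rw [e4] at h2
    push_cast
    rw [pow_mul, pow_mul]
    linear_combination (((a : ℤ) ^ J) ^ k) * h2 - (((b : ℤ) ^ J) ^ k) * h3
  · intro i l v w hil hl hv hw h
    have h2 := slope_inj' (a ^ J) (b ^ J) ha1 hb1 hcopAB hAB1 K _ _ (hE i v (by omega) hv) (hE l w hl hw) h
    have h3 : 2 * R * (i + 1) ≤ 2 * R * l := Nat.mul_le_mul_left _ hil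
    have e : 2 * R * (i + 1) = 2 * R * i + 2 * R := by ring
    omega
  · intro i l k k' _ _ hk hk' hkk
    rw [← hK] at hk hk'
    refine dif_ne (a ^ J) (b ^ J) M k k' ha1 hkk ?_ ?_ ?_
    · rw [← pow_mul]
      have := hpM (J * k) 0 (hJl _ hk) (Nat.zero_le _)
      rwa [pow_zero, mul_one] at this
    · rw [← pow_mul]
      have := hpM (J * k') 0 (hJl _ hk') (Nat.zero_le _)
      rwa [pow_zero, mul_one] at this
    · intro l h hh hlh
      have hlh' : l + h ≤ K := hlh.trans (max_le hk hk')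
      have h2 := hM (J * h) (Nat.mul_pos hJ1 hh) ((hJl h (by omega)).trans hJK)
      refine dvd_trans ?_ h2
      push_cast
      rw [← pow_mul, ← pow_mul, ← pow_mul]
      refine mul_dvd_mul_right ?_ _
      rw [mul_pow]
      exact Dvd.dvd.mul_left (pow_dvd_pow _ ((hJl l (by omega)).trans hJK)) _

end Pool.Agent.U570.AH
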