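import Pool.Agent.U570.AH.MapsB

/-! The equations near the iterated equations of every triple: a positive proportion of the exponents. -/

set_option autoImplicit false

namespace Pool.Agent.U570.AH

open Finset Filter Pool.Agent.U570.AF

theorem lg_mono {ε ε' : ℝ} (h : ε' ≤ ε) {X Y : ℕ} {P : ℕ → ℕ → Prop} (hl : Lg ε' X Y P) : Lg ε X Y P := by
  obtain ⟨E, hE, hc, hf⟩ := hl
  refine ⟨E, hE, le_trans ?_ hc, hf⟩
  exact mul_le_mul_of_nonneg_right (by linarith) (Nat.cast_nonneg _)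

/-- one exponent -/
theorem maps1 : ∃ B₀ : ℕ, ∀ ε : ℝ, 0 < ε → ∃ K A : ℕ, 1 ≤ K ∧ ∀ (a b : ℕ) (c : ℤ), 1 ≤ a → 1 ≤ b →
    a.Coprime b → 1 < a * b → IsCoprime (a : ℤ) c → IsCoprime (b : ℤ) c → ∀ j N M : ℕ,
    6 * (j + 1) * K ≤ N → 1 ≤ M →
    (∀ h : ℕ, 1 ≤ h → h ≤ N → ((a * b : ℕ) : ℤ) ^ N * ((a : ℤ) ^ h - (b : ℤ) ^ h) ∣ (M : ℤ)) →
    ∃ Y₀ : ℕ, ∀ Y : ℕ, Y₀ ≤ Y → ∀ X : ℕ, ∃ k α : ℕ, 1 ≤ k ∧ k ≤ K ∧ 1 ≤ α ∧ α ≤ A ∧
      Lg ε X Y (fun x Z => GoodZ B₀ (a ^ (6 * (j + 1) * k)) (b ^ (6 * (j + 1) * k))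
        (rhs a b c (6 * (j + 1) * k) + ((a ^ (6 * (j + 1) * k) * M ^ α : ℕ) : ℤ) * (x : ℤ)) Z) := by
  obtain ⟨B₀, hmain⟩ := simple_g
  refine ⟨B₀, fun ε hε => ?_⟩
  obtain ⟨ε', hε'0, hε'1, hε'⟩ : ∃ ε' : ℝ, 0 < ε' ∧ ε' ≤ 1 ∧ ε' ≤ ε :=
    ⟨min ε 1, by positivity, min_le_right _ _, min_le_left _ _⟩
  obtain ⟨T, R, hT, hR, hm⟩ := hmain ε' hε'0 hε'1
  refine ⟨2 * R * (T + 1), 2 * T + 1, Nat.mul_pos (by omega) (by omega), ?_⟩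
  intro a b c ha hb hab h1 hac hbc j N M hN hM1 hM
  obtain ⟨h, D⟩ := da_maps a b c ha hb hab h1 hac hbc T R M N j hT hR hN hM1 hM
  obtain ⟨Y₀, hY⟩ := hm _ _ _ _ _ _ D
  refine ⟨Y₀, fun Y hYY X => ?_⟩
  obtain ⟨i, l, v, w, hil, hl, hv, hw, h2⟩ := hY Y hYY X
  obtain ⟨k, hk⟩ : ∃ k, k = 2 * R * (l - i) + w - v := ⟨_, rfl⟩
  rw [← hk] at h2
  have h3 : 1 ≤ k ∧ k ≤ 2 * R * (T + 1) := by
    obtain ⟨d, rfl⟩ : ∃ d, l = i + (d + 1) := ⟨l - i - 1, by omega⟩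
    have e1 : i + (d + 1) - i = d + 1 := by omega
    rw [e1] at hk
    have e2 : 2 * R * (d + 1) = 2 * R * d + 2 * R := by ring
    have e3 : 2 * R * (d + 1) ≤ 2 * R * T := Nat.mul_le_mul_left _ (by omega)
    have e4 : 2 * R * (T + 1) = 2 * R * T + 2 * R := by ring
    omega
  refine ⟨k, 2 * (T - l) + 1, h3.1, h3.2, by omega, by omega, ?_⟩
  have h4 := lg_mono hε' h2
  have e : ∀ x : ℕ, rhs a b c (6 * (j + 1) * k) + (((a ^ (6 * (j + 1))) ^ k : ℕ) : ℤ) *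
      ((M : ℤ) ^ (2 * (T - l) + 1) * (x : ℤ)) = rhs a b c (6 * (j + 1) * k) +
      ((a ^ (6 * (j + 1) * k) * M ^ (2 * (T - l) + 1) : ℕ) : ℤ) * (x : ℤ) := by
    intro x
    push_cast
    rw [pow_mul]
    ring
  simp only [e] at h4
  rw [← pow_mul, ← pow_mul] at h4
  exact h4

open Classical in
/-- **a positive proportion of the exponents** -/
theorem maps : ∃ B₀ : ℕ, ∀ ε : ℝ, 0 < ε → ∃ K A : ℕ, 1 ≤ K ∧ ∀ (a b : ℕ) (c : ℤ), 1 ≤ a → 1 ≤ b →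
    a.Coprime b → 1 < a * b → IsCoprime (a : ℤ) c → IsCoprime (b : ℤ) c → ∀ N M : ℕ, 1 ≤ M →
    (∀ h : ℕ, 1 ≤ h → h ≤ N → ((a * b : ℕ) : ℤ) ^ N * ((a : ℤ) ^ h - (b : ℤ) ^ h) ∣ (M : ℤ)) →
    ∃ Y₀ : ℕ, ∀ Y : ℕ, Y₀ ≤ Y → ∀ X : ℕ, N / K ≤ ((Icc 1 N).filter (fun k => ∃ α : ℕ, 1 ≤ α ∧ α ≤ A ∧
      Lg ε X Y (fun x Z => GoodZ B₀ (a ^ k) (b ^ k)
        (rhs a b c k + ((a ^ k * M ^ α : ℕ) : ℤ) * (x : ℤ)) Z))).card := by
  obtain ⟨B₀, hmain⟩ := maps1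
  refine ⟨B₀, fun ε hε => ?_⟩
  obtain ⟨K, A, hK, h⟩ := hmain ε hε
  refine ⟨6 * K * K, A, Nat.mul_pos (by omega) hK, fun a b c ha hb hab h1ab hac hbc N M hM1 hM => ?_⟩
  have hj : ∀ j : ℕ, ∃ Y₀ : ℕ, 6 * (j + 1) * K ≤ N → ∀ Y : ℕ, Y₀ ≤ Y → ∀ X : ℕ,
      ∃ k α : ℕ, 1 ≤ k ∧ k ≤ K ∧ 1 ≤ α ∧ α ≤ A ∧
      Lg ε X Y (fun x Z => GoodZ B₀ (a ^ (6 * (j + 1) * k)) (b ^ (6 * (j + 1) * k))
        (rhs a b c (6 * (j + 1) * k) + ((a ^ (6 * (j + 1) * k) * M ^ α : ℕ) : ℤ) * (x : ℤ)) Z) := by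
    intro j
    by_cases hj : 6 * (j + 1) * K ≤ N
    · obtain ⟨Y₀, hY⟩ := h a b c ha hb hab h1ab hac hbc j N M hj hM1 hM
      exact ⟨Y₀, fun _ => hY⟩
    · exact ⟨0, fun h1 => absurd h1 hj⟩
  choose fY hfY using hj
  refine ⟨(range (N + 1)).sup fY, fun Y hY X => ?_⟩
  obtain ⟨J, hJ⟩ : ∃ J : ℕ, J = N / (6 * K) := ⟨_, rfl⟩
  have hJN : ∀ j ∈ range J, 6 * (j + 1) * K ≤ N := by
    intro j hj
    rw [mem_range] at hj
    have h2 : (j + 1) * (6 * K) ≤ J * (6 * K) := Nat.mul_le_mul_right _ hj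
    have h3 : J * (6 * K) ≤ N := by rw [hJ]; exact Nat.div_mul_le_self _ _
    have e : 6 * (j + 1) * K = (j + 1) * (6 * K) := by ring
    omega
  have hjk : ∀ j : ℕ, ∃ k : ℕ, j ∈ range J → 1 ≤ k ∧ k ≤ K ∧ ∃ α : ℕ, 1 ≤ α ∧ α ≤ A ∧
      Lg ε X Y (fun x Z => GoodZ B₀ (a ^ (6 * (j + 1) * k)) (b ^ (6 * (j + 1) * k))
        (rhs a b c (6 * (j + 1) * k) + ((a ^ (6 * (j + 1) * k) * M ^ α : ℕ) : ℤ) * (x : ℤ)) Z) := by
    intro j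
    by_cases hj : j ∈ range J
    · have h2 := hJN j hj
      have h3 : j ≤ N := by
        have : 1 * (j + 1) * 1 ≤ 6 * (j + 1) * K := Nat.mul_le_mul (Nat.mul_le_mul_right _ (by omega)) hK
        omega
      have h4 : fY j ≤ (range (N + 1)).sup fY := le_sup (f := fY) (mem_range.2 (by omega))
      obtain ⟨k, α, hk1, hkK, hα1, hα, h5⟩ := hfY j h2 Y (h4.trans hY) X
      exact ⟨k, fun _ => ⟨hk1, hkK, α, hα1, hα, h5⟩⟩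
    · exact ⟨0, fun h1 => absurd h1 hj⟩
  choose kk hkk using hjk
  have h1 : J ≤ K * ((range J).image (fun j => 6 * (j + 1) * kk j)).card := by
    have h2 := card_le_mul_card_image (f := fun j => 6 * (j + 1) * kk j) (range J) K (by
      intro n _
      have h3 : (((range J).filter (fun j => 6 * (j + 1) * kk j = n)).card) ≤ (Icc 1 K).card := by
        refine card_le_card_of_injOn kk ?_ ?_
        · intro j hj
          rw [mem_coe, mem_filter] at hj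
          have h4 := hkk j hj.1
          rw [mem_coe, mem_Icc]
          exact ⟨h4.1, h4.2.1⟩
        · intro j hj j' hj' hjj
          rw [mem_coe, mem_filter] at hj hj'
          have h4 := (hkk j hj.1).1
          have h5 : 6 * (j + 1) * kk j = 6 * (j' + 1) * kk j := by
            rw [hj.2, hjj, hj'.2]
          have h6 := Nat.eq_of_mul_eq_mul_right h4 h5
          omega
      rw [Nat.card_Icc] at h3
      omega)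
    rw [card_range] at h2
    exact h2
  have h2 : ((range J).image (fun j => 6 * (j + 1) * kk j)).card ≤ ((Icc 1 N).filter (fun k =>
      ∃ α : ℕ, 1 ≤ α ∧ α ≤ A ∧ Lg ε X Y (fun x Z => GoodZ B₀ (a ^ k) (b ^ k)
        (rhs a b c k + ((a ^ k * M ^ α : ℕ) : ℤ) * (x : ℤ)) Z))).card := by
    refine card_le_card ?_
    intro n hn
    obtain ⟨j, hj, rfl⟩ := mem_image.1 hn
    obtain ⟨h4, h5, h6⟩ := hkk j hj
    have h8 := hJN j hj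
    rw [mem_filter, mem_Icc]
    exact ⟨⟨Nat.mul_pos (by omega) h4, (Nat.mul_le_mul_left _ h5).trans h8⟩, h6⟩
  rw [← Nat.div_div_eq_div_mul, ← hJ]
  exact (Nat.div_le_of_le_mul h1).trans h2

end Pool.Agent.U570.AH
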