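import Pool.Agent.N900.FC.Main
import Pool.Agent.U570.AH.Core
import Pool.Agent.U570.AF.NT

/-! Few quadruples of linear forms have only bad pairs, at every scale. -/

set_option autoImplicit false

namespace Pool.Agent.U570.AH

open Finset Filter Pool.Agent.U570.AF
open Pool.Agent.N900.FC (Loc fam Bad pattern Cov coverU)
open Pool.Agent.Y827.GS (Adf)

open Classical in
/-- the number of the primes `q ≤ x` such that `a p - b q = c` with `p` prime -/
noncomputable def cnt (a b : ℕ) (c : ℤ) (x : ℕ) : ℕ :=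
  ((Icc 1 x).filter (fun q : ℕ => q.Prime ∧ ∃ p : ℕ, p.Prime ∧ (a : ℤ) * p - b * q = c)).card

/-- an equation of the question with many solutions up to `Z` -/
def GoodZ (B₀ a b : ℕ) (c : ℤ) (Z : ℕ) : Prop :=
  AdmE a b c ∧ (Z : ℝ) / (Real.log Z) ^ B₀ ≤ cnt a b c Z

/-- slopes `s i v`, residues `h i v` and the equations of the pairs of vertices -/
structure Da (T R M : ℕ) (s : ℕ → ℕ → ℕ) (h : ℕ → ℕ → ℤ) (A B : ℕ → ℕ → ℕ → ℕ)
    (G : ℕ → ℕ → ℕ → ℤ) : Prop where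
  M1 : 1 ≤ M
  six : 6 ∣ M
  s1 : ∀ i v, i ≤ T → v < R → 1 ≤ s i v
  sM : ∀ i v, i ≤ T → v < R → s i v ∣ M
  inj : ∀ i v w, i ≤ T → v < R → w < R → s i v = s i w → v = w
  cop : ∀ i v, i ≤ T → v < R → IsCoprime (h i v) (6 * (s i v : ℤ))
  A1 : ∀ i j k, i < j → j ≤ T → k ≤ 2 * R * (T + 1) → 1 ≤ A i j k
  AM : ∀ i j k, i < j → j ≤ T → k ≤ 2 * R * (T + 1) → A i j k ∣ M
  cAB : ∀ i j k, i < j → j ≤ T → k ≤ 2 * R * (T + 1) → (A i j k).Coprime (B i j k)
  slope : ∀ i j v w, i < j → j ≤ T → v < R → w < R →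
    A i j (2 * R * (j - i) + w - v) * s j w = B i j (2 * R * (j - i) + w - v) * s i v
  const : ∀ i j v w, i < j → j ≤ T → v < R → w < R →
    (A i j (2 * R * (j - i) + w - v) : ℤ) * h j w - B i j (2 * R * (j - i) + w - v) * h i v =
      G i j (2 * R * (j - i) + w - v)
  ne : ∀ i j v w, i < j → j ≤ T → v < R → w < R → s i v ≠ s j w
  dif : ∀ i j k k', i < j → j ≤ T → k ≤ 2 * R * (T + 1) → k' ≤ 2 * R * (T + 1) → k ≠ k' →
    (((B i j k * (M / A i j k) : ℕ) : ℤ) - ((B i j k' * (M / A i j k') : ℕ) : ℤ)) ∣ (M : ℤ) ^ 2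

theorem adm_g (si sj A B M : ℕ) (hi hj : ℤ) (_hsi : 1 ≤ si) (hsj : 1 ≤ sj) (hA : 1 ≤ A) (six : 6 ∣ M)
    (hsjM : sj ∣ M) (ci : IsCoprime hi (6 * (si : ℤ))) (cj : IsCoprime hj (6 * (sj : ℤ)))
    (cAB : A.Coprime B) (slope : A * sj = B * si) (ne : si ≠ sj) (α : ℕ) (hα : 1 ≤ α) (z : ℤ) :
    AdmE A B ((A : ℤ) * hj - B * hi + A * ((M : ℤ) ^ α * z)) := by
  have hB : 1 ≤ B := by
    rcases Nat.eq_zero_or_pos B with h | h
    · rw [h, zero_mul] at slope
      have := Nat.mul_pos hA hsj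
      omega
    · exact h
  have hAs : A ∣ si := cAB.dvd_of_dvd_mul_left ⟨sj, slope.symm⟩
  have hBs : B ∣ sj := cAB.symm.dvd_of_dvd_mul_left ⟨si, slope⟩
  have cABz : IsCoprime (A : ℤ) B := Nat.isCoprime_iff_coprime.2 cAB
  have cAi : IsCoprime (A : ℤ) hi :=
    (IsCoprime.of_mul_right_right ci).symm.of_isCoprime_of_dvd_left (Int.natCast_dvd_natCast.2 hAs)
  have cBj : IsCoprime (B : ℤ) hj :=
    (IsCoprime.of_mul_right_right cj).symm.of_isCoprime_of_dvd_left (Int.natCast_dvd_natCast.2 hBs)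
  have hBM : (B : ℤ) ∣ (M : ℤ) ^ α :=
    (Int.natCast_dvd_natCast.2 (hBs.trans hsjM)).trans (dvd_pow_self _ (by omega))
  have c1 : IsCoprime (A : ℤ) ((A : ℤ) * hj - B * hi + A * ((M : ℤ) ^ α * z)) := by
    have h1 : IsCoprime (A : ℤ) (-((B : ℤ) * hi)) := (cABz.mul_right cAi).neg_right
    have h2 := h1.add_mul_left_right (hj + (M : ℤ) ^ α * z)
    have h3 : -((B : ℤ) * hi) + (A : ℤ) * (hj + (M : ℤ) ^ α * z) =
        (A : ℤ) * hj - B * hi + A * ((M : ℤ) ^ α * z) := by ring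
    rw [h3] at h2
    exact h2
  have c2 : IsCoprime (B : ℤ) ((A : ℤ) * hj - B * hi + A * ((M : ℤ) ^ α * z)) := by
    obtain ⟨y, hy⟩ := hBM
    have h1 : IsCoprime (B : ℤ) ((A : ℤ) * hj) := cABz.symm.mul_right cBj
    have h2 := h1.add_mul_left_right (A * (y * z) - hi)
    have h3 : (A : ℤ) * hj + (B : ℤ) * (A * (y * z) - hi) =
        (A : ℤ) * hj - B * hi + A * ((M : ℤ) ^ α * z) := by rw [hy]; ring
    rw [h3] at h2
    exact h2
  refine ⟨hA, hB, ?_, cABz, c1, c2, ?_⟩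
  · intro h0
    rw [h0] at c1 c2
    have h2 : A = 1 := by
      have := isCoprime_zero_right.1 c1
      rw [Int.isUnit_iff] at this
      omega
    have h3 : B = 1 := by
      have := isCoprime_zero_right.1 c2
      rw [Int.isUnit_iff] at this
      omega
    rw [h2, h3, one_mul, one_mul] at slope
    exact ne slope.symm
  · rintro ⟨h2, h3, h4⟩
    have hodd : ∀ (y : ℤ) (t : ℕ), IsCoprime y (6 * (t : ℤ)) → Odd y := by
      intro y t hy
      rw [← Int.not_even_iff_odd]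
      intro hev
      have := hy.isUnit_of_dvd' hev.two_dvd ⟨3 * t, by ring⟩
      rw [Int.isUnit_iff] at this
      omega
    have h5 : Odd (A : ℤ) := by exact_mod_cast h2
    have h6 : Odd (B : ℤ) := by exact_mod_cast h3
    obtain ⟨m, hm⟩ := six
    have h7 : Even ((M : ℤ) ^ α) := by
      have : Even (M : ℤ) := ⟨3 * m, by rw [hm]; push_cast; ring⟩
      exact this.pow_of_ne_zero (by omega)
    have h8 : Even ((A : ℤ) * hj - B * hi + A * ((M : ℤ) ^ α * z)) := by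
      refine Even.add (Odd.sub_odd (h5.mul (hodd _ _ cj)) (h6.mul (hodd _ _ ci))) ?_
      exact (h7.mul_right z).mul_left _
    exact (Int.not_even_iff_odd.2 h4) h8

/-- simultaneous prime values of two forms give solutions of the equation -/
theorem cnt_g (A B : ℕ) (f g : ℤ × ℤ) (c : ℤ) (hf : 0 < f.1) (N Z : ℕ) (hZ : f.1 * (N : ℤ) + f.2 ≤ Z)
    (hslope : (A : ℤ) * g.1 = (B : ℤ) * f.1) (hc : (A : ℤ) * g.2 - (B : ℤ) * f.2 = c) :
    ((Icc 1 N).filter (fun n : ℕ => (f.1 * (n : ℤ) + f.2).toNat.Prime ∧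
      (g.1 * (n : ℤ) + g.2).toNat.Prime)).card ≤ cnt A B c Z := by
  classical
  unfold cnt
  refine card_le_card_of_injOn (fun n => (f.1 * (n : ℤ) + f.2).toNat) ?_ ?_
  · intro n hn
    rw [mem_coe, mem_filter, mem_Icc] at hn
    obtain ⟨⟨h1, h2⟩, h3, h4⟩ := hn
    have h5 : 0 < f.1 * (n : ℤ) + f.2 := by
      by_contra hcon
      rw [Int.toNat_of_nonpos (not_lt.1 hcon)] at h3
      exact Nat.not_prime_zero h3
    have h6 : 0 < g.1 * (n : ℤ) + g.2 := by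
      by_contra hcon
      rw [Int.toNat_of_nonpos (not_lt.1 hcon)] at h4
      exact Nat.not_prime_zero h4
    rw [mem_coe, mem_filter, mem_Icc]
    beta_reduce
    refine ⟨⟨by omega, ?_⟩, h3, (g.1 * (n : ℤ) + g.2).toNat, h4, ?_⟩
    · have h7 : f.1 * (n : ℤ) ≤ f.1 * (N : ℤ) := mul_le_mul_of_nonneg_left (by exact_mod_cast h2) hf.le
      omega
    · rw [Int.toNat_of_nonneg h5.le, Int.toNat_of_nonneg h6.le]
      linear_combination (n : ℤ) * hslope + hc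
  · intro n hn n' hn' hnn
    rw [mem_coe, mem_filter] at hn hn'
    have h3 := hn.2.1
    have h3' := hn'.2.1
    simp only at hnn
    have h5 : 0 < f.1 * (n : ℤ) + f.2 := by
      by_contra hcon
      rw [Int.toNat_of_nonpos (not_lt.1 hcon)] at h3
      exact Nat.not_prime_zero h3
    have h5' : 0 < f.1 * (n' : ℤ) + f.2 := by
      by_contra hcon
      rw [Int.toNat_of_nonpos (not_lt.1 hcon)] at h3'
      exact Nat.not_prime_zero h3'
    have h6 : f.1 * (n : ℤ) + f.2 = f.1 * (n' : ℤ) + f.2 := by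
      rw [← Int.toNat_of_nonneg h5.le, ← Int.toNat_of_nonneg h5'.le, hnn]
    have h7 : f.1 * (n : ℤ) = f.1 * (n' : ℤ) := by linarith
    exact_mod_cast mul_left_cancel₀ hf.ne' h7

/-- change of the scale -/
theorem scale (S C Z N : ℕ) (hS : 1 ≤ S) (hN : N = Z / S) (hN3 : 3 ≤ N) (hZ : 2 * (S : ℝ) ≤ Real.log Z) :
    (Z : ℝ) / (Real.log Z) ^ (C + 1) ≤ (N : ℝ) / (Real.log N) ^ C := by
  have h1 : Z < S * (N + 1) := by
    rw [hN]
    exact Nat.lt_mul_div_succ Z hS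
  have h2 : S * (N + 1) ≤ 2 * S * N := by nlinarith
  have h3 : (Z : ℝ) ≤ 2 * S * N := by exact_mod_cast (h1.trans_le h2).le
  have hS1 : (1 : ℝ) ≤ S := by exact_mod_cast hS
  have hN0 : (3 : ℝ) ≤ N := by exact_mod_cast hN3
  have hNZ : N ≤ Z := by rw [hN]; exact Nat.div_le_self _ _
  have hNZ' : (N : ℝ) ≤ Z := by exact_mod_cast hNZ
  have hlN : 0 < Real.log N := Real.log_pos (by linarith)
  have hlZ : Real.log N ≤ Real.log Z := Real.log_le_log (by linarith) hNZ'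
  have hl0 : 0 < Real.log Z := by linarith
  have h4 : (N : ℝ) / (Real.log Z) ^ C ≤ (N : ℝ) / (Real.log N) ^ C := by
    apply div_le_div_of_nonneg_left (by linarith) (pow_pos hlN C)
    exact pow_le_pow_left₀ hlN.le hlZ C
  refine le_trans ?_ h4
  rw [div_le_div_iff₀ (pow_pos hl0 _) (pow_pos hl0 _), pow_succ]
  calc (Z : ℝ) * Real.log Z ^ C ≤ (2 * S * N) * Real.log Z ^ C :=
        mul_le_mul_of_nonneg_right h3 (pow_pos hl0 C).le
    _ = (N * Real.log Z ^ C) * (2 * S) := by ring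
    _ ≤ (N * Real.log Z ^ C) * Real.log Z := mul_le_mul_of_nonneg_left hZ (by positivity)
    _ = _ := by ring

/-- the linear form of a vertex -/
def fv (T M : ℕ) (s : ℕ → ℕ → ℕ) (h : ℕ → ℕ → ℤ) (i X : ℕ) (v : ℕ × ℕ) : ℤ × ℤ :=
  ((s i v.1 : ℤ), h i v.1 + (M : ℤ) ^ (2 * (T - i) + 1) * ((X : ℤ) + v.2))

/-- the multipliers -/
def nu (M : ℕ) (A B : ℕ → ℕ → ℕ → ℕ) (i j k : ℕ) : ℕ :=
  M ^ (2 * (j - i) - 1) * (B i j k * (M / A i j k))

variable {T R M : ℕ} {s : ℕ → ℕ → ℕ} {h : ℕ → ℕ → ℤ} {A B : ℕ → ℕ → ℕ → ℕ} {G : ℕ → ℕ → ℕ → ℤ}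

theorem Da.fv_inj (D : Da T R M s h A B G) (i X L : ℕ) (hi : i ≤ T) :
    Set.InjOn (fv T M s h i X) (range R ×ˢ range L : Finset (ℕ × ℕ)) := by
  intro v hv w hw hvw
  rw [mem_coe, mem_product, mem_range, mem_range] at hv hw
  simp only [fv, Prod.mk.injEq] at hvw
  obtain ⟨h2, h3⟩ := hvw
  have h4 : s i v.1 = s i w.1 := by exact_mod_cast h2
  have h5 := D.inj i _ _ hi hv.1 hw.1 h4
  rw [h5] at h3
  have hM0 : (M : ℤ) ^ (2 * (T - i) + 1) ≠ 0 := by
    have : (M : ℤ) ≠ 0 := by exact_mod_cast (by have := D.M1; omega : M ≠ 0)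
    exact pow_ne_zero _ this
  have h6 : (M : ℤ) ^ (2 * (T - i) + 1) * ((X : ℤ) + v.2) = (M : ℤ) ^ (2 * (T - i) + 1) * ((X : ℤ) + w.2) := by
    linarith
  have h7 := mul_left_cancel₀ hM0 h6
  refine Prod.ext h5 ?_
  omega

theorem expoK {i j v w : ℕ} (hij : i < j) (hj : j ≤ T) (hv : v < R) (hw : w < R) :
    2 * R * (j - i) + w - v ≤ 2 * R * (T + 1) := by
  have q1 : 2 * R * (j - i) ≤ 2 * R * T := Nat.mul_le_mul_left _ (by omega)
  have q4 : 2 * R * (T + 1) = 2 * R * T + 2 * R := by ring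
  omega

/-- the equation of a pair of vertices -/
theorem Da.pair (D : Da T R M s h A B G) (i j : ℕ) (hij : i < j) (hj : j ≤ T) (X X' : ℕ) (v w : ℕ × ℕ)
    (hv : v.1 < R) (hw : w.1 < R) (z : ℕ)
    (hz : z + nu M A B i j (2 * R * (j - i) + w.1 - v.1) * (X + v.2) = X' + w.2) :
    (A i j (2 * R * (j - i) + w.1 - v.1) : ℤ) * (fv T M s h j X' w).1 =
      (B i j (2 * R * (j - i) + w.1 - v.1) : ℤ) * (fv T M s h i X v).1 ∧
    (A i j (2 * R * (j - i) + w.1 - v.1) : ℤ) * (fv T M s h j X' w).2 -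
      (B i j (2 * R * (j - i) + w.1 - v.1) : ℤ) * (fv T M s h i X v).2 =
      G i j (2 * R * (j - i) + w.1 - v.1) + A i j (2 * R * (j - i) + w.1 - v.1) *
        ((M : ℤ) ^ (2 * (T - j) + 1) * (z : ℤ)) := by
  obtain ⟨k, hk⟩ : ∃ k, k = 2 * R * (j - i) + w.1 - v.1 := ⟨_, rfl⟩
  have hkK : k ≤ 2 * R * (T + 1) := by rw [hk]; exact expoK hij hj hv hw
  have hs := D.slope i j v.1 w.1 hij hj hv hw
  have hc := D.const i j v.1 w.1 hij hj hv hw
  rw [← hk] at hz hs hc ⊢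
  refine ⟨by simp only [fv]; exact_mod_cast hs, ?_⟩
  simp only [fv]
  have e1 : A i j k * (M ^ (2 * (T - j) + 1) * nu M A B i j k) = B i j k * M ^ (2 * (T - i) + 1) := by
    unfold nu
    have e3 : A i j k * (M / A i j k) = M := Nat.mul_div_cancel' (D.AM i j k hij hj hkK)
    have e4 : M ^ (2 * (T - i) + 1) = M ^ (2 * (T - j) + 1) * (M ^ (2 * (j - i) - 1) * M) := by
      rw [← pow_succ, ← pow_add]; congr 1; omega
    rw [e4]
    calc A i j k * (M ^ (2 * (T - j) + 1) * (M ^ (2 * (j - i) - 1) * (B i j k * (M / A i j k)))) =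
        B i j k * (M ^ (2 * (T - j) + 1) * (M ^ (2 * (j - i) - 1) * (A i j k * (M / A i j k)))) := by ring
      _ = _ := by rw [e3]
  have e2 : (A i j k : ℤ) * ((M : ℤ) ^ (2 * (T - j) + 1) * (nu M A B i j k : ℤ)) =
      (B i j k : ℤ) * (M : ℤ) ^ (2 * (T - i) + 1) := by exact_mod_cast e1
  have hz' : (z : ℤ) + (nu M A B i j k : ℤ) * (X + v.2) = X' + w.2 := by exact_mod_cast hz
  linear_combination (-(A i j k : ℤ) * (M : ℤ) ^ (2 * (T - j) + 1)) * hz' + ((X : ℤ) + v.2) * e2 + hc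

theorem Da.adm (D : Da T R M s h A B G) (i j v w : ℕ) (hij : i < j) (hj : j ≤ T) (hv : v < R)
    (hw : w < R) (α : ℕ) (hα : 1 ≤ α) (z : ℤ) :
    AdmE (A i j (2 * R * (j - i) + w - v)) (B i j (2 * R * (j - i) + w - v))
      (G i j (2 * R * (j - i) + w - v) + A i j (2 * R * (j - i) + w - v) * ((M : ℤ) ^ α * z)) := by
  have hkK := expoK hij hj hv hw
  have h1 := adm_g (s i v) (s j w) (A i j (2 * R * (j - i) + w - v)) (B i j (2 * R * (j - i) + w - v)) M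
    (h i v) (h j w) (D.s1 i v (by omega) hv) (D.s1 j w hj hw) (D.A1 i j _ hij hj hkK) D.six
    (D.sM j w hj hw) (D.cop i v (by omega) hv) (D.cop j w hj hw) (D.cAB i j _ hij hj hkK)
    (D.slope i j v w hij hj hv hw) (D.ne i j v w hij hj hv hw) α hα z
  rw [D.const i j v w hij hj hv hw] at h1
  exact h1

end Pool.Agent.U570.AH
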