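import Pool.Agent.U570.AH.NT

/-! Few quadruples of linear forms have only bad pairs, at every scale: the bound. -/

set_option autoImplicit false

namespace Pool.Agent.U570.AH

open Finset Filter Pool.Agent.U570.AF
open Pool.Agent.N900.FC (Loc fam Bad pattern Cov coverU)
open Pool.Agent.Y827.GS (Adf)

variable {T R M : ℕ} {s : ℕ → ℕ → ℕ} {h : ℕ → ℕ → ℤ} {A B : ℕ → ℕ → ℕ → ℕ} {G : ℕ → ℕ → ℕ → ℤ}

theorem Da.adf (D : Da T R M s h A B G) (i X : ℕ) (v : ℕ × ℕ) (hi : i ≤ T) (hv : v.1 < R) (N Hb : ℕ)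
    (h1 : Hb + M ^ (2 * T + 1) * (X + v.2) ≤ N) (h2 : 48 * Hb ≤ N) (hb : |h i v.1| ≤ Hb) :
    Adf M N (fv T M s h i X v) := by
  have hs1 := D.s1 i v.1 hi hv
  have hsM := D.sM i v.1 hi hv
  have hM1 := D.M1
  have hsle : s i v.1 ≤ M := Nat.le_of_dvd (by omega) hsM
  have hpow : M ^ (2 * (T - i) + 1) ≤ M ^ (2 * T + 1) := Nat.pow_le_pow_right hM1 (by omega)
  have e1 : M ^ (2 * (T - i) + 1) * (X + v.2) ≤ M ^ (2 * T + 1) * (X + v.2) := Nat.mul_le_mul_right _ hpow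
  have e2 : ((Hb + M ^ (2 * (T - i) + 1) * (X + v.2) : ℕ) : ℤ) ≤ N := by exact_mod_cast (by omega)
  push_cast at e2
  have e3 : (0 : ℤ) ≤ (M : ℤ) ^ (2 * (T - i) + 1) * ((X : ℤ) + v.2) := by positivity
  rw [abs_le] at hb
  refine ⟨?_, ?_, ?_, ?_, ?_⟩
  · simp only [fv]
    exact_mod_cast (by omega : s i v.1 ≠ 0)
  · simp only [fv]
    rw [abs_of_nonneg (by positivity)]
    exact_mod_cast hsle
  · simp only [fv]
    rw [abs_le]
    constructor <;> linarith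
  · simp only [fv]
    have h3 : IsCoprime (s i v.1 : ℤ) (h i v.1) := (IsCoprime.of_mul_right_right (D.cop i v.1 hi hv)).symm
    obtain ⟨y, hy⟩ : (s i v.1 : ℤ) ∣ (M : ℤ) ^ (2 * (T - i) + 1) :=
      (Int.natCast_dvd_natCast.2 hsM).trans (dvd_pow_self _ (by omega))
    rw [hy, mul_assoc]
    exact h3.add_mul_left_right _
  · intro t ht1 _
    simp only [fv]
    have h3 : (1 : ℝ) ≤ (s i v.1 : ℝ) := by exact_mod_cast hs1
    have h4 : (48 * Hb : ℝ) ≤ N := by exact_mod_cast h2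
    have h5 : (-(Hb : ℝ)) ≤ ((h i v.1 + (M : ℤ) ^ (2 * (T - i) + 1) * ((X : ℤ) + v.2) : ℤ) : ℝ) := by
      have : (-(Hb : ℤ)) ≤ h i v.1 + (M : ℤ) ^ (2 * (T - i) + 1) * ((X : ℤ) + v.2) := by linarith
      exact_mod_cast this
    have hN0 : (0 : ℝ) ≤ N := Nat.cast_nonneg _
    have ht0 : 0 ≤ t := by linarith
    have h6 : t ≤ ((s i v.1 : ℤ) : ℝ) * t := by
      push_cast
      nlinarith
    linarith

theorem Da.loc (D : Da T R M s h A B G) (i : Fin 4 → ℕ) (X : ℕ → ℕ) (w : Fin 4 → ℕ × ℕ)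
    (hi : ∀ c, i c ≤ T) (hw : ∀ c, (w c).1 < R) (p : ℕ) (hp : p.Prime) :
    ∃ r : ℤ, ∀ c, ¬ (p : ℤ) ∣ (fv T M s h (i c) (X (i c)) (w c)).1 * r + (fv T M s h (i c) (X (i c)) (w c)).2 := by
  have hpz := Nat.prime_iff_prime_int.1 hp
  have hnd : ∀ c, (p : ℤ) ∣ 6 * (s (i c) (w c).1 : ℤ) → ¬ (p : ℤ) ∣ (fv T M s h (i c) (X (i c)) (w c)).2 := by
    intro c h3 h4
    simp only [fv] at h4
    have h5 : (p : ℤ) ∣ M := by
      rcases hpz.dvd_or_dvd h3 with h6 | h6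
      · refine h6.trans ?_
        exact_mod_cast Int.natCast_dvd_natCast.2 D.six
      · exact h6.trans (Int.natCast_dvd_natCast.2 (D.sM (i c) (w c).1 (hi c) (hw c)))
    have h6 : (p : ℤ) ∣ (M : ℤ) ^ (2 * (T - i c) + 1) * ((X (i c) : ℤ) + (w c).2) :=
      Dvd.dvd.mul_right (h5.trans (dvd_pow_self _ (by omega))) _
    have h7 : (p : ℤ) ∣ h (i c) (w c).1 := by
      have := dvd_sub h4 h6
      rwa [add_sub_cancel_right] at this
    exact hpz.not_isUnit ((D.cop (i c) (w c).1 (hi c) (hw c)).isUnit_of_dvd' h7 h3)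
  by_cases hp4 : 4 < p
  · obtain ⟨n', hn'⟩ := Pool.Agent.H361R2.exists_avoid' (m := 4) hp hp4
      (fun c => (fv T M s h (i c) (X (i c)) (w c)).1) (fun c => (fv T M s h (i c) (X (i c)) (w c)).2) (by
        rintro c ⟨h3, h4⟩
        refine hnd c ?_ h4
        simp only [fv] at h3
        exact Dvd.dvd.mul_left h3 _)
    exact ⟨n', hn'⟩
  · refine ⟨0, fun c => ?_⟩
    rw [mul_zero, zero_add]
    apply hnd c
    have h3 : p ∣ 6 := by
      have h4 : p = 2 ∨ p = 3 := by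
        have := hp.two_le
        rcases (by omega : p = 2 ∨ p = 3 ∨ p = 4) with h5 | h5 | h5
        · exact Or.inl h5
        · exact Or.inr h5
        · rw [h5] at hp; exact absurd hp (by norm_num)
      rcases h4 with h4 | h4 <;> rw [h4] <;> norm_num
    exact Dvd.dvd.mul_right (by exact_mod_cast Int.natCast_dvd_natCast.2 h3) _

open Classical in
/-- **few quadruples are bad** -/
theorem nt_g : ∃ (B₀ : ℕ) (C δ : ℝ), 0 < C ∧ 0 < δ ∧ ∀ (T R M : ℕ) (s : ℕ → ℕ → ℕ) (h : ℕ → ℕ → ℤ)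
    (A B : ℕ → ℕ → ℕ → ℕ) (G : ℕ → ℕ → ℕ → ℤ), 1 ≤ R → Da T R M s h A B G →
    ∃ Γ₀ : ℕ, ∀ n : ℕ, 1 ≤ n → ∀ L X : ℕ → ℕ, (∀ i, n ≤ L i) → (∀ i, i ≤ T → L i + X i ≤ L T + X T) →
    ∀ Z : ℕ, Γ₀ * (L T + X T) ≤ Z →
    ∀ i : Fin 4 → ℕ, StrictMono i → (∀ c, 1 ≤ i c ∧ i c ≤ T) →
    (((Fintype.piFinset (fun c => range R ×ˢ range (L (i c)))).filter (fun w => ∀ c d, c < d →
      ∃ z : ℕ, z + nu M A B (i c) (i d) (2 * R * (i d - i c) + (w d).1 - (w c).1) *
          (X (i c) + (w c).2) = X (i d) + (w d).2 ∧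
        ¬ GoodZ B₀ (A (i c) (i d) (2 * R * (i d - i c) + (w d).1 - (w c).1))
          (B (i c) (i d) (2 * R * (i d - i c) + (w d).1 - (w c).1))
          (G (i c) (i d) (2 * R * (i d - i c) + (w d).1 - (w c).1) +
            A (i c) (i d) (2 * R * (i d - i c) + (w d).1 - (w c).1) *
              ((M : ℤ) ^ (2 * (T - i d) + 1) * (z : ℤ))) Z)).card : ℝ) ≤
      C * (n : ℝ) ^ (-δ) * ∏ c, (((range R ×ˢ range (L (i c))).card : ℕ) : ℝ) := by
  obtain ⟨z₀, C₀, c₀, C₁, hc, hC₁, hU⟩ := coverU 4 (by norm_num)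
  refine ⟨C₀ + 1, C₁, c₀, hC₁, hc, ?_⟩
  intro T R M s h A B G hR D
  obtain ⟨N₀, hN₀⟩ := eventually_atTop.1 (hU M)
  obtain ⟨Z₀, hZ₀⟩ : ∃ Z₀ : ℕ, ∀ Z : ℕ, Z₀ ≤ Z → 2 * (((M + 1 : ℕ)) : ℝ) ≤ Real.log Z := by
    have h1 : Tendsto (fun Z : ℕ => Real.log (Z : ℝ)) atTop atTop :=
      Real.tendsto_log_atTop.comp tendsto_natCast_atTop_atTop
    exact eventually_atTop.1 (h1.eventually_ge_atTop _)
  obtain ⟨Hb, hHb⟩ : ∃ Hb : ℕ, ∀ i v, i ≤ T → v < R → |h i v| ≤ Hb := by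
    refine ⟨∑ i ∈ range (T + 1), ∑ v ∈ range R, (h i v).natAbs, fun i v hi hv => ?_⟩
    have h1 : (h i v).natAbs ≤ ∑ v ∈ range R, (h i v).natAbs :=
      single_le_sum (f := fun v => (h i v).natAbs) (fun _ _ => Nat.zero_le _) (mem_range.2 hv)
    have h2 : ∑ v ∈ range R, (h i v).natAbs ≤ ∑ i ∈ range (T + 1), ∑ v ∈ range R, (h i v).natAbs :=
      single_le_sum (f := fun i => ∑ v ∈ range R, (h i v).natAbs) (fun _ _ => Nat.zero_le _)
        (mem_range.2 (by omega))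
    rw [Int.abs_eq_natAbs]
    exact_mod_cast h1.trans h2
  obtain ⟨κ, hκ⟩ : ∃ κ : ℕ, κ = N₀ + 48 * Hb + M ^ (2 * T + 1) + 3 := ⟨_, rfl⟩
  refine ⟨(M + 1) * κ + Z₀, ?_⟩
  intro n hn L X hL hmax Z hZ i hi hiT
  obtain ⟨U, hU'⟩ : ∃ U : ℕ, U = L T + X T := ⟨_, rfl⟩
  have hU1 : 1 ≤ U := by have := hL T; omega
  rw [← hU'] at hZ
  have hZ1 : (M + 1) * (κ * U) ≤ Z := by
    calc (M + 1) * (κ * U) = (M + 1) * κ * U := by ring
      _ ≤ ((M + 1) * κ + Z₀) * U := Nat.mul_le_mul_right _ (Nat.le_add_right _ _)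
      _ ≤ Z := hZ
  have hZ2 : Z₀ ≤ Z := by
    calc Z₀ ≤ ((M + 1) * κ + Z₀) * 1 := by omega
      _ ≤ ((M + 1) * κ + Z₀) * U := Nat.mul_le_mul_left _ hU1
      _ ≤ Z := hZ
  obtain ⟨N, hN⟩ : ∃ N : ℕ, N = Z / (M + 1) := ⟨_, rfl⟩
  have hNκ : κ * U ≤ N := by
    rw [hN, Nat.le_div_iff_mul_le (by omega), mul_comm]
    exact hZ1
  have hNκ1 : κ ≤ N := (Nat.le_mul_of_pos_right _ hU1).trans hNκ
  have hNZ : (M + 1) * N ≤ Z := by rw [hN]; exact Nat.mul_div_le _ _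
  obtain ⟨V, hV⟩ : ∃ V : Fin 4 → Finset (ℤ × ℤ), V = fun c =>
    (range R ×ˢ range (L (i c))).image (fv T M s h (i c) (X (i c))) := ⟨_, rfl⟩
  have hcard : ∀ c, (V c).card = (range R ×ˢ range (L (i c))).card := fun c => by
    rw [hV]
    exact card_image_of_injOn (D.fv_inj (i c) (X (i c)) (L (i c)) (hiT c).2)
  have hbad := hN₀ N (by omega) V n hn (fun c => by
    rw [hcard, card_product, card_range, card_range]
    exact (hL (i c)).trans (Nat.le_mul_of_pos_left _ hR))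
  have hn0 : (0 : ℝ) ≤ n := Nat.cast_nonneg _
  rw [Real.rpow_neg hn0, ← div_eq_mul_inv]
  simp only [hcard] at hbad
  refine le_trans ?_ hbad
  rw [Nat.cast_le]
  refine card_le_card_of_injOn (fun w c => fv T M s h (i c) (X (i c)) (w c)) ?_ ?_
  · intro w hw
    rw [mem_coe, mem_filter, Fintype.mem_piFinset] at hw
    have hw1 : ∀ c, (w c).1 < R := fun c => mem_range.1 (mem_product.1 (hw.1 c)).1
    have hw2 : ∀ c, (w c).2 < L (i c) := fun c => mem_range.1 (mem_product.1 (hw.1 c)).2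
    have hbd : ∀ c, Hb + M ^ (2 * T + 1) * (X (i c) + (w c).2) ≤ N := fun c => by
      have h1 : X (i c) + (w c).2 ≤ U := by
        have := hmax (i c) (hiT c).2
        have := hw2 c
        omega
      have h2 : M ^ (2 * T + 1) * (X (i c) + (w c).2) ≤ M ^ (2 * T + 1) * U := Nat.mul_le_mul_left _ h1
      have h3 : Hb ≤ 48 * Hb * U := by
        calc Hb ≤ 48 * Hb * 1 := by omega
          _ ≤ _ := Nat.mul_le_mul_left _ hU1
      have h4 : κ * U = N₀ * U + 48 * Hb * U + M ^ (2 * T + 1) * U + 3 * U := by rw [hκ]; ring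
      omega
    unfold Bad
    rw [mem_coe, mem_filter, Fintype.mem_piFinset]
    refine ⟨fun c => by rw [hV]; exact mem_image_of_mem _ (hw.1 c), fun c => ?_, fun p _ hp => ?_, ?_⟩
    · exact D.adf (i c) (X (i c)) (w c) (hiT c).2 (hw1 c) N Hb (hbd c) (by omega)
        (hHb _ _ (hiT c).2 (hw1 c))
    · exact D.loc i X w (fun c => (hiT c).2) hw1 p hp
    · intro hcov
      obtain ⟨S, hS, hS5⟩ := hcov (fun _ => 1)
      have hS2 : 2 ≤ S.card := by
        simp only [sum_const, card_univ, Fintype.card_fin, smul_eq_mul, mul_one] at hS5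
        omega
      obtain ⟨i', hi', j', hj', hij'⟩ := Finset.one_lt_card.1 (by omega : 1 < S.card)
      unfold fam at hS
      rw [mem_filter] at hS
      have key : ∀ c d : Fin 4, c ∈ S → d ∈ S → c < d → False := by
        intro c d hcS hdS hcd
        obtain ⟨z, hz1, hz2⟩ := hw.2 c d hcd
        apply hz2
        obtain ⟨hp1, hp2⟩ := D.pair (i c) (i d) (hi hcd) (hiT d).2 (X (i c)) (X (i d)) (w c) (w d)
          (hw1 c) (hw1 d) z hz1
        refine ⟨D.adm (i c) (i d) (w c).1 (w d).1 (hi hcd) (hiT d).2 (hw1 c) (hw1 d) _ (by omega) _, ?_⟩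
        have h1 := hS.2 {c, d} (by
          intro e he
          rw [mem_insert, mem_singleton] at he
          rcases he with he | he <;> rw [he] <;> assumption)
        refine (scale (M + 1) C₀ Z N (by omega) hN (by omega) (hZ₀ Z hZ2)).trans (h1.trans ?_)
        rw [Nat.cast_le]
        refine le_trans ?_ (cnt_g _ _ (fv T M s h (i c) (X (i c)) (w c))
          (fv T M s h (i d) (X (i d)) (w d)) _ ?_ N Z ?_ hp1 hp2)
        · unfold pattern
          refine card_le_card fun n' hn' => ?_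
          rw [mem_filter] at hn' ⊢
          exact ⟨hn'.1, (hn'.2 c).2 (mem_insert_self _ _),
            (hn'.2 d).2 (mem_insert_of_mem (mem_singleton_self _))⟩
        · have := D.s1 (i c) (w c).1 (hiT c).2 (hw1 c)
          simp only [fv]
          exact_mod_cast this
        · obtain ⟨a1, a2, a3, _, _⟩ := D.adf (i c) (X (i c)) (w c) (hiT c).2 (hw1 c) N Hb (hbd c) (by omega)
            (hHb _ _ (hiT c).2 (hw1 c))
          have h2 := (abs_le.1 a2).2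
          have h3 := (abs_le.1 a3).2
          have h4 : (fv T M s h (i c) (X (i c)) (w c)).1 * (N : ℤ) ≤ M * N :=
            mul_le_mul_of_nonneg_right h2 (by positivity)
          have h5 : (((M + 1) * N : ℕ) : ℤ) ≤ Z := by exact_mod_cast hNZ
          push_cast at h5
          linarith
      rcases lt_or_gt_of_ne hij' with h3 | h3
      · exact key i' j' hi' hj' h3
      · exact key j' i' hj' hi' h3
  · intro w hw w' hw' hww
    rw [mem_coe, mem_filter, Fintype.mem_piFinset] at hw hw'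
    funext c
    exact D.fv_inj (i c) (X (i c)) (L (i c)) (hiT c).2 (hw.1 c) (hw'.1 c) (congrFun hww c)

end Pool.Agent.U570.AH
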