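import Pool.Agent.U570.AG.Pair

/-! The kernels of the pairs of classes, depending on both classes. -/

set_option autoImplicit false

namespace Pool.Agent.U570.AH

open Finset Pool.Agent.U570.AF Pool.Agent.U570.AG

noncomputable section

/-- the bad kernel of a pair of classes, with the boundary removed -/
def kbG (Bd : ℕ → ℕ → ℕ → ℕ → Prop) (L X : ℕ → ℕ) (ν : ℕ → ℕ → ℕ → ℕ) (N R i j : ℕ) (v w : ℕ × ℕ) : ℝ :=
  if N ≤ w.2 then ker (fun k (z : ZMod (L j)) => bj (Bd i) L X j k (z - ((ν i j k * X i : ℕ) : ZMod (L j))))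
    (ν i j) (2 * R * (j - i)) v w else 0

/-- the averaged kernel of a pair of classes -/
def kaG (Bd : ℕ → ℕ → ℕ → ℕ → Prop) (L X : ℕ → ℕ) (ν : ℕ → ℕ → ℕ → ℕ) (M' ℓ R i j : ℕ) (v w : ℕ × ℕ) : ℝ :=
  ker (fun k => av M' ℓ (fun z : ZMod (L j) => bj (Bd i) L X j k (z - ((ν i j k * X i : ℕ) : ZMod (L j)))))
    (ν i j) (2 * R * (j - i)) v w

theorem kaG_eq (Bd : ℕ → ℕ → ℕ → ℕ → Prop) (L X : ℕ → ℕ) [∀ j, NeZero (L j)] (ν : ℕ → ℕ → ℕ → ℕ)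
    (M' ℓ R i j : ℕ) (v w : ℕ × ℕ) :
    kaG Bd L X ν M' ℓ R i j v w = av M' ℓ (bj (Bd i) L X j (2 * R * (j - i) + w.1 - v.1))
      ((w.2 : ZMod (L j)) - ((ν i j (2 * R * (j - i) + w.1 - v.1) * (X i + v.2) : ℕ) : ZMod (L j))) := by
  obtain ⟨n, hn⟩ : ∃ n : ℕ, n = ν i j (2 * R * (j - i) + w.1 - v.1) := ⟨_, rfl⟩
  have h : kaG Bd L X ν M' ℓ R i j v w = av M' ℓ (fun z : ZMod (L j) =>
      bj (Bd i) L X j (2 * R * (j - i) + w.1 - v.1) (z - ((ν i j (2 * R * (j - i) + w.1 - v.1) * X i : ℕ) :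
        ZMod (L j)))) ((w.2 : ZMod (L j)) - (ν i j (2 * R * (j - i) + w.1 - v.1) : ZMod (L j)) *
          (v.2 : ZMod (L j))) := rfl
  rw [h, ← hn, av_shift]
  beta_reduce
  congr 1
  push_cast
  ring

theorem kaG_01 (Bd : ℕ → ℕ → ℕ → ℕ → Prop) (L X : ℕ → ℕ) (ν : ℕ → ℕ → ℕ → ℕ)
    (M' ℓ R i j : ℕ) (v w : ℕ × ℕ) :
    0 ≤ kaG Bd L X ν M' ℓ R i j v w ∧ kaG Bd L X ν M' ℓ R i j v w ≤ 1 := by
  have h : kaG Bd L X ν M' ℓ R i j v w = av M' ℓ (fun z : ZMod (L j) =>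
      bj (Bd i) L X j (2 * R * (j - i) + w.1 - v.1) (z - ((ν i j (2 * R * (j - i) + w.1 - v.1) * X i : ℕ) :
        ZMod (L j)))) ((w.2 : ZMod (L j)) - (ν i j (2 * R * (j - i) + w.1 - v.1) : ZMod (L j)) *
          (v.2 : ZMod (L j))) := rfl
  rw [h]
  exact ⟨av_nonneg _ _ _ (fun _ => bj_nonneg _ _ _ _ _ _) _, av_le _ _ _ (fun _ => bj_le _ _ _ _ _ _) _⟩

theorem kbG_01 (Bd : ℕ → ℕ → ℕ → ℕ → Prop) (L X : ℕ → ℕ) (ν : ℕ → ℕ → ℕ → ℕ)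
    (N R i j : ℕ) (v w : ℕ × ℕ) :
    0 ≤ kbG Bd L X ν N R i j v w ∧ kbG Bd L X ν N R i j v w ≤ 1 := by
  unfold kbG
  split_ifs
  · exact ⟨bj_nonneg _ _ _ _ _ _, bj_le _ _ _ _ _ _⟩
  · exact ⟨le_rfl, zero_le_one⟩

/-- the meaning of the bad kernel -/
theorem kbG_ne_zero (Bd : ℕ → ℕ → ℕ → ℕ → Prop) (L X : ℕ → ℕ) [∀ j, NeZero (L j)] (ν : ℕ → ℕ → ℕ → ℕ)
    (Q R i j : ℕ) (v w : ℕ × ℕ) (hv : v ∈ range R ×ˢ range (L i)) (hw : w ∈ range R ×ˢ range (L j))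
    (hQ : ν i j (2 * R * (j - i) + w.1 - v.1) ≤ Q)
    (h : kbG Bd L X ν (Q * (L i + X i)) R i j v w ≠ 0) :
    ∃ z : ℕ, z + ν i j (2 * R * (j - i) + w.1 - v.1) * (X i + v.2) = X j + w.2 ∧
      Bd i j (2 * R * (j - i) + w.1 - v.1) z := by
  rw [mem_product, mem_range, mem_range] at hv hw
  unfold kbG at h
  by_cases hN : Q * (L i + X i) ≤ w.2
  · rw [if_pos hN] at h
    have h1 : ν i j (2 * R * (j - i) + w.1 - v.1) * (X i + v.2) ≤ w.2 := by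
      refine le_trans ?_ hN
      exact Nat.mul_le_mul hQ (by omega)
    have h2 : (w.2 : ZMod (L j)) - (ν i j (2 * R * (j - i) + w.1 - v.1) : ZMod (L j)) *
        (v.2 : ZMod (L j)) - ((ν i j (2 * R * (j - i) + w.1 - v.1) * X i : ℕ) : ZMod (L j)) =
        ((w.2 - ν i j (2 * R * (j - i) + w.1 - v.1) * (X i + v.2) : ℕ) : ZMod (L j)) := by
      rw [Nat.cast_sub h1]
      push_cast
      ring
    have h3 : Bd i j (2 * R * (j - i) + w.1 - v.1)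
        (X j + (w.2 - ν i j (2 * R * (j - i) + w.1 - v.1) * (X i + v.2))) := by
      by_contra hcon
      apply h
      have h4 : w.2 - ν i j (2 * R * (j - i) + w.1 - v.1) * (X i + v.2) < L j := by omega
      show bj (Bd i) L X j (2 * R * (j - i) + w.1 - v.1)
        ((w.2 : ZMod (L j)) - (ν i j (2 * R * (j - i) + w.1 - v.1) : ZMod (L j)) *
        (v.2 : ZMod (L j)) - ((ν i j (2 * R * (j - i) + w.1 - v.1) * X i : ℕ) : ZMod (L j))) = 0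
      rw [h2]
      unfold bj
      rw [ZMod.val_cast_of_lt h4, if_neg hcon]
    exact ⟨_, by omega, h3⟩
  · rw [if_neg hN] at h
    exact absurd rfl h

end

end Pool.Agent.U570.AH
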