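import Pool.Agent.U570.AH.Inner
import Pool.Agent.U570.AG.Pick
import Pool.Agent.U570.AF.Core

/-! Choice of the four classes. -/

set_option autoImplicit false
set_option linter.unusedSectionVars false

namespace Pool.Agent.U570.AH

open Finset Pool.Agent.U570.AF Pool.Agent.U570.AG

noncomputable section

variable {L X : ℕ → ℕ} [∀ j, NeZero (L j)] {ν : ℕ → ℕ → ℕ → ℕ} {M Γ T K Q : ℕ} {κ : ℝ}

open Classical in
/-- application of the pattern lemma -/
theorem pat_app (ε : ℝ) (hε : 0 < ε) (hε1 : ε ≤ 1) : ∃ (n₀ : ℕ) (c : ℝ), 1 ≤ n₀ ∧ 0 < c ∧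
    ∀ (D R : ℕ) {L X : ℕ → ℕ} [∀ j, NeZero (L j)] {ν : ℕ → ℕ → ℕ → ℕ} {M Γ T K Q : ℕ} {κ : ℝ},
      T = n₀ * D → 2 * R * (T + 1) ≤ K → Hy L X ν M Γ T K Q κ → ∀ Bd : ℕ → ℕ → ℕ → ℕ → Prop,
      (∀ i j k, i < j → j ≤ T → 1 ≤ k → k ≤ K →
        ε * (L j : ℝ) ≤ (((range (L j)).filter (fun z => Bd i j k (X j + z))).card : ℝ)) →
      ∀ w ∈ Fintype.piFinset (fun _ : Fin n₀ => range D ×ˢ range R), ∃ e : Fin 4 → Fin n₀, StrictMono e ∧
        c ≤ PP Bd L X M Γ R (nd D (e 0) (w (e 0))) (nd D (e 1) (w (e 1))) (nd D (e 2) (w (e 2)))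
          (nd D (e 3) (w (e 3))) := by
  obtain ⟨n₀, c, hn, hc, key⟩ := patt ε hε hε1
  refine ⟨n₀, c, hn, hc, ?_⟩
  intro D R L X _ ν M Γ T K Q κ hT hK h Bd hBd w hw
  rw [Fintype.mem_piFinset] at hw
  have hw' : ∀ b, (w b).1 < D ∧ (w b).2 < R := fun b => by
    have := hw b
    rw [mem_product, mem_range, mem_range] at this
    exact this
  obtain ⟨e, he, hce⟩ := key (fun b => ZMod (L (nd D b (w b)).1)) (fun b => ZMod.fintype _)
    (fun b => by
      have : Fintype.card (ZMod (L (nd D b (w b)).1)) = L (nd D b (w b)).1 := ZMod.card _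
      rw [this]
      exact Nat.pos_of_ne_zero (NeZero.ne _))
    (fun b b' => gg Bd L X M Γ R (nd D b' (w b')) (nd D b (w b)))
    (fun b b' x => gg_nonneg _ _ _ _ _) (fun b b' x => gg_le _ _ _ _ _)
    (fun b b' hbb => by
      have hlt := nd_lt hbb (w b') (w b) (hw' b').1
      have hle : (nd D b (w b)).1 ≤ T := by rw [hT]; exact nd_le b (w b) (hw' b).1
      have hex := expo hK hlt hle (hw' b').2 (hw' b).2
      have h1 := mn_bj (Bd (nd D b' (w b')).1) L X (nd D b (w b)).1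
        (2 * R * ((nd D b (w b)).1 - (nd D b' (w b')).1) + (nd D b (w b)).2 - (nd D b' (w b')).2) ε
        (hBd _ _ _ hlt hle hex.1 hex.2)
      rw [← h.mn_gg Bd R (nd D b' (w b')) (nd D b (w b)) hle] at h1
      have hP : (0 : ℝ) < L (nd D b (w b)).1 := Pr
      unfold mn at h1
      rw [le_inv_mul_iff₀ hP] at h1
      have : (Fintype.card (ZMod (L (nd D b (w b)).1)) : ℝ) = L (nd D b (w b)).1 := by rw [ZMod.card]
      rw [this, mul_comm]
      exact h1)
  refine ⟨e, he, hce.trans (le_of_eq ?_)⟩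
  unfold PP P4 P3 P2 mn
  simp only [ZMod.card]

end

end Pool.Agent.U570.AH
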