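import Pool.Agent.U570.AH.Triples

/-! The versions for single long intervals. -/

set_option autoImplicit false

namespace Pool.Agent.U570.AH

open Finset Filter Pool.Agent.U570.AF

/-- arbitrarily large `Z` at which all elements of a large subset are good -/
def Lg (ε : ℝ) (X Y : ℕ) (P : ℕ → ℕ → Prop) : Prop :=
  ∃ E ⊆ Ico X (X + Y), (1 - ε) * (Y : ℝ) ≤ (E.card : ℝ) ∧ ∃ᶠ Z : ℕ in atTop, ∀ x ∈ E, P x Z

open Classical in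
theorem not_lg (ε : ℝ) (X Y : ℕ) (P : ℕ → ℕ → Prop) (h : ¬ Lg ε X Y P) :
    ∀ᶠ Z : ℕ in atTop, ¬ ((1 - ε) * (Y : ℝ) ≤ (((Ico X (X + Y)).filter (fun x => P x Z)).card : ℝ)) := by
  have h1 : ∀ E ∈ (Ico X (X + Y)).powerset, ∀ᶠ Z : ℕ in atTop,
      (1 - ε) * (Y : ℝ) ≤ (E.card : ℝ) → ¬ ∀ x ∈ E, P x Z := by
    intro E hE
    rw [mem_powerset] at hE
    by_cases hc : (1 - ε) * (Y : ℝ) ≤ (E.card : ℝ)
    · by_contra hcon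
      apply h
      refine ⟨E, hE, hc, ?_⟩
      rw [not_eventually] at hcon
      refine hcon.mono fun Z hZ => ?_
      push Not at hZ
      exact hZ.2
    · exact Eventually.of_forall fun Z hZ => absurd hZ hc
  have h2 := (Filter.eventually_all_finset ((Ico X (X + Y)).powerset)).2 h1
  filter_upwards [h2] with Z hZ hcon
  refine hZ _ (mem_powerset.2 (filter_subset _ _)) hcon ?_
  intro x hx
  exact (mem_filter.1 hx).2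

/-- a rapidly growing sequence of bad intervals -/
theorem chain_of (Bad : ℕ → ℕ → Prop) (Γ : ℕ) (h : ∀ Y₀ : ℕ, ∃ Y, Y₀ ≤ Y ∧ ∃ X, Bad X Y) :
    ∃ L X : ℕ → ℕ, Γ ≤ L 0 ∧ (∀ i, 1 ≤ i → Γ * (L (i - 1) + X (i - 1)) ≤ L i) ∧ ∀ i, Bad (X i) (L i) := by
  choose fY hfY fX hX using h
  obtain ⟨τ, hτ0, hτ⟩ : ∃ τ : ℕ → ℕ, τ 0 = Γ ∧ ∀ j, τ (j + 1) = Γ * (fY (τ j) + fX (τ j)) :=
    ⟨fun j => Nat.rec Γ (fun _ t => Γ * (fY t + fX t)) j, rfl, fun j => rfl⟩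
  refine ⟨fun i => fY (τ i), fun i => fX (τ i), ?_, ?_, fun i => hX _⟩
  · have := hfY (τ 0)
    beta_reduce
    rw [hτ0] at this ⊢
    exact this
  · intro i hi
    obtain ⟨i', rfl⟩ : ∃ i', i = i' + 1 := ⟨i - 1, by omega⟩
    rw [Nat.add_sub_cancel]
    have := hfY (τ (i' + 1))
    rw [hτ] at this
    beta_reduce
    rw [hτ]
    exact this

/-- **the general theorem for long intervals** -/
theorem simple_g : ∃ B₀ : ℕ, ∀ ε : ℝ, 0 < ε → ε ≤ 1 → ∃ T R : ℕ, 1 ≤ T ∧ 1 ≤ R ∧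
    ∀ (M : ℕ) (s : ℕ → ℕ → ℕ) (h : ℕ → ℕ → ℤ) (A B : ℕ → ℕ → ℕ → ℕ) (G : ℕ → ℕ → ℕ → ℤ),
      Da T R M s h A B G →
    ∃ Y₀ : ℕ, ∀ Y : ℕ, Y₀ ≤ Y → ∀ X : ℕ, ∃ i j v w : ℕ, i < j ∧ j ≤ T ∧ v < R ∧ w < R ∧
      Lg ε X Y (fun x Z => GoodZ B₀ (A i j (2 * R * (j - i) + w - v)) (B i j (2 * R * (j - i) + w - v))
          (G i j (2 * R * (j - i) + w - v) + A i j (2 * R * (j - i) + w - v) *
            ((M : ℤ) ^ (2 * (T - j) + 1) * (x : ℤ))) Z) := by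
  classical
  obtain ⟨B₀, hmain⟩ := main_g
  refine ⟨B₀, fun ε hε hε1 => ?_⟩
  obtain ⟨T, R, hT, hR, hm⟩ := hmain ε hε hε1
  refine ⟨T, R, hT, hR, fun M s h A B G D => ?_⟩
  obtain ⟨Γ, _, hΓ⟩ := hm M s h A B G D
  by_contra hcon
  push Not at hcon
  obtain ⟨L, X, hL0, hLX, hbad⟩ := chain_of _ Γ hcon
  have h1 : ∀ q ∈ (range (T + 1) ×ˢ range (T + 1)) ×ˢ (range R ×ˢ range R), ∀ᶠ Z : ℕ in atTop,
      (q.1.1 < q.1.2 → ¬ ((1 - ε) * (L q.1.2 : ℝ) ≤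
        (((Ico (X q.1.2) (X q.1.2 + L q.1.2)).filter (fun x : ℕ =>
          GoodZ B₀ (A q.1.1 q.1.2 (2 * R * (q.1.2 - q.1.1) + q.2.2 - q.2.1))
          (B q.1.1 q.1.2 (2 * R * (q.1.2 - q.1.1) + q.2.2 - q.2.1))
          (G q.1.1 q.1.2 (2 * R * (q.1.2 - q.1.1) + q.2.2 - q.2.1) +
            A q.1.1 q.1.2 (2 * R * (q.1.2 - q.1.1) + q.2.2 - q.2.1) *
            ((M : ℤ) ^ (2 * (T - q.1.2) + 1) * (x : ℤ))) Z)).card : ℝ))) := by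
    intro q hq
    rw [mem_product, mem_product, mem_product, mem_range, mem_range, mem_range, mem_range] at hq
    by_cases hij : q.1.1 < q.1.2
    · have h2 := not_lg _ _ _ _ (hbad q.1.2 q.1.1 q.1.2 q.2.1 q.2.2 hij (by omega) hq.2.1 hq.2.2)
      filter_upwards [h2] with Z hZ _
      exact hZ
    · exact Eventually.of_forall fun Z h => absurd h hij
  have h2 := (Filter.eventually_all_finset _).2 h1
  obtain ⟨Z, hZ1, hZ2⟩ := (h2.and (eventually_ge_atTop (Γ * (L T + X T)))).exists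
  obtain ⟨i, j, v, w, hij, hj, hv, hw, h3⟩ := hΓ L X hL0 hLX Z hZ2
  exact hZ1 ((i, j), (v, w)) (by
    rw [mem_product, mem_product, mem_product, mem_range, mem_range, mem_range, mem_range]
    exact ⟨⟨show i < T + 1 by omega, show j < T + 1 by omega⟩, hv, hw⟩) hij h3

open Classical in
/-- **a positive proportion of all triples, for long intervals** -/
theorem triples_simple : ∃ B₀ : ℕ, ∀ ε : ℝ, 0 < ε → ∃ (C : ℕ) (δ : ℝ), 0 < δ ∧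
    ∀ W : ℕ, C ≤ W → ∀ H : ℕ, W ^ 2 ≤ H → ∀ M : ℕ, 1 ≤ M → (∀ m : ℕ, 1 ≤ m → m ≤ W → m ∣ M) →
    ∃ Y₀ : ℕ, ∀ Y : ℕ, Y₀ ≤ Y → ∀ X : ℕ,
      δ * ((W : ℝ) ^ 2 * H) ≤ ((((Icc 1 W ×ˢ Icc 1 W) ×ˢ Icc (-(H : ℤ)) H).filter (fun t => ∃ α : ℕ,
        1 ≤ α ∧ α ≤ C ∧ Lg ε X Y (fun x Z =>
          GoodZ B₀ t.1.1 t.1.2 (t.2 + t.1.1 * ((M : ℤ) ^ α * (x : ℤ))) Z))).card : ℝ) := by
  obtain ⟨B₀, hmain⟩ := triples
  refine ⟨B₀, fun ε hε => ?_⟩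
  obtain ⟨ε', hε'0, hε'1, hε'⟩ : ∃ ε' : ℝ, 0 < ε' ∧ ε' ≤ 1 ∧ ε' ≤ ε :=
    ⟨min ε 1, by positivity, min_le_right _ _, min_le_left _ _⟩
  obtain ⟨T, C, δ, hδ, hm⟩ := hmain ε' hε'0 hε'1
  refine ⟨C, δ, hδ, fun W hW H hH M hM1 hMW => ?_⟩
  obtain ⟨Γ, _, hΓ⟩ := hm W hW H hH M hM1 hMW
  by_contra hcon
  push Not at hcon
  obtain ⟨L, X, hL0, hLX, hbad⟩ := chain_of _ Γ hcon
  have h1 : ∀ q ∈ (range (T + 1) ×ˢ range (C + 1)) ×ˢ ((Icc 1 W ×ˢ Icc 1 W) ×ˢ Icc (-(H : ℤ)) H),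
      ∀ᶠ Z : ℕ in atTop, (1 ≤ q.1.2 → ¬ Lg ε (X q.1.1) (L q.1.1) (fun x Z =>
          GoodZ B₀ q.2.1.1 q.2.1.2 (q.2.2 + q.2.1.1 * ((M : ℤ) ^ q.1.2 * (x : ℤ))) Z) →
        ¬ ((1 - ε') * (L q.1.1 : ℝ) ≤ (((Ico (X q.1.1) (X q.1.1 + L q.1.1)).filter (fun x : ℕ =>
          GoodZ B₀ q.2.1.1 q.2.1.2 (q.2.2 + q.2.1.1 * ((M : ℤ) ^ q.1.2 * (x : ℤ))) Z)).card : ℝ))) := by
    intro q _
    by_cases hq : ¬ Lg ε (X q.1.1) (L q.1.1) (fun x Z =>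
          GoodZ B₀ q.2.1.1 q.2.1.2 (q.2.2 + q.2.1.1 * ((M : ℤ) ^ q.1.2 * (x : ℤ))) Z)
    · filter_upwards [not_lg _ _ _ _ hq] with Z hZ _ _ hcon2
      apply hZ
      refine le_trans ?_ hcon2
      exact mul_le_mul_of_nonneg_right (by linarith) (Nat.cast_nonneg _)
    · exact Eventually.of_forall fun Z _ h => absurd h hq
  have h2 := (Filter.eventually_all_finset _).2 h1
  obtain ⟨Z, hZ1, hZ2⟩ := (h2.and (eventually_ge_atTop (Γ * (L T + X T)))).exists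
  obtain ⟨j, hj, h3⟩ := hΓ L X hL0 hLX Z hZ2
  have h4 := hbad j
  refine absurd (h3.trans ?_) (not_le.2 h4)
  rw [Nat.cast_le]
  refine card_le_card fun t ht => ?_
  unfold PT at ht
  rw [mem_filter] at ht ⊢
  obtain ⟨ht1, α, hα1, hαC, h5⟩ := ht
  refine ⟨ht1, α, hα1, hαC, ?_⟩
  by_contra h6
  exact hZ1 ((j, α), t) (by
    rw [mem_product, mem_product, mem_range, mem_range]
    exact ⟨⟨show j < T + 1 by omega, show α < C + 1 by omega⟩, ht1⟩) hα1 h6 h5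

end Pool.Agent.U570.AH
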