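import Pool.Agent.U570.AH.Fix
import Pool.Agent.U570.AH.Conv
import Mathlib.NumberTheory.LSeries.PrimesInAP

/-! Every pair has a bounded substitution with almost all constants good. -/

set_option autoImplicit false

namespace Pool.Agent.U570.AH

open Finset Filter Pool.Agent.U570.AF

/-- a translate prime to `e` -/
theorem adj (a : ℤ) (d e : ℕ) (hd1 : 1 ≤ d) (hd : IsCoprime a (d : ℤ)) (he : 1 ≤ e) :
    ∃ u : ℕ, u < e ∧ IsCoprime (a + d * u) (e : ℤ) := by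
  obtain ⟨p, hp1, hp, hpa⟩ := Nat.forall_exists_prime_gt_and_zmodEq e (by omega : d ≠ 0) hd
  obtain ⟨t, ht⟩ := (Int.modEq_iff_dvd.1 hpa.symm)
  have he0 : (0 : ℤ) < e := by exact_mod_cast he
  refine ⟨(t % e).toNat, ?_, ?_⟩
  · have h1 := Int.emod_nonneg t he0.ne'
    have h2 := Int.emod_lt_of_pos t he0
    omega
  · rw [Int.toNat_of_nonneg (Int.emod_nonneg t he0.ne')]
    have h1 : IsCoprime (p : ℤ) (e : ℤ) := by
      rw [Nat.isCoprime_iff_coprime, hp.coprime_iff_not_dvd]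
      intro h
      have := Nat.le_of_dvd he h
      omega
    have h2 : (a : ℤ) + d * (t % e) = p + e * (-(d * (t / e))) := by
      have := Int.emod_add_mul_ediv t e
      have h3 : (p : ℤ) = a + d * t := by linarith
      rw [h3]
      linear_combination (d : ℤ) * this
    rw [h2]
    exact IsCoprime.add_mul_left_left h1 _

/-- the recursively chosen slopes and constants -/
theorem seq_ex (K : ℕ) (fa : ℕ → ℤ) (fd : ℕ → ℕ) (hd1 : ∀ C, 1 ≤ fd C)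
    (hcop : ∀ C, IsCoprime (fa C) (fd C : ℤ)) :
    ∃ (S : ℕ → ℕ) (c : ℕ → ℤ) (u Cb : ℕ → ℕ), S 0 = 1 ∧ c 0 = 1 ∧
      (∀ j, S (j + 1) = fd (Cb j) * (6 * S j)) ∧ (∀ j, c (j + 1) = fa (Cb j) + fd (Cb j) * u j) ∧
      (∀ j, u j < 6 * S j) ∧ (∀ j, IsCoprime (c j) (6 * (S j : ℤ))) ∧
      (∀ i j, i ≤ j → 6 * S j * (1 + 2 ^ K * (1 + (c i).natAbs)) ≤ Cb j) ∧ (∀ j, 1 ≤ S j) ∧
      (∀ i j, i ≤ j → S i ∣ S j) := by
  have hadj : ∀ C e : ℕ, ∃ u : ℕ, 1 ≤ e → u < e ∧ IsCoprime (fa C + fd C * u) (e : ℤ) := by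
    intro C e
    by_cases he : 1 ≤ e
    · obtain ⟨u, h1, h2⟩ := adj (fa C) (fd C) e (hd1 C) (hcop C) he
      exact ⟨u, fun _ => ⟨h1, h2⟩⟩
    · exact ⟨0, fun h => absurd h he⟩
  choose fu hfu using hadj
  obtain ⟨Cx, hCx⟩ : ∃ Cx : ℕ × ℤ × ℕ → ℕ, ∀ x, Cx x = 6 * x.1 * (1 + 2 ^ K * (1 + x.2.2)) := ⟨_, fun _ => rfl⟩
  obtain ⟨c', hc'⟩ : ∃ c' : ℕ × ℤ × ℕ → ℤ, ∀ x, c' x = fa (Cx x) + fd (Cx x) * fu (Cx x) (6 * x.1) :=
    ⟨_, fun _ => rfl⟩
  obtain ⟨st, h0, hs⟩ : ∃ st : ℕ → ℕ × ℤ × ℕ, st 0 = (1, 1, 1) ∧ ∀ j, st (j + 1) =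
      (fd (Cx (st j)) * (6 * (st j).1), c' (st j), (st j).2.2 + (c' (st j)).natAbs) :=
    ⟨fun j => Nat.rec (1, 1, 1) (fun _ x => (fd (Cx x) * (6 * x.1), c' x, x.2.2 + (c' x).natAbs)) j,
      rfl, fun _ => rfl⟩
  have hS1 : ∀ j, 1 ≤ (st j).1 := by
    intro j
    induction j with
    | zero => rw [h0]
    | succ j ih =>
      rw [hs]
      exact Nat.mul_pos (hd1 _) (by omega)
  have hm : ∀ i j, i ≤ j → ((st i).2.1).natAbs ≤ (st j).2.2 := by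
    intro i j hij
    induction j with
    | zero =>
      obtain rfl : i = 0 := by omega
      rw [h0]
      simp
    | succ j ih =>
      rcases Nat.lt_or_ge i (j + 1) with h | h
      · rw [hs j]
        exact (ih (by omega)).trans (Nat.le_add_right _ _)
      · obtain rfl : i = j + 1 := by omega
        rw [hs j]
        exact Nat.le_add_left _ _
  refine ⟨fun j => (st j).1, fun j => (st j).2.1, fun j => fu (Cx (st j)) (6 * (st j).1), fun j => Cx (st j),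
    by beta_reduce; rw [h0], by beta_reduce; rw [h0], fun j => ?_, fun j => ?_, fun j => ?_, fun j => ?_, fun i j hij => ?_, hS1, fun i j hij => ?_⟩
  · beta_reduce
    rw [hs]
  · beta_reduce
    rw [hs, hc']
  · exact (hfu _ _ (by have := hS1 j; omega)).1
  · cases j with
    | zero =>
      beta_reduce
      rw [h0]
      exact isCoprime_one_left
    | succ j =>
      beta_reduce
      rw [hs]
      have h1 := (hfu (Cx (st j)) (6 * (st j).1) (by have := hS1 j; omega)).2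
      rw [hc']
      push_cast at h1 ⊢
      have h2 : IsCoprime (fa (Cx (st j)) + (fd (Cx (st j)) : ℤ) * (fu (Cx (st j)) (6 * (st j).1) : ℤ))
          (fd (Cx (st j)) : ℤ) := (hcop _).add_mul_left_left _
      have h3 := IsCoprime.of_mul_right_left h1
      exact h3.mul_right (h2.mul_right h1)
  · beta_reduce
    rw [hCx]
    have := hm i j hij
    gcongr
  · beta_reduce
    induction j with
    | zero =>
      obtain rfl : i = 0 := by omega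
      exact dvd_rfl
    | succ j ih =>
      rcases Nat.lt_or_ge i (j + 1) with h | h
      · rw [hs j]
        exact (ih (by omega)).trans ((Dvd.intro_left _ rfl).trans (Dvd.intro_left _ rfl))
      · obtain rfl : i = j + 1 := by omega
        exact dvd_rfl

/-- the data of the sequence -/
theorem da_synd (T R M₁ : ℕ) (hR : 1 ≤ R) (hM₁ : 1 ≤ M₁) (S : ℕ → ℕ) (c : ℕ → ℤ)
    (hcop : ∀ j, IsCoprime (c j) (6 * (S j : ℤ))) (hS1 : ∀ j, 1 ≤ S j) (hSd : ∀ i j, i ≤ j → S i ∣ S j) :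
    ∃ M : ℕ, M₁ ∣ M ∧ 1 ≤ M ∧ Da T R M (fun i v => S i * 2 ^ (2 * R * i + v)) (fun i _ => c i)
      (fun _ _ _ => 1) (fun i j k => S j / S i * 2 ^ k) (fun i j k => c j - (S j / S i * 2 ^ k : ℕ) * c i) := by
  obtain ⟨K, hK⟩ : ∃ K : ℕ, K = 2 * R * (T + 1) := ⟨_, rfl⟩
  obtain ⟨P, hP⟩ : ∃ P : ℕ, P = ∏ h ∈ Icc 1 K, (2 ^ h - 1) := ⟨_, rfl⟩
  have hP1 : 1 ≤ P := by
    rw [hP]
    refine Nat.one_le_iff_ne_zero.2 (prod_ne_zero_iff.2 fun h hh => ?_)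
    rw [mem_Icc] at hh
    have : 2 ^ 1 ≤ 2 ^ h := Nat.pow_le_pow_right (by omega) hh.1
    omega
  obtain ⟨M, hM⟩ : ∃ M : ℕ, M = M₁ * (6 * (S T * 2 ^ K) * (2 ^ K * P)) := ⟨_, rfl⟩
  have hM1 : 1 ≤ M := by
    rw [hM]
    have h1 : 1 ≤ 2 ^ K := Nat.one_le_two_pow
    exact Nat.mul_pos hM₁ (Nat.mul_pos (Nat.mul_pos (by omega) (Nat.mul_pos (hS1 T) h1)) (Nat.mul_pos h1 hP1))
  have hE : ∀ i v, i ≤ T → v < R → 2 * R * i + v ≤ K := by
    intro i v hi hv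
    rw [hK]
    have : 2 * R * i ≤ 2 * R * T := Nat.mul_le_mul_left _ hi
    have e : 2 * R * (T + 1) = 2 * R * T + 2 * R := by ring
    omega
  have hSM : S T * 2 ^ K ∣ M := by
    rw [hM]
    exact Dvd.dvd.mul_left (Dvd.dvd.mul_right (Dvd.intro_left _ rfl) _) _
  have hE2 : ∀ i l v w, i < l → v < R → w < R →
      2 * R * (l - i) + w - v + (2 * R * i + v) = 2 * R * l + w := by
    intro i l v w hil hv hw
    obtain ⟨d, rfl⟩ : ∃ d, l = i + (d + 1) := ⟨l - i - 1, by omega⟩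
    have e1 : i + (d + 1) - i = d + 1 := by omega
    rw [e1]
    have e2 : 2 * R * (d + 1) = 2 * R * d + 2 * R := by ring
    have e3 : 2 * R * (i + (d + 1)) = 2 * R * i + (2 * R * d + 2 * R) := by ring
    omega
  refine ⟨M, by rw [hM]; exact Dvd.intro _ rfl, hM1, ?_⟩
  refine
    { M1 := hM1
      six := ?_
      s1 := ?_
      sM := ?_
      inj := ?_
      cop := ?_
      A1 := ?_
      AM := ?_
      cAB := ?_
      slope := ?_
      const := ?_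
      ne := ?_
      dif := ?_ }
  · rw [hM]
    exact Dvd.dvd.mul_left (Dvd.dvd.mul_right (Dvd.intro _ rfl) _) _
  · intro i v _ _
    exact Nat.mul_pos (hS1 i) Nat.one_le_two_pow
  · intro i v hi hv
    exact (mul_dvd_mul (hSd i T hi) (pow_dvd_pow 2 (hE i v hi hv))).trans hSM
  · intro i v w _ _ _ h
    have h1 := Nat.eq_of_mul_eq_mul_left (hS1 i) h
    have h2 := Nat.pow_right_injective (le_refl 2) h1
    omega
  · intro i v _ _
    have h1 := hcop i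
    have h2 := IsCoprime.of_mul_right_left h1
    have h3 := IsCoprime.of_mul_right_right h1
    refine h2.mul_right ?_
    push_cast
    refine h3.mul_right (IsCoprime.pow_right ?_)
    exact h2.of_isCoprime_of_dvd_right ⟨3, by norm_num⟩
  · intro i j k _ _ _
    exact le_rfl
  · intro i j k _ _ _
    exact one_dvd _
  · intro i j k _ _ _
    exact Nat.coprime_one_left _
  · intro i j v w hij _ hv hw
    have e1 := hE2 i j v w hij hv hw
    rw [one_mul, ← e1, pow_add]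
    have e2 := Nat.div_mul_cancel (hSd i j hij.le)
    calc S j * (2 ^ (2 * R * (j - i) + w - v) * 2 ^ (2 * R * i + v))
        = S j / S i * S i * (2 ^ (2 * R * (j - i) + w - v) * 2 ^ (2 * R * i + v)) := by rw [e2]
      _ = _ := by ring
  · intro i j v w _ _ _ _
    rw [Nat.cast_one, one_mul]
  · intro i j v w hij _ hv hw h
    have h1 : 2 * R * i + v < 2 * R * j + w := by
      have h3 : 2 * R * (i + 1) ≤ 2 * R * j := Nat.mul_le_mul_left _ hij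
      have e : 2 * R * (i + 1) = 2 * R * i + 2 * R := by ring
      omega
    have h2 : 2 ^ (2 * R * i + v) < 2 ^ (2 * R * j + w) := Nat.pow_lt_pow_right (by omega) h1
    have h3 : S i ≤ S j := Nat.le_of_dvd (hS1 j) (hSd i j hij.le)
    have h4 : S i * 2 ^ (2 * R * i + v) < S j * 2 ^ (2 * R * j + w) :=
      (Nat.mul_lt_mul_of_pos_left h2 (hS1 i)).trans_le (Nat.mul_le_mul_right _ h3)
    exact absurd h h4.ne
  · intro i j k k' hij hj hk hk' hkk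
    rw [← hK] at hk hk'
    rw [Nat.div_one]
    have key : ∀ l l' : ℕ, l < l' → l' ≤ K →
        (((S j / S i * 2 ^ l * M : ℕ) : ℤ) - ((S j / S i * 2 ^ l' * M : ℕ) : ℤ)) ∣ (M : ℤ) ^ 2 := by
      intro l l' hl hl'
      obtain ⟨h, rfl⟩ : ∃ h, l' = l + h := ⟨l' - l, by omega⟩
      have h1 : S j / S i * 2 ^ l * (2 ^ h - 1) ∣ M := by
        have h2 : S j / S i ∣ S T * 2 ^ K :=
          ((Nat.div_dvd_of_dvd (hSd i j hij.le)).trans (hSd j T hj)).trans (Dvd.intro _ rfl)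
        have h3 : 2 ^ l * (2 ^ h - 1) ∣ 2 ^ K * P := by
          refine mul_dvd_mul (pow_dvd_pow 2 (by omega)) ?_
          rw [hP]
          exact dvd_prod_of_mem (fun h => 2 ^ h - 1) (mem_Icc.2 ⟨by omega, by omega⟩)
        rw [hM, mul_assoc]
        exact Dvd.dvd.mul_left (mul_dvd_mul (Dvd.dvd.mul_left h2 _) h3) _
      have h4 : ((S j / S i * 2 ^ l * (2 ^ h - 1) : ℕ) : ℤ) ∣ M := Int.natCast_dvd_natCast.2 h1
      have h5 : (1 : ℕ) ≤ 2 ^ h := Nat.one_le_two_pow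
      rw [Nat.cast_mul, Nat.cast_sub h5] at h4
      have e : (((S j / S i * 2 ^ l * M : ℕ) : ℤ) - ((S j / S i * 2 ^ (l + h) * M : ℕ) : ℤ)) =
          -((((S j / S i * 2 ^ l : ℕ) : ℤ) * (((2 ^ h : ℕ) : ℤ) - ((1 : ℕ) : ℤ))) * M) := by
        push_cast
        rw [pow_add]
        ring
      rw [e, neg_dvd, pow_two]
      exact mul_dvd_mul h4 dvd_rfl
    rcases lt_or_gt_of_ne hkk with h | h
    · exact key k k' h hk'
    · rw [← neg_sub]
      exact (neg_dvd).2 (key k' k h hk)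

theorem lg_mono' {ε ε' : ℝ} (h : ε' ≤ ε) {X Y : ℕ} {P : ℕ → ℕ → Prop} (hl : Lg ε' X Y P) : Lg ε X Y P := by
  obtain ⟨E, hE, hc, hf⟩ := hl
  refine ⟨E, hE, le_trans ?_ hc, hf⟩
  exact mul_le_mul_of_nonneg_right (by linarith) (Nat.cast_nonneg _)

/-- **every pair becomes good, for almost all constants, after a bounded substitution** -/
theorem synd : ∃ B₀ : ℕ, ∀ ε : ℝ, 0 < ε → ∃ C : ℕ, ∀ (a : ℤ) (d : ℕ), 1 ≤ d → IsCoprime a (d : ℤ) →
    ∀ M₀ : ℕ, 1 ≤ M₀ → ∃ M : ℕ, 1 ≤ M ∧ M₀ ∣ M ∧ ∃ Y₀ : ℕ, ∀ Y : ℕ, Y₀ ≤ Y → ∀ X : ℕ,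
      ∃ (f₁ : ℤ) (f₂ : ℕ), |f₁| ≤ C ∧ 1 ≤ f₂ ∧ f₂ ≤ C ∧
        Lg ε X Y (fun x Z => GoodZ B₀ 1 (d * f₂) (a + d * f₁ + (M : ℤ) * (x : ℤ)) Z) := by
  classical
  obtain ⟨B₀, hmain⟩ := simple_j
  refine ⟨B₀, fun ε hε => ?_⟩
  obtain ⟨ε', hε'0, hε'1, hε'⟩ : ∃ ε' : ℝ, 0 < ε' ∧ ε' ≤ 1 ∧ ε' ≤ ε :=
    ⟨min ε 1, by positivity, min_le_right _ _, min_le_left _ _⟩
  obtain ⟨T, R, hT, hR, hm⟩ := hmain ε' hε'0 hε'1
  obtain ⟨K, hK⟩ : ∃ K : ℕ, K = 2 * R * (T + 1) := ⟨_, rfl⟩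
  by_contra hcon
  push Not at hcon
  choose fa fd hfd hfc fM hfM hbad using hcon
  obtain ⟨S, c, u, Cb, _, _, hS, hc, hu, hcop, hCb, hS1, hSd⟩ := seq_ex K fa fd hfd hfc
  obtain ⟨M₁, hM₁⟩ : ∃ M₁ : ℕ, M₁ = ∏ j ∈ range T, fM (Cb j) := ⟨_, rfl⟩
  have hM₁1 : 1 ≤ M₁ := by
    rw [hM₁]
    exact Nat.one_le_iff_ne_zero.2 (prod_ne_zero_iff.2 fun j _ => by have := hfM (Cb j); omega)
  obtain ⟨M, hMM, hM1, D⟩ := da_synd T R M₁ hR hM₁1 S c hcop hS1 hSd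
  obtain ⟨j, hj1, hjT, Y₀, hY⟩ := hm _ _ _ _ _ _ D
  obtain ⟨j', rfl⟩ : ∃ j', j = j' + 1 := ⟨j - 1, by omega⟩
  have hdiv : fM (Cb j') ∣ M ^ (2 * (T - (j' + 1)) + 1) := by
    refine dvd_trans (dvd_trans ?_ hMM) (dvd_pow_self _ (by omega))
    rw [hM₁]
    exact dvd_prod_of_mem _ (mem_range.2 (by omega))
  obtain ⟨Y, hYY, X, hX⟩ := hbad (Cb j') (M ^ (2 * (T - (j' + 1)) + 1)) (Nat.pow_pos hM1) hdiv Y₀
  obtain ⟨i, v, w, hij, hv, hw, h⟩ := hY Y hYY X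
  obtain ⟨k, hk⟩ : ∃ k, k = 2 * R * (j' + 1 - i) + w - v := ⟨_, rfl⟩
  rw [← hk] at h
  have hkK : k ≤ K := by
    have e1 : 2 * R * (j' + 1 - i) ≤ 2 * R * T := Nat.mul_le_mul_left _ (by omega)
    have e2 : 2 * R * (T + 1) = 2 * R * T + 2 * R := by ring
    omega
  obtain ⟨g, hg⟩ : ∃ g : ℕ, g = 6 * S j' / S i := ⟨_, rfl⟩
  have hSi : S i ∣ 6 * S j' := Dvd.dvd.mul_left (hSd i j' (by omega)) _
  have hg1 : 1 ≤ g := by
    rw [hg]
    exact Nat.div_pos (Nat.le_of_dvd (by have := hS1 j'; omega) hSi) (hS1 i)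
  have hgle : g ≤ 6 * S j' := by rw [hg]; exact Nat.div_le_self _ _
  have hgS : S (j' + 1) / S i = fd (Cb j') * g := by
    rw [hS, hg]
    exact Nat.mul_div_assoc _ hSi
  have h2K : 2 ^ k ≤ 2 ^ K := Nat.pow_le_pow_right (by omega) hkK
  have h2k : 1 ≤ 2 ^ k := Nat.one_le_two_pow
  have hgk : g * 2 ^ k ≤ 6 * S j' * 2 ^ K := Nat.mul_le_mul hgle h2K
  have hb := hCb i j' (by omega)
  refine hX ((u j' : ℤ) - ((g * 2 ^ k : ℕ) : ℤ) * c i) (g * 2 ^ k) ?_ (Nat.mul_pos hg1 h2k) ?_ ?_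
  · have h3 : |(u j' : ℤ) - ((g * 2 ^ k : ℕ) : ℤ) * c i| ≤ (u j' : ℤ) + ((g * 2 ^ k : ℕ) : ℤ) * |c i| := by
      refine (abs_sub _ _).trans ?_
      rw [abs_mul, Nat.abs_cast, Nat.abs_cast]
    refine h3.trans ?_
    rw [Int.abs_eq_natAbs]
    have h4 : u j' + g * 2 ^ k * (c i).natAbs ≤ Cb j' := by
      refine le_trans ?_ hb
      have h5 : g * 2 ^ k * (c i).natAbs ≤ 6 * S j' * 2 ^ K * (c i).natAbs := Nat.mul_le_mul_right _ hgk
      have h6 := hu j'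
      have h7 : 6 * S j' * (1 + 2 ^ K * (1 + (c i).natAbs)) =
          6 * S j' + 6 * S j' * 2 ^ K + 6 * S j' * 2 ^ K * (c i).natAbs := by ring
      rw [h7]
      have h8 : 0 ≤ 6 * S j' * 2 ^ K := Nat.zero_le _
      omega
    exact_mod_cast h4
  · refine le_trans hgk (le_trans ?_ hb)
    have h7 : 6 * S j' * (1 + 2 ^ K * (1 + (c i).natAbs)) =
        6 * S j' + 6 * S j' * 2 ^ K + 6 * S j' * 2 ^ K * (c i).natAbs := by ring
    rw [h7]
    omega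
  · refine lg_mono' hε' ?_
    have e : ∀ x : ℕ, c (j' + 1) - ((S (j' + 1) / S i * 2 ^ k : ℕ) : ℤ) * c i + ((1 : ℕ) : ℤ) *
        ((M : ℤ) ^ (2 * (T - (j' + 1)) + 1) * (x : ℤ)) =
        fa (Cb j') + (fd (Cb j') : ℤ) * ((u j' : ℤ) - ((g * 2 ^ k : ℕ) : ℤ) * c i) +
          ((M ^ (2 * (T - (j' + 1)) + 1) : ℕ) : ℤ) * (x : ℤ) := by
      intro x
      rw [hgS, hc]
      push_cast
      ring
    simp only [e] at h
    rw [hgS, mul_assoc] at h
    exact h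

end Pool.Agent.U570.AH
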