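import Pool.Agent.U570.AH.Main
import Pool.Agent.U570.AH.Dens

/-! A positive proportion of all triples. -/

set_option autoImplicit false

namespace Pool.Agent.U570.AH

open Finset Filter Pool.Agent.U570.AF

theorem dif_aux (σ τ D k k' μ M : ℕ) (hk : k ≠ k') (hσ : 1 ≤ σ) (hM : M = σ * 2 ^ D * μ) (_hM1 : 1 ≤ M)
    (hdv : ∀ m : ℕ, 1 ≤ m → m ≤ τ * 2 ^ (max k k') → m ∣ M) (hτ : 1 ≤ τ) :
    (((τ * 2 ^ (k - D) * (M / (σ * 2 ^ (D - k))) : ℕ) : ℤ) -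
      ((τ * 2 ^ (k' - D) * (M / (σ * 2 ^ (D - k'))) : ℕ) : ℤ)) ∣ (M : ℤ) ^ 2 := by
  have key : ∀ k, τ * 2 ^ (k - D) * (M / (σ * 2 ^ (D - k))) = τ * μ * 2 ^ k := by
    intro k
    have e1 : M = (σ * 2 ^ (D - k)) * (2 ^ (D - (D - k)) * μ) := by
      rw [hM]
      have : 2 ^ D = 2 ^ (D - k) * 2 ^ (D - (D - k)) := by rw [← pow_add]; congr 1; omega
      rw [this]
      ring
    have e2 : M / (σ * 2 ^ (D - k)) = 2 ^ (D - (D - k)) * μ := by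
      conv_lhs => rw [e1]
      exact Nat.mul_div_cancel_left _ (by positivity)
    have e3 : 2 ^ k = 2 ^ (k - D) * 2 ^ (D - (D - k)) := by rw [← pow_add]; congr 1; omega
    rw [e2, e3]
    ring
  rw [key, key]
  have e4 : (((τ * μ * 2 ^ k : ℕ) : ℤ) - ((τ * μ * 2 ^ k' : ℕ) : ℤ)) =
      ((τ : ℤ) * ((2 : ℤ) ^ k - 2 ^ k')) * (μ : ℤ) := by push_cast; ring
  rw [e4, pow_two]
  refine mul_dvd_mul ?_ ?_
  · have h1 : ((τ : ℤ) * ((2 : ℤ) ^ k - 2 ^ k')).natAbs ∣ M := by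
      have hne : (2 : ℤ) ^ k - 2 ^ k' ≠ 0 := by
        intro h0
        have h2 : (2 : ℕ) ^ k = 2 ^ k' := by
          have : (2 : ℤ) ^ k = 2 ^ k' := by linarith
          exact_mod_cast this
        exact hk (Nat.pow_right_injective le_rfl h2)
      apply hdv
      · have : (τ : ℤ) * ((2 : ℤ) ^ k - 2 ^ k') ≠ 0 := mul_ne_zero (by exact_mod_cast (by omega : τ ≠ 0)) hne
        omega
      · rw [Int.natAbs_mul, Int.natAbs_natCast]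
        refine Nat.mul_le_mul_left _ ?_
        have h3 : (2 : ℤ) ^ k ≤ 2 ^ (max k k') := pow_le_pow_right₀ (by norm_num) (le_max_left _ _)
        have h4 : (2 : ℤ) ^ k' ≤ 2 ^ (max k k') := pow_le_pow_right₀ (by norm_num) (le_max_right _ _)
        have h5 : (0 : ℤ) < 2 ^ k := by positivity
        have h6 : (0 : ℤ) < 2 ^ k' := by positivity
        have h7 : (((2 : ℤ) ^ k - 2 ^ k').natAbs : ℤ) ≤ ((2 ^ (max k k') : ℕ) : ℤ) := by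
          push_cast
          rw [abs_le]
          constructor <;> linarith
        exact_mod_cast h7
    exact Int.natAbs_dvd.1 (by exact_mod_cast Int.natCast_dvd_natCast.2 h1)
  · exact ⟨(σ : ℤ) * 2 ^ D, by rw [hM]; push_cast; ring⟩

/-- the data of the vertices -/
theorem da_tr (T R : ℕ) (P : ℕ) (hP : 6 ∣ P) (hP1 : 1 ≤ P) (M W : ℕ) (hM1 : 1 ≤ M) (hW6 : 6 ≤ W)
    (hMW : ∀ m : ℕ, 1 ≤ m → m ≤ W → m ∣ M) (f : ℕ → ℕ × ℕ) (hf1 : ∀ i, i ≤ T → 1 ≤ (f i).1)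
    (hsmall : ∀ i, i ≤ T → (1 + P * (f i).1) * 2 ^ (2 * R * (T + 1)) ≤ W)
    (hc1 : ∀ i, i ≤ T → Nat.Coprime (1 + P * (f i).1) (1 + P * (f i).2))
    (hc2 : ∀ i j, i < j → j ≤ T → Nat.Coprime (1 + P * (f i).1) (1 + P * (f j).1)) :
    Da T R M (fun i v => (1 + P * (f i).1) * 2 ^ v) (fun i _ => ((1 + P * (f i).2 : ℕ) : ℤ))
      (fun i j k => (1 + P * (f i).1) * 2 ^ (2 * R * (j - i) - k))
      (fun i j k => (1 + P * (f j).1) * 2 ^ (k - 2 * R * (j - i)))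
      (fun i j k => (((1 + P * (f i).1) * 2 ^ (2 * R * (j - i) - k) : ℕ) : ℤ) * ((1 + P * (f j).2 : ℕ) : ℤ) -
        (((1 + P * (f j).1) * 2 ^ (k - 2 * R * (j - i)) : ℕ) : ℤ) * ((1 + P * (f i).2 : ℕ) : ℤ)) := by
  have hP2 : 2 ∣ P := (by norm_num : 2 ∣ 6).trans hP
  have hodd : ∀ y, Odd (1 + P * y) := fun y => odd_of hP2 y
  have hDK : ∀ i j, i < j → j ≤ T → 2 * R * (j - i) ≤ 2 * R * (T + 1) := fun i j _ hj =>
    Nat.mul_le_mul_left _ (by omega)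
  have hle : ∀ i e, i ≤ T → e ≤ 2 * R * (T + 1) → (1 + P * (f i).1) * 2 ^ e ≤ W := by
    intro i e hi he
    refine le_trans ?_ (hsmall i hi)
    exact Nat.mul_le_mul_left _ (Nat.pow_le_pow_right (by norm_num) he)
  have hRK : R ≤ 2 * R * (T + 1) := by nlinarith
  have hdvd : ∀ i e, i ≤ T → e ≤ 2 * R * (T + 1) → (1 + P * (f i).1) * 2 ^ e ∣ M := by
    intro i e hi he
    exact hMW _ (Nat.mul_pos (by omega) (by positivity)) (hle i e hi he)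
  refine ⟨hM1, hMW 6 (by norm_num) hW6, ?_, ?_, ?_, ?_, ?_, ?_, ?_, ?_, ?_, ?_, ?_⟩
  · intro i v _ _
    exact Nat.mul_pos (by omega) (by positivity)
  · intro i v hi hv
    exact hdvd i v hi (by omega)
  · intro i v w _ _ _ h
    have h1 : 2 ^ v = 2 ^ w := Nat.eq_of_mul_eq_mul_left (by omega) h
    exact Nat.pow_right_injective le_rfl h1
  · intro i v hi _
    have h1 : Nat.Coprime (1 + P * (f i).2) (6 * ((1 + P * (f i).1) * 2 ^ v)) := by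
      refine Nat.Coprime.mul_right ?_ (Nat.Coprime.mul_right (hc1 i hi).symm ?_)
      · obtain ⟨q, hq⟩ := hP
        rw [hq, mul_assoc, Nat.coprime_add_mul_left_left]
        norm_num
      · exact Nat.Coprime.pow_right _ (Nat.coprime_two_right.2 (hodd _))
    have h2 := Nat.isCoprime_iff_coprime.2 h1
    push_cast at h2 ⊢
    exact h2
  · intro i j k _ _ _
    exact Nat.mul_pos (by omega) (by positivity)
  · intro i j k hij hj _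
    refine hdvd i _ (by omega) ?_
    have := hDK i j hij hj
    omega
  · intro i j k hij hj _
    exact cop2 _ _ _ _ (hc2 i j hij hj) (hodd _) (hodd _)
  · intro i j v w hij hj hv hw
    have q1 : 2 * R * 1 ≤ 2 * R * (j - i) := Nat.mul_le_mul_left _ (by omega)
    have e1 : 2 ^ (2 * R * (j - i) - (2 * R * (j - i) + w - v)) * 2 ^ w =
        2 ^ (2 * R * (j - i) + w - v - 2 * R * (j - i)) * 2 ^ v := by
      rw [← pow_add, ← pow_add]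
      congr 1
      omega
    calc (1 + P * (f i).1) * 2 ^ (2 * R * (j - i) - (2 * R * (j - i) + w - v)) *
          ((1 + P * (f j).1) * 2 ^ w) = (1 + P * (f i).1) * (1 + P * (f j).1) *
          (2 ^ (2 * R * (j - i) - (2 * R * (j - i) + w - v)) * 2 ^ w) := by ring
      _ = (1 + P * (f i).1) * (1 + P * (f j).1) *
          (2 ^ (2 * R * (j - i) + w - v - 2 * R * (j - i)) * 2 ^ v) := by rw [e1]
      _ = _ := by ring
  · intro i j v w _ _ _ _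
    rfl
  · intro i j v w hij hj _ _ h
    have h1 : 1 + P * (f i).1 ∣ (1 + P * (f j).1) * 2 ^ w := ⟨2 ^ v, h.symm⟩
    have h2 : 1 + P * (f i).1 ∣ 1 + P * (f j).1 :=
      (Nat.Coprime.pow_right _ (Nat.coprime_two_right.2 (hodd _))).dvd_of_dvd_mul_right h1
    have h3 := Nat.Coprime.eq_one_of_dvd (hc2 i j hij hj) h2
    have h4 := Nat.mul_pos hP1 (hf1 i (by omega))
    omega
  · intro i j k k' hij hj hk hk' hkk
    obtain ⟨μ, hμ⟩ := hdvd i (2 * R * (j - i)) (by omega) (hDK i j hij hj)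
    exact dif_aux _ _ _ k k' μ M hkk (by omega) hμ hM1 (fun m hm1 hm2 => hMW m hm1
      (hm2.trans (hle j _ hj (by omega)))) (by omega)

/-- half of a quotient -/
theorem half (a b : ℕ) (hb : 1 ≤ b) (h : b ≤ a) : (a : ℝ) / (2 * b) ≤ ((a / b : ℕ) : ℝ) := by
  have hb0 : (0 : ℝ) < b := by exact_mod_cast hb
  rw [div_le_iff₀ (by positivity)]
  have h1 : a < b * (a / b + 1) := Nat.lt_mul_div_succ a hb
  have h2 : 1 ≤ a / b := (Nat.one_le_div_iff hb).2 h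
  have h3 : b * (a / b + 1) ≤ (a / b) * (2 * b) := by nlinarith
  exact_mod_cast (h1.trans_le h3).le

open Classical in
/-- the good triples of the box -/
noncomputable def PT (B₀ C W H M X L Z : ℕ) (ε : ℝ) : Finset ((ℕ × ℕ) × ℤ) :=
  ((Icc 1 W ×ˢ Icc 1 W) ×ˢ Icc (-(H : ℤ)) H).filter (fun t => ∃ α : ℕ, 1 ≤ α ∧ α ≤ C ∧
    (1 - ε) * (L : ℝ) ≤ (((Ico X (X + L)).filter (fun x : ℕ =>
      GoodZ B₀ t.1.1 t.1.2 (t.2 + t.1.1 * ((M : ℤ) ^ α * (x : ℤ))) Z)).card : ℝ))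

/-- **a positive proportion of all triples** -/
theorem triples : ∃ B₀ : ℕ, ∀ ε : ℝ, 0 < ε → ε ≤ 1 → ∃ (T C : ℕ) (δ : ℝ), 0 < δ ∧
    ∀ W : ℕ, C ≤ W → ∀ H : ℕ, W ^ 2 ≤ H → ∀ M : ℕ, 1 ≤ M → (∀ m : ℕ, 1 ≤ m → m ≤ W → m ∣ M) →
    ∃ Γ : ℕ, 1 ≤ Γ ∧ ∀ L X : ℕ → ℕ, Γ ≤ L 0 → (∀ i, 1 ≤ i → Γ * (L (i - 1) + X (i - 1)) ≤ L i) →
    ∀ Z : ℕ, Γ * (L T + X T) ≤ Z → ∃ j, j ≤ T ∧
      δ * ((W : ℝ) ^ 2 * H) ≤ ((PT B₀ C W H M (X j) (L j) Z ε).card : ℝ) := by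
  classical
  obtain ⟨B₀, hmain⟩ := main_g
  refine ⟨B₀, fun ε hε hε1 => ?_⟩
  obtain ⟨T, R, hT, hR, hm⟩ := hmain ε hε hε1
  obtain ⟨K, hK⟩ : ∃ K : ℕ, K = 2 * R * (T + 1) := ⟨_, rfl⟩
  obtain ⟨P, C₁, δ₁, hP1, hP6, hC₁, hδ₁, hch⟩ := choose_sig (T + 1) K (by omega)
  obtain ⟨Q, hQ⟩ : ∃ Q : ℕ, Q = 2 ^ (K + 1) * P := ⟨_, rfl⟩
  have hQ1 : 1 ≤ Q := by rw [hQ]; exact Nat.mul_pos (by positivity) hP1
  have hQ0 : (0 : ℝ) < Q := by exact_mod_cast hQ1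
  have hP0 : (0 : ℝ) < P := by exact_mod_cast hP1
  refine ⟨T, 2 * T + 1 + Q * C₁ + 6, δ₁ / (((T : ℝ) + 1) * ((2 * Q) ^ 3 * (2 * P))), by positivity, ?_⟩
  intro W hW H hH M hM1 hMW
  have hWQ : Q * C₁ ≤ W := by omega
  have hWQ1 : Q ≤ W := (Nat.le_mul_of_pos_right _ hC₁).trans hWQ
  have hW1 : 1 ≤ W := by omega
  have hW0 : (0 : ℝ) < W := by exact_mod_cast hW1
  obtain ⟨Y₁, hY₁⟩ : ∃ Y₁ : ℕ, Y₁ = W / Q := ⟨_, rfl⟩
  obtain ⟨U₁, hU₁⟩ : ∃ U₁ : ℕ, U₁ = H / (W * P) := ⟨_, rfl⟩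
  have hYC : C₁ ≤ Y₁ := by
    rw [hY₁, Nat.le_div_iff_mul_le hQ1, mul_comm]
    exact hWQ
  have hY1 : 1 ≤ Y₁ := hC₁.trans hYC
  have hPQ : P ≤ Q := by rw [hQ]; exact Nat.le_mul_of_pos_left _ (by positivity)
  have hYU : Y₁ ≤ U₁ := by
    rw [hY₁, hU₁, ← Nat.div_div_eq_div_mul]
    have h1 : W ≤ H / W := by
      rw [Nat.le_div_iff_mul_le hW1, ← pow_two]
      exact hH
    calc W / Q ≤ W / P := Nat.div_le_div_left hPQ hP1
      _ ≤ H / W / P := Nat.div_le_div_right h1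
  have hsm : ∀ y, y < Y₁ + Y₁ → (1 + P * y) * 2 ^ K ≤ W := by
    intro y hy
    have h1 : 1 + P * y ≤ 2 * (P * Y₁) := by
      have h2 : P * y ≤ P * (2 * Y₁ - 1) := Nat.mul_le_mul_left _ (by omega)
      have h3 : P * (2 * Y₁ - 1) + P * 1 = 2 * (P * Y₁) := by
        rw [← Nat.mul_add]
        have : 2 * Y₁ - 1 + 1 = 2 * Y₁ := by omega
        rw [this]
        ring
      omega
    calc (1 + P * y) * 2 ^ K ≤ (2 * (P * Y₁)) * 2 ^ K := Nat.mul_le_mul_right _ h1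
      _ = Q * Y₁ := by rw [hQ]; ring
      _ ≤ W := by rw [hY₁]; exact Nat.mul_div_le _ _
  have hsm2 : ∀ u, u < U₁ → W * (1 + P * u) ≤ H := by
    intro u hu
    have h1 : 1 + P * u ≤ P * U₁ := by
      have h2 : P * u ≤ P * (U₁ - 1) := Nat.mul_le_mul_left _ (by omega)
      have h3 : P * (U₁ - 1) + P * 1 = P * U₁ := by
        rw [← Nat.mul_add]
        congr 1
        omega
      omega
    calc W * (1 + P * u) ≤ W * (P * U₁) := Nat.mul_le_mul_left _ h1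
      _ = (W * P) * U₁ := by ring
      _ ≤ H := by rw [hU₁]; exact Nat.mul_div_le _ _
  -- the constants
  obtain ⟨ex, hex⟩ : ∃ ex : (Fin (T + 1) → ℕ × ℕ) → ℕ → ℕ × ℕ, ∀ g i (hi : i < T + 1), ex g i = g ⟨i, hi⟩ := by
    refine ⟨fun g i => if hi : i < T + 1 then g ⟨i, hi⟩ else (0, 0), fun g i hi => ?_⟩
    simp only [hi, dite_true]
  obtain ⟨Cond, hCond⟩ : ∃ Cond : (Fin (T + 1) → ℕ × ℕ) → Prop, Cond = fun g =>
    (∀ i, Y₁ ≤ (g i).1 ∧ (g i).1 < Y₁ + Y₁ ∧ (g i).2 < U₁) ∧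
      (∀ i, Nat.Coprime (1 + P * (g i).1) (1 + P * (g i).2)) ∧
      ∀ i j, i < j → Nat.Coprime (1 + P * (g i).1) (1 + P * (g j).1) := ⟨_, rfl⟩
  have hGam : ∀ g : Fin (T + 1) → ℕ × ℕ, ∃ Γ : ℕ, 1 ≤ Γ ∧ (Cond g → ∀ L X : ℕ → ℕ, Γ ≤ L 0 →
      (∀ i, 1 ≤ i → Γ * (L (i - 1) + X (i - 1)) ≤ L i) → ∀ Z : ℕ, Γ * (L T + X T) ≤ Z →
      ∃ i j k : ℕ, ∃ (hi : i < T + 1) (hj : j < T + 1), i < j ∧ k ≤ K ∧
        (1 - ε) * (L j : ℝ) ≤ (((Ico (X j) (X j + L j)).filter (fun x : ℕ =>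
          GoodZ B₀ (tr P (2 * R * (j - i)) k (g ⟨i, hi⟩) (g ⟨j, hj⟩)).1.1
            (tr P (2 * R * (j - i)) k (g ⟨i, hi⟩) (g ⟨j, hj⟩)).1.2
            ((tr P (2 * R * (j - i)) k (g ⟨i, hi⟩) (g ⟨j, hj⟩)).2 +
              (tr P (2 * R * (j - i)) k (g ⟨i, hi⟩) (g ⟨j, hj⟩)).1.1 *
              ((M : ℤ) ^ (2 * (T - j) + 1) * (x : ℤ))) Z)).card : ℝ)) := by
    intro g
    by_cases hg : Cond g
    · have hg' := hg
      rw [hCond] at hg'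
      obtain ⟨g1, g2, g3⟩ := hg'
      have D := da_tr T R P hP6 hP1 M W hM1 (by omega) hMW (ex g)
        (fun i hi => by rw [hex g i (by omega)]; exact hY1.trans (g1 _).1)
        (fun i hi => by rw [hex g i (by omega), ← hK]; exact hsm _ (g1 _).2.1)
        (fun i hi => by rw [hex g i (by omega)]; exact g2 _)
        (fun i j hij hj => by
          rw [hex g i (by omega), hex g j (by omega)]
          exact g3 _ _ hij)
      obtain ⟨Γ, hΓ1, hΓ⟩ := hm M _ _ _ _ _ D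
      refine ⟨Γ, hΓ1, fun _ L X hL0 hLX Z hZ => ?_⟩
      obtain ⟨i, j, v, w, hij, hj, hv, hw, h1⟩ := hΓ L X hL0 hLX Z hZ
      refine ⟨i, j, 2 * R * (j - i) + w - v, by omega, by omega, hij, ?_, ?_⟩
      · rw [hK]; exact expoK hij hj hv hw
      · rw [hex g i (by omega), hex g j (by omega)] at h1
        exact h1
    · exact ⟨1, le_rfl, fun h => absurd h hg⟩
  choose Γf hΓf1 hΓf using hGam
  obtain ⟨F, hF⟩ : ∃ F : Finset (Fin (T + 1) → ℕ × ℕ), F =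
    Fintype.piFinset (fun _ : Fin (T + 1) => Ico Y₁ (Y₁ + Y₁) ×ˢ range U₁) := ⟨_, rfl⟩
  refine ⟨1 + ∑ g ∈ F, Γf g, by omega, ?_⟩
  intro L X hL0 hLX Z hZ
  by_contra hcon
  push Not at hcon
  obtain ⟨S, hS⟩ : ∃ S : Finset ((ℕ × ℕ) × ℤ), S =
    (range (T + 1)).biUnion (fun j => PT B₀ (2 * T + 1 + Q * C₁ + 6) W H M (X j) (L j) Z ε) := ⟨_, rfl⟩
  have hScard : (S.card : ℝ) ≤ δ₁ * ((Y₁ : ℝ) ^ 3 * U₁) := by
    have h1 : (S.card : ℝ) ≤ ∑ j ∈ range (T + 1),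
        ((PT B₀ (2 * T + 1 + Q * C₁ + 6) W H M (X j) (L j) Z ε).card : ℝ) := by
      rw [hS]
      exact_mod_cast card_biUnion_le
    have h2 : ∑ j ∈ range (T + 1),
        ((PT B₀ (2 * T + 1 + Q * C₁ + 6) W H M (X j) (L j) Z ε).card : ℝ) ≤
        ∑ _j ∈ range (T + 1), (δ₁ / (((T : ℝ) + 1) * ((2 * Q) ^ 3 * (2 * P))) * ((W : ℝ) ^ 2 * H)) :=
      sum_le_sum fun j hj => (hcon j (by rw [mem_range] at hj; omega)).le
    rw [sum_const, card_range, nsmul_eq_mul] at h2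
    have h3 : (W : ℝ) / (2 * Q) ≤ Y₁ := by rw [hY₁]; exact half W Q hQ1 hWQ1
    have h4 : (H : ℝ) / (2 * ((W * P : ℕ) : ℝ)) ≤ U₁ := by
      rw [hU₁]
      refine half H (W * P) (Nat.mul_pos hW1 hP1) ?_
      refine le_trans ?_ hH
      rw [pow_two]
      exact Nat.mul_le_mul_left _ (hPQ.trans hWQ1)
    refine h1.trans (h2.trans ?_)
    have h5 : ((T + 1 : ℕ) : ℝ) * (δ₁ / (((T : ℝ) + 1) * ((2 * Q) ^ 3 * (2 * P))) * ((W : ℝ) ^ 2 * H)) =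
        δ₁ * (((W : ℝ) / (2 * Q)) ^ 3 * ((H : ℝ) / (2 * ((W * P : ℕ) : ℝ)))) := by
      push_cast
      field_simp
    rw [h5]
    gcongr
  obtain ⟨g, g1, g2, g3⟩ := hch Y₁ U₁ hYC hYU S hScard
  have hCg : Cond g := by
    rw [hCond]
    exact ⟨g1, g2, fun i j hij => (g3 i j hij).1⟩
  have hgF : g ∈ F := by
    rw [hF, Fintype.mem_piFinset]
    intro i
    rw [mem_product, mem_Ico, mem_range]
    exact ⟨⟨(g1 i).1, (g1 i).2.1⟩, (g1 i).2.2⟩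
  have hΓle : Γf g ≤ 1 + ∑ g ∈ F, Γf g := by
    have := single_le_sum (f := Γf) (fun _ _ => Nat.zero_le _) hgF
    omega
  obtain ⟨i, j, k, hi, hj, hij, hk, h1⟩ := hΓf g hCg L X (hΓle.trans hL0)
    (fun i hi => (Nat.mul_le_mul_right _ hΓle).trans (hLX i hi)) Z
    ((Nat.mul_le_mul_right _ hΓle).trans hZ)
  have hDK : 2 * R * (j - i) ≤ K := by rw [hK]; exact Nat.mul_le_mul_left _ (by omega)
  have hnot := (g3 ⟨i, hi⟩ ⟨j, hj⟩ (by rw [Fin.lt_def]; exact hij)).2 (2 * R * (j - i)) k hDK hk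
  apply hnot
  rw [hS, mem_biUnion]
  refine ⟨j, mem_range.2 hj, ?_⟩
  unfold PT
  rw [mem_filter, mem_product, mem_product, mem_Icc, mem_Icc, mem_Icc]
  have hA : (1 + P * (g ⟨i, hi⟩).1) * 2 ^ (2 * R * (j - i) - k) ≤ W :=
    le_trans (Nat.mul_le_mul_left _ (Nat.pow_le_pow_right (by norm_num) (by omega)))
      (hsm _ (g1 ⟨i, hi⟩).2.1)
  have hB : (1 + P * (g ⟨j, hj⟩).1) * 2 ^ (k - 2 * R * (j - i)) ≤ W :=
    le_trans (Nat.mul_le_mul_left _ (Nat.pow_le_pow_right (by norm_num) (by omega)))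
      (hsm _ (g1 ⟨j, hj⟩).2.1)
  have hA1 : 1 ≤ (1 + P * (g ⟨i, hi⟩).1) * 2 ^ (2 * R * (j - i) - k) :=
    Nat.mul_pos (by omega) (by positivity)
  have hB1 : 1 ≤ (1 + P * (g ⟨j, hj⟩).1) * 2 ^ (k - 2 * R * (j - i)) :=
    Nat.mul_pos (by omega) (by positivity)
  have hAh : (1 + P * (g ⟨i, hi⟩).1) * 2 ^ (2 * R * (j - i) - k) * (1 + P * (g ⟨j, hj⟩).2) ≤ H :=
    (Nat.mul_le_mul_right _ hA).trans (hsm2 _ (g1 ⟨j, hj⟩).2.2)
  have hBh : (1 + P * (g ⟨j, hj⟩).1) * 2 ^ (k - 2 * R * (j - i)) * (1 + P * (g ⟨i, hi⟩).2) ≤ H :=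
    (Nat.mul_le_mul_right _ hB).trans (hsm2 _ (g1 ⟨i, hi⟩).2.2)
  refine ⟨⟨⟨⟨hA1, hA⟩, hB1, hB⟩, ?_⟩, 2 * (T - j) + 1, by omega, by omega, h1⟩
  unfold tr
  simp only
  have e1 : (((1 + P * (g ⟨i, hi⟩).1) * 2 ^ (2 * R * (j - i) - k) * (1 + P * (g ⟨j, hj⟩).2) : ℕ) : ℤ) ≤ H := by
    exact_mod_cast hAh
  have e2 : (((1 + P * (g ⟨j, hj⟩).1) * 2 ^ (k - 2 * R * (j - i)) * (1 + P * (g ⟨i, hi⟩).2) : ℕ) : ℤ) ≤ H := by
    exact_mod_cast hBh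
  rw [Nat.cast_mul] at e1 e2
  have e3 : (0 : ℤ) ≤ (((1 + P * (g ⟨i, hi⟩).1) * 2 ^ (2 * R * (j - i) - k) : ℕ) : ℤ) *
      ((1 + P * (g ⟨j, hj⟩).2 : ℕ) : ℤ) := by positivity
  have e4 : (0 : ℤ) ≤ (((1 + P * (g ⟨j, hj⟩).1) * 2 ^ (k - 2 * R * (j - i)) : ℕ) : ℤ) *
      ((1 + P * (g ⟨i, hi⟩).2 : ℕ) : ℤ) := by positivity
  constructor <;> linarith

end Pool.Agent.U570.AH
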